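import Pool.Agent.H579.E.Fun

set_option autoImplicit false

/-! Products of two primes, the first of which is small: arithmetic progressions with a small difference. -/

namespace Pool.Agent.H579.E

open Finset
open Pool.Agent.Y883.GJ Pool.Agent.R460.GS
open Pool.Agent.H373R2.T7 (lamz Vz lam_ap lamz_ap)
open Pool.Agent.Y883.T3 (lsh)
open Pool.Agent.Y614.GJ.Core (ev_log)
open Pool.Agent.R460.GH (nc_LS)
open ArithmeticFunction (vonMangoldt)

/-- the inner sum -/
lemma inner_ap {κ₁ κ₂ : ℝ} (h1 : 0 < κ₁) (h2 : κ₂ ≤ 1 / 2) (K U : ℕ) : ∃ N₀ : ℕ, ∀ N : ℕ, N₀ ≤ N → ∀ p : ℕ, p.Prime →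
    (N : ℝ) ^ κ₁ < p → (p : ℝ) ≤ (N : ℝ) ^ κ₂ → ∀ r : ℕ, 1 ≤ r → (r : ℝ) ≤ Real.log N ^ K → ∀ c y : ℕ, y ≤ N →
    |∑ k ∈ (Icc 1 (y / p)).filter (fun k => p * k ≡ c [MOD r]), vonMangoldt k -
      (if c.Coprime r then (y : ℝ) / p / (Nat.totient r : ℝ) else 0)| ≤ (N : ℝ) / (p * Real.log N ^ U) := by
  obtain ⟨N₁, hN₁⟩ := lam_ap (2 * K) (U + 1)
  obtain ⟨N₂, hN₂⟩ := Filter.eventually_atTop.1 (ev_log (U + 1) (s := 1 / 4) (by norm_num) (2 * 4 ^ (U + 1) + 16))
  obtain ⟨N₃, hN₃⟩ := Filter.eventually_atTop.1 (ev_log K (s := κ₁) h1 16)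
  refine ⟨(N₁ + 2) ^ 4 + N₂ + N₃ + 1, fun N hN p hp hp1 hp2 r hr1 hrK c y hy => ?_⟩
  obtain ⟨hL, hLU⟩ := hN₂ N (by omega)
  obtain ⟨-, hLK⟩ := hN₃ N (by omega)
  have hN1 : 1 ≤ N := by omega
  have hNr1 : (1 : ℝ) ≤ N := by exact_mod_cast hN1
  have hN0 : (0 : ℝ) < N := by linarith
  have hp0 : 0 < p := hp.pos
  have hp0' : (0 : ℝ) < p := by exact_mod_cast hp0
  obtain ⟨L, hLd⟩ : ∃ L, L = Real.log (N : ℝ) := ⟨_, rfl⟩
  rw [← hLd] at hL hLU hLK hrK ⊢
  have h4U : (0 : ℝ) ≤ 2 * 4 ^ (U + 1) := by positivity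
  have hL16 : 16 ≤ L := by linarith
  have hL1 : 1 ≤ L := by linarith
  have hL0 : 0 < L := by linarith
  have hhalf : (N : ℝ) ^ κ₂ ≤ (N : ℝ) ^ (1 / 2 : ℝ) := Real.rpow_le_rpow_of_exponent_le hNr1 h2
  have hNh : (N : ℝ) ^ (1 / 2 : ℝ) * (N : ℝ) ^ (1 / 2 : ℝ) = N := by
    rw [← Real.rpow_add hN0]
    norm_num
  have hNq : (N : ℝ) ^ (1 / 4 : ℝ) * (N : ℝ) ^ (1 / 4 : ℝ) = (N : ℝ) ^ (1 / 2 : ℝ) := by
    rw [← Real.rpow_add hN0]
    norm_num
  have hph : (p : ℝ) ≤ (N : ℝ) ^ (1 / 2 : ℝ) := hp2.trans hhalf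
  -- the integer part of `N / p`
  obtain ⟨M, hM⟩ : ∃ M, M = N / p := ⟨_, rfl⟩
  have hNp : (N : ℝ) ^ (1 / 2 : ℝ) ≤ N / p := by
    rw [le_div_iff₀ hp0']
    calc (N : ℝ) ^ (1 / 2 : ℝ) * p ≤ (N : ℝ) ^ (1 / 2 : ℝ) * (N : ℝ) ^ (1 / 2 : ℝ) := by gcongr
      _ = N := hNh
  have hq1 : (N₁ : ℝ) + 2 ≤ (N : ℝ) ^ (1 / 4 : ℝ) := by
    have e : ((N₁ : ℝ) + 2) = (((N₁ : ℝ) + 2) ^ (4 : ℕ)) ^ (1 / 4 : ℝ) := by
      rw [← Real.rpow_natCast, ← Real.rpow_mul (by positivity)]
      norm_num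
    rw [e]
    apply Real.rpow_le_rpow (by positivity) _ (by norm_num)
    have : (N₁ + 2) ^ 4 ≤ N := by omega
    exact_mod_cast this
  have hMr : (N : ℝ) / p < M + 1 := by
    rw [hM, div_lt_iff₀ hp0']
    have := Nat.lt_div_mul_add hp0 (a := N)
    have h' : N < (N / p + 1) * p := by linarith
    exact_mod_cast h'
  have hMle : (M : ℝ) ≤ N / p := by
    rw [hM]
    exact Nat.cast_div_le
  have hM4 : (N : ℝ) ^ (1 / 4 : ℝ) ≤ M := by
    have h5 : (2 : ℝ) ≤ (N : ℝ) ^ (1 / 4 : ℝ) := le_trans (by linarith [Nat.cast_nonneg (α := ℝ) N₁]) hq1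
    nlinarith
  have hMN1 : N₁ ≤ M := by
    have : (N₁ : ℝ) ≤ M := by linarith
    exact_mod_cast this
  have hM0 : (0 : ℝ) < M := lt_of_lt_of_le (by positivity) hM4
  have hlogM : L ≤ 4 * Real.log M := by
    have h5 := Real.log_le_log (by positivity) hM4
    rw [Real.log_rpow hN0, ← hLd] at h5
    linarith
  have hlM0 : 0 < Real.log M := by linarith
  -- the modulus
  have hrM : (r : ℝ) ≤ Real.log M ^ (2 * K) := by
    calc (r : ℝ) ≤ L ^ K := hrK
      _ ≤ (4 * Real.log M) ^ K := by gcongr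
      _ ≤ (Real.log M * Real.log M) ^ K := by
          gcongr
          linarith
      _ = Real.log M ^ (2 * K) := by
          rw [← pow_two, ← pow_mul]
  have : NeZero r := ⟨by omega⟩
  have hcop : p.Coprime r := by
    rw [Nat.Prime.coprime_iff_not_dvd hp]
    intro h
    have h5 := Nat.le_of_dvd (by omega) h
    have h6 : (p : ℝ) ≤ r := by exact_mod_cast h5
    linarith
  obtain ⟨c', hc'⟩ : ∃ c' : ℕ, p * c' ≡ c [MOD r] := by
    refine ⟨((c : ZMod r) * (p : ZMod r)⁻¹).val, ?_⟩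
    rw [← ZMod.natCast_eq_natCast_iff, Nat.cast_mul, ZMod.natCast_val, ZMod.cast_id]
    have := ZMod.coe_mul_inv_eq_one p hcop
    calc (p : ZMod r) * (c * (p : ZMod r)⁻¹) = c * (p * (p : ZMod r)⁻¹) := by ring
      _ = c := by rw [this, mul_one]
  have hcc : c'.Coprime r ↔ c.Coprime r := by
    have h5 : Nat.gcd (p * c') r = Nat.gcd c r := hc'.gcd_eq
    constructor
    · intro h6
      rw [Nat.coprime_iff_gcd_eq_one, ← h5]
      exact Nat.Coprime.mul_left hcop h6
    · intro h6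
      rw [Nat.coprime_iff_gcd_eq_one, ← h5] at h6
      exact Nat.Coprime.coprime_mul_left h6
  have hfil : (Icc 1 (y / p)).filter (fun k => p * k ≡ c [MOD r]) = (Icc 1 (y / p)).filter (fun k => k ≡ c' [MOD r]) := by
    refine filter_congr fun k _ => ?_
    constructor
    · intro h5
      exact Nat.ModEq.cancel_left_of_coprime (Nat.coprime_comm.1 hcop) (h5.trans hc'.symm)
    · intro h5
      exact (h5.mul_left p).trans hc'
  rw [hfil]
  have hyM : y / p ≤ M := by
    rw [hM]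
    exact Nat.div_le_div_right hy
  have hmain := hN₁ M hMN1 r hr1 hrM c' (y / p) hyM
  have hE1 : (M : ℝ) / Real.log M ^ (U + 1) ≤ N / (p * L ^ U) / 2 := by
    have h5 : L ^ (U + 1) ≤ 4 ^ (U + 1) * Real.log M ^ (U + 1) := by
      rw [← mul_pow]
      gcongr
    calc (M : ℝ) / Real.log M ^ (U + 1) ≤ M / (L ^ (U + 1) / 4 ^ (U + 1)) := by
          apply div_le_div_of_nonneg_left hM0.le (by positivity)
          rw [div_le_iff₀ (by positivity)]
          linarith
      _ ≤ (N / p) / (L ^ (U + 1) / 4 ^ (U + 1)) := by gcongr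
      _ = (N / (p * L ^ U) / 2) * (2 * 4 ^ (U + 1) / L) := by
          rw [pow_succ L]
          field_simp
      _ ≤ (N / (p * L ^ U) / 2) * 1 := by
          gcongr
          rw [div_le_one hL0]
          linarith
      _ = _ := mul_one _
  have hE2 : |((if c'.Coprime r then ((y / p : ℕ) : ℝ) / (Nat.totient r : ℝ) else 0) -
      (if c.Coprime r then (y : ℝ) / p / (Nat.totient r : ℝ) else 0))| ≤ N / (p * L ^ U) / 2 := by
    have h6 : (1 : ℝ) ≤ N / (p * L ^ U) / 2 := by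
      rw [div_div, le_div_iff₀ (by positivity), one_mul]
      have h7 : L ^ U * 2 ≤ L ^ (U + 1) := by
        rw [pow_succ]
        gcongr
        linarith
      have h8 : (N : ℝ) ^ (1 / 4 : ℝ) ≤ (N : ℝ) ^ (1 / 2 : ℝ) := Real.rpow_le_rpow_of_exponent_le hNr1 (by norm_num)
      calc (p : ℝ) * L ^ U * 2 = p * (L ^ U * 2) := by ring
        _ ≤ (N : ℝ) ^ (1 / 2 : ℝ) * (N : ℝ) ^ (1 / 2 : ℝ) := by
            gcongr
            exact h7.trans (hLU.trans h8)
        _ = N := hNh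
    refine le_trans ?_ h6
    by_cases h7 : c.Coprime r
    · rw [if_pos h7, if_pos (hcc.2 h7), ← sub_div, abs_div, Nat.abs_cast]
      have h8 : (1 : ℝ) ≤ (Nat.totient r : ℝ) := by
        exact_mod_cast Nat.totient_pos.2 (by omega)
      rw [div_le_one (by linarith)]
      refine le_trans ?_ h8
      have h9 : ((y / p : ℕ) : ℝ) ≤ y / p := Nat.cast_div_le
      have h10 : (y : ℝ) / p < ((y / p : ℕ) : ℝ) + 1 := by
        rw [div_lt_iff₀ hp0']
        have := Nat.lt_div_mul_add hp0 (a := y)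
        have h' : y < (y / p + 1) * p := by linarith
        exact_mod_cast h'
      rw [abs_le]
      constructor <;> linarith
    · rw [if_neg h7, if_neg (fun h => h7 (hcc.1 h)), sub_zero, abs_zero]
      norm_num
  calc _ = |(∑ k ∈ (Icc 1 (y / p)).filter (fun k => k ≡ c' [MOD r]), vonMangoldt k -
        (if c'.Coprime r then ((y / p : ℕ) : ℝ) / (Nat.totient r : ℝ) else 0)) +
        ((if c'.Coprime r then ((y / p : ℕ) : ℝ) / (Nat.totient r : ℝ) else 0) -
      (if c.Coprime r then (y : ℝ) / p / (Nat.totient r : ℝ) else 0))| := by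
        congr 1
        ring
    _ ≤ N / (p * L ^ U) / 2 + N / (p * L ^ U) / 2 := (abs_add_le _ _).trans (add_le_add (hmain.trans hE1) hE2)
    _ = _ := by ring

lemma e2_swap (α : ℕ → ℝ) (c r N y : ℕ) (hy : y ≤ N) : ∑ n ∈ (Icc 1 y).filter (fun n => n ≡ c [MOD r]), e2 α n =
    ∑ p ∈ Icc 1 N, α p * ∑ k ∈ (Icc 1 (y / p)).filter (fun k => p * k ≡ c [MOD r]), vonMangoldt k := by
  have h := Pool.Agent.R460.GS.dirV (V := ℝ) y (fun d m => if d * m ≡ c [MOD r] then α d * vonMangoldt m else 0)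
  rw [sum_filter]
  have e : ∑ n ∈ Icc 1 y, (if n ≡ c [MOD r] then e2 α n else 0) =
      ∑ n ∈ Icc 1 y, ∑ d ∈ n.divisors, (if d * (n / d) ≡ c [MOD r] then α d * vonMangoldt (n / d) else 0) := by
    refine sum_congr rfl fun n _ => ?_
    unfold e2
    split_ifs with h1
    · refine sum_congr rfl fun d hd => ?_
      rw [Nat.mem_divisors] at hd
      rw [Nat.mul_div_cancel' hd.1, if_pos h1]
    · symm
      refine sum_eq_zero fun d hd => ?_
      rw [Nat.mem_divisors] at hd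
      rw [Nat.mul_div_cancel' hd.1, if_neg h1]
  rw [e, h]
  have h2 : ∀ d ∈ Icc 1 N, d ∉ Icc 1 y →
      α d * ∑ k ∈ (Icc 1 (y / d)).filter (fun k => d * k ≡ c [MOD r]), vonMangoldt k = 0 := by
    intro d hd hd'
    rw [mem_Icc] at hd hd'
    have : y / d = 0 := Nat.div_eq_of_lt (by omega)
    rw [this]
    simp
  rw [← sum_subset (Icc_subset_Icc le_rfl hy) h2]
  refine sum_congr rfl fun d _ => ?_
  rw [mul_sum, sum_filter]

/-- `e2` in the arithmetic progressions with a small difference -/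
theorem apE {κ₁ κ₂ : ℝ} (h1 : 0 < κ₁) (h12 : κ₁ ≤ κ₂) (h2 : κ₂ ≤ 1 / 2) (K U : ℕ) : ∃ N₀ : ℕ, ∀ N : ℕ, N₀ ≤ N →
    ∀ α : ℕ → ℝ, Al N κ₁ κ₂ α → ∀ r : ℕ, 1 ≤ r → (r : ℝ) ≤ Real.log N ^ K → ∀ c y : ℕ, y ≤ N →
    |∑ n ∈ (Icc 1 y).filter (fun n => n ≡ c [MOD r]), e2 α n -
      WA N α * (if c.Coprime r then (y : ℝ) / (Nat.totient r : ℝ) else 0)| ≤ (N : ℝ) / Real.log N ^ U := by
  obtain ⟨N₁, hN₁⟩ := inner_ap (κ₁ := κ₁) (κ₂ := κ₂) h1 h2 K (U + 1)
  obtain ⟨b, N₂, hb0, hN₂⟩ := sup_W (κ₁ := κ₁) (κ₂ := κ₂) h1 h12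
  obtain ⟨N₃, hN₃⟩ := Filter.eventually_atTop.1 (ev_log 1 (s := 1) (by norm_num) (b + 1))
  refine ⟨N₁ + N₂ + N₃ + 1, fun N hN α hα r hr1 hrK c y hy => ?_⟩
  obtain ⟨hL, -⟩ := hN₃ N (by omega)
  obtain ⟨hs, -⟩ := hN₂ N (by omega) α hα
  have hL0 : 0 < Real.log N := by linarith
  rw [e2_swap α c r N y hy]
  have e : WA N α * (if c.Coprime r then (y : ℝ) / (Nat.totient r : ℝ) else 0) =
      ∑ p ∈ Icc 1 N, α p * (if c.Coprime r then (y : ℝ) / p / (Nat.totient r : ℝ) else 0) := by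
    unfold WA
    rw [sum_mul]
    refine sum_congr rfl fun p _ => ?_
    split_ifs
    · ring
    · simp
  rw [e, ← sum_sub_distrib]
  calc |∑ p ∈ Icc 1 N, (α p * ∑ k ∈ (Icc 1 (y / p)).filter (fun k => p * k ≡ c [MOD r]), vonMangoldt k -
        α p * (if c.Coprime r then (y : ℝ) / p / (Nat.totient r : ℝ) else 0))| ≤
      ∑ p ∈ Icc 1 N, |α p| / p * (N / Real.log N ^ (U + 1)) := by
        refine (abs_sum_le_sum_abs _ _).trans (sum_le_sum fun p hp => ?_)
        rw [← mul_sub, abs_mul]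
        by_cases h3 : α p = 0
        · rw [h3]
          simp
        · obtain ⟨e1, e2, e3⟩ := hα.pr p h3
          have h4 := hN₁ N (by omega) p e1 e2 e3 r hr1 hrK c y hy
          calc _ ≤ |α p| * ((N : ℝ) / (p * Real.log N ^ (U + 1))) := by gcongr
            _ = _ := by
                rw [← div_div]
                ring
    _ = (∑ p ∈ Icc 1 N, |α p| / p) * (N / Real.log N ^ (U + 1)) := by rw [sum_mul]
    _ ≤ Real.log N * (N / Real.log N ^ (U + 1)) := by
        gcongr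
        linarith
    _ = _ := by
        rw [pow_succ]
        field_simp

lemma apG {N K U z r₀ : ℕ} {b : ℝ} {α : ℕ → ℝ} (hL : b + 2 ≤ Real.log N) (hb : 0 ≤ b) (hw : |WA N α| ≤ b)
    (hlam : ∀ q : ℕ, 1 ≤ q → (q : ℝ) ≤ Real.log N ^ K → ∀ c y : ℕ, y ≤ N →
      |∑ n ∈ (Icc 1 y).filter (fun n => n ≡ c [MOD q]), lamz z n -
        (if c.Coprime q then (y : ℝ) / (Nat.totient q : ℝ) else 0)| ≤ N / Real.log N ^ (U + 3))
    (hsum : ∑ n ∈ Icc 1 N, |lamz z n - lsh z r₀ n| ≤ N / Real.log N ^ (U + 3))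
    (hap : ∀ r : ℕ, 1 ≤ r → (r : ℝ) ≤ Real.log N ^ K → ∀ c y : ℕ, y ≤ N →
      |∑ n ∈ (Icc 1 y).filter (fun n => n ≡ c [MOD r]), e2 α n -
        WA N α * (if c.Coprime r then (y : ℝ) / (Nat.totient r : ℝ) else 0)| ≤ N / Real.log N ^ (U + 3)) :
    ApAt N K U (G2 N α z r₀) := by
  intro r hr1 hrK c y hy
  have hL0 : 0 < Real.log N := by linarith
  have h1 := hlam r hr1 hrK c y hy
  have h2 := hap r hr1 hrK c y hy
  have h3 : |∑ n ∈ (Icc 1 y).filter (fun n => n ≡ c [MOD r]), (lamz z n - lsh z r₀ n)| ≤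
      N / Real.log N ^ (U + 3) := by
    refine (abs_sum_le_sum_abs _ _).trans (le_trans ?_ hsum)
    refine sum_le_sum_of_subset_of_nonneg (fun n hn => ?_) fun _ _ _ => abs_nonneg _
    rw [mem_filter] at hn
    exact Icc_subset_Icc le_rfl hy hn.1
  have e1 : ∑ n ∈ (Icc 1 y).filter (fun n => n ≡ c [MOD r]), G2 N α z r₀ n =
      ((∑ n ∈ (Icc 1 y).filter (fun n => n ≡ c [MOD r]), (e2 α n - WA N α * lsh z r₀ n) : ℝ) : ℂ) := by
    rw [Complex.ofReal_sum]
    refine sum_congr rfl fun n _ => ?_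
    rfl
  rw [e1, Complex.norm_real, Real.norm_eq_abs]
  obtain ⟨M, hM⟩ : ∃ M : ℝ, M = (if c.Coprime r then (y : ℝ) / (Nat.totient r : ℝ) else 0) := ⟨_, rfl⟩
  rw [← hM] at h1 h2
  have e2 : ∑ n ∈ (Icc 1 y).filter (fun n => n ≡ c [MOD r]), (e2 α n - WA N α * lsh z r₀ n) =
      (∑ n ∈ (Icc 1 y).filter (fun n => n ≡ c [MOD r]), e2 α n - WA N α * M) +
      WA N α * ((∑ n ∈ (Icc 1 y).filter (fun n => n ≡ c [MOD r]), (lamz z n - lsh z r₀ n)) -
      (∑ n ∈ (Icc 1 y).filter (fun n => n ≡ c [MOD r]), lamz z n - M)) := by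
    rw [sum_sub_distrib, sum_sub_distrib, ← mul_sum]
    ring
  rw [e2]
  have hX : 0 ≤ (N : ℝ) / Real.log N ^ (U + 3) := by positivity
  calc _ ≤ N / Real.log N ^ (U + 3) + b * (N / Real.log N ^ (U + 3) + N / Real.log N ^ (U + 3)) := by
        refine (abs_add_le _ _).trans (add_le_add h2 ?_)
        rw [abs_mul]
        gcongr
        exact (abs_sub _ _).trans (add_le_add h3 h1)
    _ = (1 + 2 * b) * (N / Real.log N ^ (U + 3)) := by ring
    _ ≤ Real.log N ^ 3 * (N / Real.log N ^ (U + 3)) := by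
        apply mul_le_mul_of_nonneg_right _ hX
        have h5 : (2 : ℝ) ≤ Real.log N := by linarith
        have h6 : 1 + 2 * b ≤ 2 * Real.log N := by linarith
        calc 1 + 2 * b ≤ 2 * Real.log N := h6
          _ ≤ Real.log N * Real.log N := by gcongr
          _ ≤ Real.log N * Real.log N * Real.log N := by
              have : 0 ≤ Real.log N * Real.log N := by positivity
              nlinarith
          _ = _ := by ring
    _ = _ := by
        rw [pow_add]
        field_simp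

/-- `e2` on the integers which are not prime to `q` -/
theorem ncE {κ₁ κ₂ : ℝ} (h1 : 0 < κ₁) (h2 : κ₂ ≤ 1 / 2) (U : ℕ) : ∃ N₀ : ℕ, ∀ N : ℕ, N₀ ≤ N →
    ∀ α : ℕ → ℝ, Al N κ₁ κ₂ α → ∀ q : ℕ, 1 ≤ q → q ≤ N →
    ∑ n ∈ (Icc 1 N).filter (fun n => ¬ n.Coprime q), |e2 α n| ≤ (N : ℝ) / Real.log N ^ U := by
  obtain ⟨N₁, hN₁⟩ := Filter.eventually_atTop.1 (ev_log (U + 4) (s := 1 / 2) (by norm_num) 12)
  obtain ⟨N₂, hN₂⟩ := Filter.eventually_atTop.1 (ev_log (U + 4) (s := κ₁) h1 12)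
  refine ⟨N₁ + N₂ + 1, fun N hN α hα q hq1 hqN => ?_⟩
  obtain ⟨hL, hL1⟩ := hN₁ N (by omega)
  obtain ⟨-, hL2⟩ := hN₂ N (by omega)
  have hN1 : 1 ≤ N := by omega
  have hNr1 : (1 : ℝ) ≤ N := by exact_mod_cast hN1
  have hN0 : (0 : ℝ) < N := by linarith
  have hl0 : 0 < Real.log N := by linarith
  have hNh : (N : ℝ) ^ (1 / 2 : ℝ) * (N : ℝ) ^ (1 / 2 : ℝ) = N := by
    rw [← Real.rpow_add hN0]
    norm_num
  have hlog : (Nat.log 2 N : ℝ) ≤ 2 * Real.log N := by
    have h3 : (Nat.log 2 N : ℝ) ≤ Real.logb 2 N := by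
      have := Real.natLog_le_logb N 2
      exact_mod_cast this
    refine h3.trans ?_
    rw [Real.logb, div_le_iff₀ (Real.log_pos (by norm_num))]
    have : (1 / 2 : ℝ) ≤ Real.log 2 := by
      have := Real.log_two_gt_d9
      linarith
    nlinarith
  -- the two parts
  have hA : ∑ n ∈ (Icc 1 N).filter (fun n => ¬ n.Coprime q), |e2 α n| ≤
      ∑ d ∈ Icc 1 N, ∑ m ∈ Icc 1 (N / d), (if ¬ (d * m).Coprime q then |α d| * vonMangoldt m else 0) := by
    have h := Pool.Agent.R460.GS.dirV (V := ℝ) N (fun d m => if ¬ (d * m).Coprime q then |α d| * vonMangoldt m else 0)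
    rw [← h, sum_filter]
    refine sum_le_sum fun n _ => ?_
    by_cases h3 : ¬ n.Coprime q
    · rw [if_pos h3]
      unfold e2
      refine (abs_sum_le_sum_abs _ _).trans (sum_le_sum fun d hd => ?_)
      rw [Nat.mem_divisors] at hd
      rw [Nat.mul_div_cancel' hd.1, if_pos h3, abs_mul, abs_of_nonneg ArithmeticFunction.vonMangoldt_nonneg]
    · rw [if_neg h3]
      refine sum_nonneg fun d _ => ?_
      have h4 : 0 ≤ |α d| * vonMangoldt (n / d) := mul_nonneg (abs_nonneg _) ArithmeticFunction.vonMangoldt_nonneg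
      split_ifs
      · exact le_rfl
      · exact h4
  have hB : ∀ d ∈ Icc 1 N, ∀ m ∈ Icc 1 (N / d), (if ¬ (d * m).Coprime q then |α d| * vonMangoldt m else 0) ≤
      (if ¬ d.Coprime q then |α d| * vonMangoldt m else 0) + (if ¬ m.Coprime q then |α d| * vonMangoldt m else 0) := by
    intro d _ m _
    have hnn : 0 ≤ |α d| * vonMangoldt m := mul_nonneg (abs_nonneg _) ArithmeticFunction.vonMangoldt_nonneg
    by_cases h3 : d.Coprime q
    · by_cases h4 : m.Coprime q
      · rw [if_neg (not_not.2 (Nat.Coprime.mul_left h3 h4)), if_neg (not_not.2 h3), if_neg (not_not.2 h4), add_zero]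
      · rw [if_neg (not_not.2 h3), if_pos h4, zero_add]
        split_ifs
        · exact hnn
        · exact le_rfl
    · rw [if_pos h3]
      have h5 : (if ¬ (d * m).Coprime q then |α d| * vonMangoldt m else 0) ≤ |α d| * vonMangoldt m := by
        split_ifs
        · exact hnn
        · exact le_rfl
      have h6 : 0 ≤ (if ¬ m.Coprime q then |α d| * vonMangoldt m else 0) := by
        split_ifs
        · exact le_rfl
        · exact hnn
      linarith
  have hC : ∑ d ∈ Icc 1 N, ∑ m ∈ Icc 1 (N / d), (if ¬ d.Coprime q then |α d| * vonMangoldt m else 0) ≤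
      2 * Real.log N * ((N : ℝ) ^ (1 - κ₁) * Real.log N) := by
    calc _ ≤ ∑ d ∈ Icc 1 N, (if d ∈ q.primeFactors then (N : ℝ) ^ (1 - κ₁) * Real.log N else 0) := by
          refine sum_le_sum fun d hd => ?_
          rw [mem_Icc] at hd
          by_cases h3 : α d = 0
          · rw [h3]
            simp only [abs_zero, zero_mul, ite_self, sum_const_zero]
            split_ifs
            · positivity
            · exact le_rfl
          · obtain ⟨e1, e2, e3⟩ := hα.pr d h3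
            by_cases h4 : d.Coprime q
            · simp only [if_neg (not_not.2 h4), sum_const_zero]
              split_ifs
              · positivity
              · exact le_rfl
            · have h5 : d ∈ q.primeFactors := by
                rw [Nat.mem_primeFactors]
                refine ⟨e1, ?_, by omega⟩
                by_contra h6
                exact h4 ((Nat.Prime.coprime_iff_not_dvd e1).2 h6)
              rw [if_pos h5]
              simp only [if_pos h4]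
              calc ∑ m ∈ Icc 1 (N / d), |α d| * vonMangoldt m ≤ ∑ m ∈ Icc 1 (N / d), Real.log N := by
                    refine sum_le_sum fun m hm => ?_
                    rw [mem_Icc] at hm
                    calc |α d| * vonMangoldt m ≤ 1 * Real.log N :=
                          mul_le_mul (hα.bd d) (lam_le_log (hm.2.trans (Nat.div_le_self _ _)) hN1)
                            ArithmeticFunction.vonMangoldt_nonneg zero_le_one
                      _ = _ := one_mul _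
                _ = ((N / d : ℕ) : ℝ) * Real.log N := by
                    rw [sum_const, nsmul_eq_mul, Nat.card_Icc, Nat.add_sub_cancel]
                _ ≤ _ := by
                    apply mul_le_mul_of_nonneg_right _ hl0.le
                    have hd0 : (0 : ℝ) < d := by exact_mod_cast e1.pos
                    calc ((N / d : ℕ) : ℝ) ≤ N / d := Nat.cast_div_le
                      _ ≤ N / (N : ℝ) ^ κ₁ := by
                          apply div_le_div_of_nonneg_left hN0.le (by positivity) e2.le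
                      _ = _ := by rw [Real.rpow_sub hN0, Real.rpow_one]
      _ = ∑ d ∈ (Icc 1 N).filter (fun d => d ∈ q.primeFactors), (N : ℝ) ^ (1 - κ₁) * Real.log N := by rw [sum_filter]
      _ = (((Icc 1 N).filter (fun d => d ∈ q.primeFactors)).card : ℝ) * ((N : ℝ) ^ (1 - κ₁) * Real.log N) := by
          rw [sum_const, nsmul_eq_mul]
      _ ≤ _ := by
          apply mul_le_mul_of_nonneg_right _ (by positivity)
          refine le_trans ?_ hlog
          have h5 : ((Icc 1 N).filter (fun d => d ∈ q.primeFactors)).card ≤ Nat.log 2 N := by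
            refine le_trans (card_le_card fun d hd => ?_) (Pool.Agent.Y918.GJ.card_pf q N hq1 hqN)
            exact (mem_filter.1 hd).2
          exact_mod_cast h5
  have hD : ∑ d ∈ Icc 1 N, ∑ m ∈ Icc 1 (N / d), (if ¬ m.Coprime q then |α d| * vonMangoldt m else 0) ≤
      (N : ℝ) ^ (1 / 2 : ℝ) * (2 * Real.log N * (3 * Real.log N * Real.log N)) := by
    have h7 : ∑ m ∈ (Icc 1 N).filter (fun m => ¬ m.Coprime q), vonMangoldt m ≤
        2 * Real.log N * (3 * Real.log N * Real.log N) := by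
      refine (Pool.Agent.Y918.GJ.lam_noncop q N hq1 hqN).trans ?_
      gcongr
      linarith
    calc _ ≤ ∑ d ∈ Icc 1 N, (if d ∈ Icc 1 ⌊(N : ℝ) ^ (1 / 2 : ℝ)⌋₊ then
          (2 * Real.log N * (3 * Real.log N * Real.log N)) else 0) := by
          refine sum_le_sum fun d hd => ?_
          by_cases h3 : α d = 0
          · rw [h3]
            simp only [abs_zero, zero_mul, ite_self, sum_const_zero]
            split_ifs
            · positivity
            · exact le_rfl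
          · obtain ⟨e1, e2, e3⟩ := hα.pr d h3
            have h5 : d ∈ Icc 1 ⌊(N : ℝ) ^ (1 / 2 : ℝ)⌋₊ := by
              rw [mem_Icc]
              exact ⟨e1.one_le, Nat.le_floor (e3.trans (Real.rpow_le_rpow_of_exponent_le hNr1 h2))⟩
            rw [if_pos h5]
            refine le_trans ?_ h7
            rw [← sum_filter]
            calc _ ≤ ∑ m ∈ (Icc 1 (N / d)).filter (fun m => ¬ m.Coprime q), vonMangoldt m := by
                  refine sum_le_sum fun m _ => ?_
                  calc |α d| * vonMangoldt m ≤ 1 * vonMangoldt m :=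
                        mul_le_mul_of_nonneg_right (hα.bd d) ArithmeticFunction.vonMangoldt_nonneg
                    _ = _ := one_mul _
              _ ≤ _ := by
                  refine sum_le_sum_of_subset_of_nonneg (filter_subset_filter _ (Icc_subset_Icc le_rfl
                    (Nat.div_le_self _ _))) fun _ _ _ => ArithmeticFunction.vonMangoldt_nonneg
      _ = ∑ d ∈ (Icc 1 N).filter (fun d => d ∈ Icc 1 ⌊(N : ℝ) ^ (1 / 2 : ℝ)⌋₊),
          (2 * Real.log N * (3 * Real.log N * Real.log N)) := by rw [sum_filter]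
      _ = (((Icc 1 N).filter (fun d => d ∈ Icc 1 ⌊(N : ℝ) ^ (1 / 2 : ℝ)⌋₊)).card : ℝ) *
          (2 * Real.log N * (3 * Real.log N * Real.log N)) := by
          rw [sum_const, nsmul_eq_mul]
      _ ≤ _ := by
          apply mul_le_mul_of_nonneg_right _ (by positivity)
          calc (((Icc 1 N).filter (fun d => d ∈ Icc 1 ⌊(N : ℝ) ^ (1 / 2 : ℝ)⌋₊)).card : ℝ) ≤
              ((Icc 1 ⌊(N : ℝ) ^ (1 / 2 : ℝ)⌋₊).card : ℝ) := by
                exact_mod_cast card_le_card fun d hd => (mem_filter.1 hd).2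
            _ = (⌊(N : ℝ) ^ (1 / 2 : ℝ)⌋₊ : ℝ) := by rw [Nat.card_Icc, Nat.add_sub_cancel]
            _ ≤ _ := Nat.floor_le (by positivity)
  refine hA.trans ?_
  calc _ ≤ ∑ d ∈ Icc 1 N, ∑ m ∈ Icc 1 (N / d), ((if ¬ d.Coprime q then |α d| * vonMangoldt m else 0) +
        (if ¬ m.Coprime q then |α d| * vonMangoldt m else 0)) :=
        sum_le_sum fun d hd => sum_le_sum fun m hm => hB d hd m hm
    _ = (∑ d ∈ Icc 1 N, ∑ m ∈ Icc 1 (N / d), (if ¬ d.Coprime q then |α d| * vonMangoldt m else 0)) +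
        ∑ d ∈ Icc 1 N, ∑ m ∈ Icc 1 (N / d), (if ¬ m.Coprime q then |α d| * vonMangoldt m else 0) := by
        rw [← sum_add_distrib]
        refine sum_congr rfl fun d _ => ?_
        rw [← sum_add_distrib]
    _ ≤ 2 * Real.log N * ((N : ℝ) ^ (1 - κ₁) * Real.log N) +
        (N : ℝ) ^ (1 / 2 : ℝ) * (2 * Real.log N * (3 * Real.log N * Real.log N)) := add_le_add hC hD
    _ ≤ N / Real.log N ^ U := by
        rw [le_div_iff₀ (by positivity)]
        have e1 : (N : ℝ) ^ (1 - κ₁) * (N : ℝ) ^ κ₁ = N := by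
          rw [← Real.rpow_add hN0]
          norm_num
        have f1 : 2 * Real.log N * ((N : ℝ) ^ (1 - κ₁) * Real.log N) * Real.log N ^ U ≤ N / 2 := by
          calc 2 * Real.log N * ((N : ℝ) ^ (1 - κ₁) * Real.log N) * Real.log N ^ U =
              (N : ℝ) ^ (1 - κ₁) * (4 * Real.log N ^ (U + 2)) / 2 := by ring
            _ ≤ (N : ℝ) ^ (1 - κ₁) * (Real.log N ^ 2 * Real.log N ^ (U + 2)) / 2 := by
                gcongr
                nlinarith
            _ = (N : ℝ) ^ (1 - κ₁) * Real.log N ^ (U + 4) / 2 := by ring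
            _ ≤ (N : ℝ) ^ (1 - κ₁) * (N : ℝ) ^ κ₁ / 2 := by gcongr
            _ = _ := by rw [e1]
        have f2 : (N : ℝ) ^ (1 / 2 : ℝ) * (2 * Real.log N * (3 * Real.log N * Real.log N)) * Real.log N ^ U ≤ N / 2 := by
          calc _ = (N : ℝ) ^ (1 / 2 : ℝ) * (12 * Real.log N ^ (U + 3)) / 2 := by ring
            _ ≤ (N : ℝ) ^ (1 / 2 : ℝ) * (Real.log N * Real.log N ^ (U + 3)) / 2 := by gcongr
            _ = (N : ℝ) ^ (1 / 2 : ℝ) * Real.log N ^ (U + 4) / 2 := by ring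
            _ ≤ (N : ℝ) ^ (1 / 2 : ℝ) * (N : ℝ) ^ (1 / 2 : ℝ) / 2 := by gcongr
            _ = _ := by rw [hNh]
        linarith

lemma ncG {N U z r : ℕ} {b : ℝ} {α : ℕ → ℝ} (hL : b + 2 ≤ Real.log N) (hb : 0 ≤ b) (hw : |WA N α| ≤ b)
    (hE : ∀ q : ℕ, 1 ≤ q → q ≤ N →
      ∑ n ∈ (Icc 1 N).filter (fun n => ¬ n.Coprime q), |e2 α n| ≤ (N : ℝ) / Real.log N ^ (U + 1))
    (hLS : NcAt N (U + 1) (LS z r)) : NcAt N U (G2 N α z r) := by
  intro q hq1 hqN
  have h1 := hE q hq1 hqN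
  have h2 := hLS q hq1 hqN
  have hl0 : 0 < Real.log N := by linarith
  calc ∑ n ∈ (Icc 1 N).filter (fun n => ¬ n.Coprime q), ‖G2 N α z r n‖ ≤
      ∑ n ∈ (Icc 1 N).filter (fun n => ¬ n.Coprime q), (|e2 α n| + b * ‖LS z r n‖) := by
        refine sum_le_sum fun n _ => ?_
        unfold G2 g2 LS
        rw [Complex.norm_real, Complex.norm_real, Real.norm_eq_abs, Real.norm_eq_abs]
        refine (abs_sub _ _).trans ?_
        rw [abs_mul]
        gcongr
    _ = ∑ n ∈ (Icc 1 N).filter (fun n => ¬ n.Coprime q), |e2 α n| +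
        b * ∑ n ∈ (Icc 1 N).filter (fun n => ¬ n.Coprime q), ‖LS z r n‖ := by
        rw [sum_add_distrib, mul_sum]
    _ ≤ (N : ℝ) / Real.log N ^ (U + 1) + b * ((N : ℝ) / Real.log N ^ (U + 1)) := by gcongr
    _ = (1 + b) * ((N : ℝ) / Real.log N ^ (U + 1)) := by ring
    _ ≤ Real.log N * ((N : ℝ) / Real.log N ^ (U + 1)) := by
        gcongr
        linarith
    _ = _ := by
        rw [pow_succ]
        field_simp

end Pool.Agent.H579.E
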