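import Pool.Agent.H579.E.MainS
import Pool.Agent.H579.D.AsmF
import Pool.Graph.R_pool_sql_team_seeded_47a924f7.T6.H3.FF.Core4

set_option autoImplicit false

/-! Products of two primes: all inputs. -/

namespace Pool.Agent.H579.E

open Pool.Agent.Y883.GJ Pool.Agent.R460.GS
open Pool.Agent.T6.H3.FF (core4)
open Pool.Agent.H579.Dk (core4P)

theorem errS_all {κ₁ κ₂ ρ : ℝ} (h0 : 0 < κ₁) (h01 : κ₁ ≤ κ₂) (h1 : κ₂ < ρ) (h2 : ρ ≤ 1 / 5) : ErrS κ₁ κ₂ ρ :=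
  errS (core4 Pool.Agent.Y708.GJ.lift Pool.Agent.Y872.GJ.pars Pool.Agent.Y297.GJ.orth Pool.Agent.Y812.GJ.nonU)
    Pool.Agent.Y235.GJ.vau Pool.Agent.Y662.GJ.jac Pool.Agent.Y812.GJ.l2 (tiMaj2 Pool.Agent.Y812.GJ.l2)
    Pool.Agent.Y412.GJ.tiMin Pool.Agent.Y812.GJ.lsh_le h0 h01 h1 h2

theorem errD_all {κ₁ κ₂ ρ : ℝ} (h0 : 0 < κ₁) (h01 : κ₁ ≤ κ₂) (h1 : κ₂ < ρ) (h2 : ρ ≤ 1 / 5) : ErrD κ₁ κ₂ ρ :=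
  errD (core4P Pool.Agent.Y697.GJ.liftC Pool.Agent.Y708.GJ.lift Pool.Agent.Y697.GJ.parsC Pool.Agent.Y872.GJ.pars
      Pool.Agent.Y297.GJ.orth Pool.Agent.Y812.GJ.nonU)
    Pool.Agent.Y235.GJ.vau Pool.Agent.Y662.GJ.jac Pool.Agent.Y812.GJ.l2 (tiMaj2 Pool.Agent.Y812.GJ.l2)
    Pool.Agent.Y412.GJ.tiMin Pool.Agent.Y812.GJ.lsh_le h0 h01 h1 h2

open Finset Pool.Agent.H560R3.GB in
/-- SUMS -/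
theorem sums {κ₁ κ₂ ρ : ℝ} (h0 : 0 < κ₁) (h01 : κ₁ ≤ κ₂) (h1 : κ₂ < ρ) (h2 : ρ ≤ 1 / 5) (A B T : ℕ) :
    ∃ N₀ : ℕ, ∀ N : ℕ, N₀ ≤ N → ∀ α : ℕ → ℝ, Al N κ₁ κ₂ α → ∀ q : ℕ, 1 ≤ q →
    (q : ℝ) ≤ (N : ℝ) ^ (1 - ρ) → ∀ a : ℤ, (Int.gcd a q : ℝ) ≤ Real.log N ^ T →
    (((Icc 1 N).filter (fun n : ℕ => 2 ∣ n ∧ (n : ℤ) ≡ a [ZMOD q] ∧
      N / Real.log N ^ B < |rep N α n - sing n * n * WA N α|)).card : ℝ) ≤ N / (q * Real.log N ^ A) :=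
  mainS h0 h01 (by linarith) (errS_all h0 h01 h1 h2) A B T

end Pool.Agent.H579.E
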