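import Pool.Agent.H579.E.ShlA

set_option autoImplicit false

/-! Correlations of the primes with shifted characters, moduli up to `N ^ (1 - 4 κ)`
(adapted from the module `T6/H3/FF/ShlB` of the library). -/

namespace Pool.Agent.H579.E

open Finset
open Pool.Agent.H807R2.Dav (ee norm_ee)
open Pool.Agent.Y883.GJ
open Pool.Agent.R461.GS (ff ff_norm typeI)
open Pool.Agent.R460.GS (ShAt)
open Pool.Agent.Y183.GJ (ee_sub)

/-- the final numerical part -/
lemma fin_numk {N L U q Q s κ : ℝ} {B C K2 : ℕ} (hκ : 0 < κ) (hκ1 : κ ≤ 1 / 20) (hL : 1 ≤ L) (hL2 : 10000 ≤ L) (hN : 1 ≤ N)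
    (hU0 : 0 ≤ U) (hU : U ≤ N ^ κ) (hq0 : 0 ≤ q) (hq : q ≤ N ^ (1 - 4 * κ)) (hK2 : K2 = B + C + 6)
    (hs0 : 0 ≤ s) (hs : s ≤ (L ^ K2)⁻¹) (hQ : Q = (N * (2 * L)) * (2 * L * s) + U * U * q)
    (hbig : 10000 * L ^ (B + C + 4) ≤ N ^ (2 * κ)) :
    U * L + 3 * (2 * L) * (Q * (8 * L ^ C)) ≤ N / (2 * L ^ (B + 1)) := by
  have hL0 : 0 < L := by linarith
  have hN0 : 0 < N := by linarith
  have hUU : U * U * q ≤ N ^ (1 - 2 * κ) := by
    calc U * U * q ≤ N ^ κ * N ^ κ * N ^ (1 - 4 * κ) := by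
          apply mul_le_mul _ hq hq0 (by positivity)
          exact mul_le_mul hU hU hU0 (by positivity)
      _ = N ^ (1 - 2 * κ) := by
          rw [← Real.rpow_add hN0, ← Real.rpow_add hN0]
          congr 1
          ring
  have e0 : N ^ (1 - 2 * κ) * N ^ (2 * κ) = N := by
    rw [← Real.rpow_add hN0]
    norm_num
  have e1 : N ^ (1 - 2 * κ) * (10000 * L ^ (B + C + 4)) ≤ N := by
    calc _ ≤ N ^ (1 - 2 * κ) * N ^ (2 * κ) := mul_le_mul_of_nonneg_left hbig (by positivity)
      _ = N := e0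
  have e2 : U ≤ N ^ (1 - 2 * κ) := hU.trans (Real.rpow_le_rpow_of_exponent_le hN (by linarith))
  have hC1 : 1 ≤ L ^ C := one_le_pow₀ hL
  have hQ1 : Q ≤ 4 * L ^ 2 * N * (L ^ K2)⁻¹ + N ^ (1 - 2 * κ) := by
    rw [hQ]
    apply add_le_add _ hUU
    calc N * (2 * L) * (2 * L * s) = 4 * L ^ 2 * N * s := by ring
      _ ≤ 4 * L ^ 2 * N * (L ^ K2)⁻¹ := mul_le_mul_of_nonneg_left hs (by positivity)
  rw [le_div_iff₀ (by positivity)]
  have e3 : (U * L + 3 * (2 * L) * (Q * (8 * L ^ C))) * (2 * L ^ (B + 1)) ≤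
      (N ^ (1 - 2 * κ) * L + 3 * (2 * L) * ((4 * L ^ 2 * N * (L ^ K2)⁻¹ + N ^ (1 - 2 * κ)) * (8 * L ^ C))) * (2 * L ^ (B + 1)) := by
    apply mul_le_mul_of_nonneg_right _ (by positivity)
    apply add_le_add
    · exact mul_le_mul_of_nonneg_right e2 hL0.le
    · apply mul_le_mul_of_nonneg_left _ (by positivity)
      exact mul_le_mul_of_nonneg_right hQ1 (by positivity)
  refine e3.trans ?_
  have e4 : (N ^ (1 - 2 * κ) * L + 3 * (2 * L) * ((4 * L ^ 2 * N * (L ^ K2)⁻¹ + N ^ (1 - 2 * κ)) * (8 * L ^ C))) * (2 * L ^ (B + 1)) =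
      384 * (L ^ (B + C + 4) * (L ^ K2)⁻¹) * N + N ^ (1 - 2 * κ) * (2 * L ^ (B + 2) + 96 * L ^ (B + C + 2)) := by
    ring
  rw [e4]
  have e5 : L ^ (B + C + 4) * (L ^ K2)⁻¹ = (L ^ 2)⁻¹ := by
    rw [hK2]
    have : L ^ (B + C + 6) = L ^ (B + C + 4) * L ^ 2 := by ring
    rw [this]
    field_simp
  have e6 : 384 * (L ^ 2)⁻¹ ≤ 1 / 2 := by
    rw [← div_eq_mul_inv, div_le_iff₀ (by positivity)]
    nlinarith
  have e7 : 2 * L ^ (B + 2) + 96 * L ^ (B + C + 2) ≤ 5000 * L ^ (B + C + 4) := by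
    have f1 : L ^ (B + 2) ≤ L ^ (B + C + 4) := pow_le_pow_right₀ hL (by omega)
    have f2 : L ^ (B + C + 2) ≤ L ^ (B + C + 4) := pow_le_pow_right₀ hL (by omega)
    have f3 : 0 < L ^ (B + C + 4) := by positivity
    linarith
  rw [e5]
  have e8 : N ^ (1 - 2 * κ) * (2 * L ^ (B + 2) + 96 * L ^ (B + C + 2)) ≤ N / 2 := by
    calc _ ≤ N ^ (1 - 2 * κ) * (5000 * L ^ (B + C + 4)) := mul_le_mul_of_nonneg_left e7 (by positivity)
      _ = N ^ (1 - 2 * κ) * (10000 * L ^ (B + C + 4)) / 2 := by ring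
      _ ≤ N / 2 := by linarith
  nlinarith

/-- correlations of the primes with shifted characters -/
theorem shlk (hV : VauStm) (hJ : JacStm) (hL2 : L2Stm) (B C T : ℕ) {κ : ℝ} (hκ : 0 < κ) (hκ1 : κ ≤ 1 / 20) :
    ∃ K N₀ : ℕ, ∀ N : ℕ, N₀ ≤ N → ShAt N (-(3 / 10) + 4 * κ) B C T K LA := by
  obtain ⟨K1, n1, hII⟩ := typeIIk hJ hL2 (B + 1) C T hκ
  obtain ⟨K2, hK2⟩ : ∃ K2 : ℕ, K2 = B + C + 6 := ⟨_, rfl⟩
  obtain ⟨n2, hn2⟩ := Pool.Agent.H373R2.T7.ev_L' 10000
  obtain ⟨n3, hn3⟩ := Pool.Agent.Y883.T3.ev_log_rpow (B + C + 4) 10000 (2 * κ) (by positivity)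
  refine ⟨K1 + (T + 2 * K2), max (max n1 n2) (max n3 3), fun N hN q _ hq χ hχ α hα η hη y hy => ?_⟩
  have hNn1 : n1 ≤ N := le_trans (le_trans (le_max_left _ _) (le_max_left _ _)) hN
  have hNn2 : n2 ≤ N := le_trans (le_trans (le_max_right _ _) (le_max_left _ _)) hN
  have hNn3 : n3 ≤ N := le_trans (le_trans (le_max_left _ _) (le_max_right _ _)) hN
  have hN3 : 3 ≤ N := le_trans (le_trans (le_max_right _ _) (le_max_right _ _)) hN
  have hLb := hn2 N hNn2
  have hbig := hn3 N hNn3
  have hN1 : (1 : ℝ) ≤ N := by exact_mod_cast (by omega : 1 ≤ N)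
  have hN0 : (0 : ℝ) < N := by linarith
  have hL1 : (1 : ℝ) ≤ Real.log N := by linarith
  have hL0 : (0 : ℝ) < Real.log N := by linarith
  have hq0 : 0 < q := Nat.pos_of_ne_zero (NeZero.ne q)
  have hq' : (q : ℝ) ≤ (N : ℝ) ^ (1 - 4 * κ) :=
    hq.trans (Real.rpow_le_rpow_of_exponent_le hN1 (by linarith))
  have hqN : q ≤ N := by
    have e1 : (q : ℝ) ≤ N := hq'.trans (by
      calc (N : ℝ) ^ (1 - 4 * κ) ≤ (N : ℝ) ^ (1 : ℝ) := Real.rpow_le_rpow_of_exponent_le hN1 (by linarith)
        _ = N := Real.rpow_one _)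
    exact_mod_cast e1
  have hyN : (y : ℝ) ≤ N := by exact_mod_cast hy
  -- the sum over the classes
  have hsum : ∑ l : ZMod q, cl q y LA η l * χ (α - l) =
      ∑ n ∈ Icc 1 y, LA n * ee (n * η) * χ (α - (n : ZMod q)) := by
    unfold cl
    rw [← Finset.sum_fiberwise (Icc 1 y) (fun n : ℕ => (n : ZMod q))]
    refine Finset.sum_congr rfl fun l _ => ?_
    rw [Finset.sum_mul]
    refine Finset.sum_congr rfl fun n hn => ?_
    rw [Finset.mem_filter] at hn
    rw [hn.2]
  rw [hsum]
  set U := ⌊(N : ℝ) ^ κ⌋₊ with hU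
  have hUle : (U : ℝ) ≤ (N : ℝ) ^ κ := Nat.floor_le (by positivity)
  have hU1 : 1 ≤ U := by
    rw [hU]
    apply Nat.le_floor
    simpa using Real.one_le_rpow hN1 hκ.le
  have hLAn : ∀ n : ℕ, ‖LA n‖ = ArithmeticFunction.vonMangoldt n := by
    intro n
    unfold LA
    rw [Complex.norm_real, Real.norm_of_nonneg ArithmeticFunction.vonMangoldt_nonneg]
  have hlamle : ∀ n ∈ Icc 1 N, ArithmeticFunction.vonMangoldt n ≤ Real.log N := by
    intro n hn
    rw [mem_Icc] at hn
    exact ArithmeticFunction.vonMangoldt_le_log.trans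
      (Real.log_le_log (by exact_mod_cast hn.1) (by exact_mod_cast hn.2))
  by_cases hUy : U * U ≤ y
  swap
  · -- short sums
    push Not at hUy
    have h1 : ‖∑ n ∈ Icc 1 y, LA n * ee (n * η) * χ (α - (n : ZMod q))‖ ≤ y * Real.log N := by
      refine (norm_sum_le _ _).trans ?_
      calc _ ≤ ∑ _n ∈ Icc 1 y, Real.log N := by
            refine sum_le_sum fun n hn => ?_
            rw [mem_Icc] at hn
            rw [norm_mul, norm_mul, norm_ee, mul_one, hLAn]
            have h2 := χ.norm_le_one (α - (n : ZMod q))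
            have h3 := hlamle n (mem_Icc.2 ⟨hn.1, hn.2.trans hy⟩)
            have h4 : (0 : ℝ) ≤ ArithmeticFunction.vonMangoldt n := ArithmeticFunction.vonMangoldt_nonneg
            have h5 := norm_nonneg (χ (α - (n : ZMod q)))
            nlinarith
        _ = _ := by rw [sum_const, Nat.card_Icc, nsmul_eq_mul]; simp
    refine h1.trans ?_
    rw [le_div_iff₀ (by positivity)]
    have h2 : (y : ℝ) ≤ (N : ℝ) ^ (2 * κ) := by
      calc (y : ℝ) ≤ (U : ℝ) * U := by exact_mod_cast hUy.le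
        _ ≤ (N : ℝ) ^ κ * (N : ℝ) ^ κ := mul_le_mul hUle hUle (Nat.cast_nonneg _) (by positivity)
        _ = (N : ℝ) ^ (2 * κ) := by rw [← Real.rpow_add hN0]; congr 1; ring
    have h3 : Real.log N * Real.log N ^ B ≤ (N : ℝ) ^ (2 * κ) := by
      have f1 : Real.log N * Real.log N ^ B = Real.log N ^ (B + 1) := by ring
      have f2 : Real.log N ^ (B + 1) ≤ Real.log N ^ (B + C + 4) := pow_le_pow_right₀ hL1 (by omega)
      have f3 : 0 < Real.log N ^ (B + C + 4) := by positivity
      rw [f1]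
      linarith
    calc (y : ℝ) * Real.log N * Real.log N ^ B = y * (Real.log N * Real.log N ^ B) := by ring
      _ ≤ (N : ℝ) ^ (2 * κ) * (N : ℝ) ^ (2 * κ) := mul_le_mul h2 h3 (by positivity) (by positivity)
      _ = (N : ℝ) ^ (4 * κ) := by rw [← Real.rpow_add hN0]; congr 1; ring
      _ ≤ (N : ℝ) ^ (1 : ℝ) := Real.rpow_le_rpow_of_exponent_le hN1 (by linarith)
      _ = N := Real.rpow_one _
  · -- the identity of Vaughan
    have hηN : (N : ℝ) * |η| ≤ Real.log N ^ C := by
      calc (N : ℝ) * |η| ≤ N * (Real.log N ^ C / N) := mul_le_mul_of_nonneg_left hη hN0.le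
        _ = _ := by field_simp
    have hηy : (y : ℝ) * |η| ≤ Real.log N ^ C :=
      (mul_le_mul_of_nonneg_right hyN (abs_nonneg _)).trans hηN
    set E : ℕ → ℂ := fun n => ff χ α (n : ZMod q) * ee ((n : ℝ) * η) with hE
    have hE1 : ∀ n, ‖E n‖ ≤ 1 := by
      intro n
      rw [hE]
      simp only
      rw [norm_mul, norm_ee, mul_one]
      exact ff_norm _ _ _
    obtain ⟨s, hs⟩ : ∃ s, s = √((Nat.gcd α.val q : ℝ) / χ.conductor) := ⟨_, rfl⟩
    have hs0 : 0 ≤ s := by rw [hs]; exact Real.sqrt_nonneg _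
    have hlq : Real.log q ≤ Real.log N := Real.log_le_log (by exact_mod_cast hq0) (by exact_mod_cast hqN)
    have hlq0 : 0 ≤ Real.log q := Real.log_natCast_nonneg q
    have hly : Real.log y ≤ Real.log N := by
      rcases Nat.eq_zero_or_pos y with h0 | h0
      · rw [h0]
        simp only [Nat.cast_zero, Real.log_zero]
        linarith
      · exact Real.log_le_log (by exact_mod_cast h0) (by exact_mod_cast hy)
    have hly0 : 0 ≤ Real.log y := Real.log_natCast_nonneg y
    have hχK : Real.log N ^ K1 < χ.conductor := by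
      refine lt_of_le_of_lt ?_ hχ
      exact pow_le_pow_right₀ hL1 (by omega)
    have hχ2 : Real.log N ^ (T + 2 * K2) < χ.conductor := by
      refine lt_of_le_of_lt ?_ hχ
      exact pow_le_pow_right₀ hL1 (by omega)
    have hs1 : s ≤ (Real.log N ^ K2)⁻¹ := by
      have hc0 : (0 : ℝ) < χ.conductor := lt_trans (by positivity) hχ2
      rw [hs, Real.sqrt_le_left (by positivity), div_le_iff₀ hc0]
      have hx : (Real.log N ^ K2)⁻¹ * Real.log N ^ K2 = 1 := inv_mul_cancel₀ (by positivity)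
      calc (Nat.gcd α.val q : ℝ) ≤ Real.log N ^ T := hα
        _ = ((Real.log N ^ K2)⁻¹ * Real.log N ^ K2) ^ 2 * Real.log N ^ T := by rw [hx]; ring
        _ = ((Real.log N ^ K2)⁻¹) ^ 2 * Real.log N ^ (T + 2 * K2) := by ring
        _ ≤ ((Real.log N ^ K2)⁻¹) ^ 2 * χ.conductor := mul_le_mul_of_nonneg_left hχ2.le (by positivity)
    have hVa := hV ℂ E y U (fun c => ((N : ℝ) / c * ((1 + Real.log q) * s) + q) * (1 + 7 * Real.log N ^ C)) hU1 hUy ?_
    swap
    · intro c hc y' hy'
      rw [mem_Icc] at hc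
      have hy2 : y' ≤ N / c := hy'.trans (Nat.div_le_div_right hy)
      have := typeI hJ χ α hηN c hc.1 y' hy2
      rw [← hs] at this
      exact this
    -- the bilinear sum
    have hB2 := hII N hNn1 q hq' χ hχK α hα η hη y hy (fun m => ((bt U m : ℝ) : ℂ)) (fun m => ((lv U m : ℝ) : ℂ))
      ?_ ?_ ?_ ?_
    rotate_left
    · intro m hm
      rw [Complex.norm_real, Real.norm_eq_abs]
      have h1 := Pool.Agent.Y776.GJ.bt_abs U m
      have h2 : (0 : ℝ) ≤ (m.divisors.card : ℝ) := Nat.cast_nonneg _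
      nlinarith
    · intro m hm
      rw [mem_Icc] at hm
      rw [Complex.norm_real, Real.norm_eq_abs]
      have h1 := Pool.Agent.Y776.GJ.lv_abs (U := U) hm.1 hm.2
      have h2 : (1 : ℝ) ≤ (m.divisors.card : ℝ) := by
        have : 0 < m.divisors.card := Finset.card_pos.2 ⟨1, Nat.one_mem_divisors.2 (by omega)⟩
        exact_mod_cast this
      nlinarith
    · intro m hm
      by_contra h
      push Not at h
      rw [Pool.Agent.Y776.GJ.bt_zero h] at hm
      simp at hm
    · intro m hm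
      by_contra h
      have : lv U m = 0 := by unfold lv; rw [if_neg h]
      rw [this] at hm
      simp at hm
    have hbil : ∑ b ∈ Icc 1 y, ∑ c ∈ Icc 1 (y / b), (bt U b * lv U c) • E (b * c) =
        ∑ m ∈ Icc 1 y, ∑ k ∈ Icc 1 (y / m), ((bt U m : ℝ) : ℂ) * ((lv U k : ℝ) : ℂ) *
          (ff χ α ((m * k : ℕ) : ZMod q) * ee ((m * k : ℕ) * η)) := by
      refine sum_congr rfl fun m _ => sum_congr rfl fun k _ => ?_
      rw [Complex.real_smul, Complex.ofReal_mul]
    rw [hbil] at hVa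
    -- the part which is not coprime to `q`
    have hsplit : ∑ n ∈ Icc 1 y, LA n * ee (n * η) * χ (α - (n : ZMod q)) =
        ∑ n ∈ Icc 1 y, (ArithmeticFunction.vonMangoldt n) • E n +
        ∑ n ∈ (Icc 1 y).filter (fun n : ℕ => ¬ n.Coprime q), LA n * ee (n * η) * χ (α - (n : ZMod q)) := by
      rw [sum_filter, ← sum_add_distrib]
      refine sum_congr rfl fun n _ => ?_
      rw [hE]
      simp only
      rw [Complex.real_smul]
      unfold ff LA
      by_cases h : n.Coprime q
      · rw [if_pos ((ZMod.isUnit_iff_coprime n q).2 h), if_neg (not_not.2 h)]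
        ring
      · rw [if_neg (fun h2 => h ((ZMod.isUnit_iff_coprime n q).1 h2)), if_pos h]
        ring
    have hnc : ‖∑ n ∈ (Icc 1 y).filter (fun n : ℕ => ¬ n.Coprime q), LA n * ee (n * η) * χ (α - (n : ZMod q))‖ ≤
        6 * Real.log N ^ 3 := by
      refine (norm_sum_le _ _).trans ?_
      calc _ ≤ ∑ n ∈ (Icc 1 y).filter (fun n : ℕ => ¬ n.Coprime q), ArithmeticFunction.vonMangoldt n := by
            refine sum_le_sum fun n _ => ?_
            rw [norm_mul, norm_mul, norm_ee, mul_one, hLAn]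
            have h2 := χ.norm_le_one (α - (n : ZMod q))
            have h4 : (0 : ℝ) ≤ ArithmeticFunction.vonMangoldt n := ArithmeticFunction.vonMangoldt_nonneg
            nlinarith
        _ ≤ ∑ n ∈ (Icc 1 N).filter (fun n : ℕ => ¬ n.Coprime q), ArithmeticFunction.vonMangoldt n := by
            apply sum_le_sum_of_subset_of_nonneg
            · exact filter_subset_filter _ (Icc_subset_Icc_right hy)
            · intro n _ _
              exact ArithmeticFunction.vonMangoldt_nonneg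
        _ ≤ (Nat.log 2 N : ℝ) * ((Nat.log 2 N + 1 : ℝ) * Real.log N) := Pool.Agent.Y918.GJ.lam_noncop q N hq0 hqN
        _ ≤ (2 * Real.log N) * ((3 * Real.log N) * Real.log N) := by
            have h5 : (Nat.log 2 N : ℝ) ≤ 2 * Real.log N := by
              have h6 : 2 ^ Nat.log 2 N ≤ N := Nat.pow_log_le_self 2 (by omega)
              have h7 : (2 : ℝ) ^ Nat.log 2 N ≤ N := by exact_mod_cast h6
              have h8 := Real.log_le_log (by positivity) h7
              rw [Real.log_pow] at h8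
              have h9 := Real.log_two_gt_d9
              have h10 : (0 : ℝ) ≤ (Nat.log 2 N : ℝ) := Nat.cast_nonneg _
              nlinarith
            have h11 : (0 : ℝ) ≤ (Nat.log 2 N : ℝ) := Nat.cast_nonneg _
            apply mul_le_mul h5 _ (by positivity) (by positivity)
            apply mul_le_mul_of_nonneg_right _ hL0.le
            linarith
        _ = 6 * Real.log N ^ 3 := by ring
    -- the error terms
    have hY : ∑ n ∈ Icc 1 U, ArithmeticFunction.vonMangoldt n * ‖E n‖ +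
        3 * (1 + Real.log y) * ∑ c ∈ Icc 1 (U * U), ((N : ℝ) / c * ((1 + Real.log q) * s) + q) * (1 + 7 * Real.log N ^ C) ≤
        N / (2 * Real.log N ^ (B + 1)) := by
      have hUN : U ≤ N := by
        have : (U : ℝ) ≤ N := hUle.trans (by
          calc (N : ℝ) ^ κ ≤ (N : ℝ) ^ (1 : ℝ) := Real.rpow_le_rpow_of_exponent_le hN1 (by linarith)
            _ = N := Real.rpow_one _)
        exact_mod_cast this
      have h1 : ∑ n ∈ Icc 1 U, ArithmeticFunction.vonMangoldt n * ‖E n‖ ≤ U * Real.log N := by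
        calc _ ≤ ∑ _n ∈ Icc 1 U, Real.log N := by
              refine sum_le_sum fun n hn => ?_
              rw [mem_Icc] at hn
              have h2 := hlamle n (mem_Icc.2 ⟨hn.1, hn.2.trans hUN⟩)
              have h3 := hE1 n
              have h4 : (0 : ℝ) ≤ ArithmeticFunction.vonMangoldt n := ArithmeticFunction.vonMangoldt_nonneg
              have h5 := norm_nonneg (E n)
              nlinarith
          _ = _ := by rw [sum_const, Nat.card_Icc, nsmul_eq_mul]; simp
      have h6 : ∑ c ∈ Icc 1 (U * U), ((N : ℝ) / c * ((1 + Real.log q) * s) + q) ≤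
          (N * (2 * Real.log N)) * (2 * Real.log N * s) + U * U * q := by
        rw [sum_add_distrib, ← sum_mul]
        apply add_le_add
        · apply mul_le_mul _ _ (by positivity) (by positivity)
          · have h7 : ∑ c ∈ Icc 1 (U * U), (N : ℝ) / c = N * ∑ c ∈ Icc 1 (U * U), (1 : ℝ) / c := by
              rw [mul_sum]
              refine sum_congr rfl fun c _ => ?_
              ring
            have h8 : ∑ c ∈ Icc 1 (U * U), (1 : ℝ) / c ≤ 1 + Real.log ((U * U : ℕ) : ℝ) := by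
              have h := harmonic_le_one_add_log (U * U)
              rw [harmonic_eq_sum_Icc] at h
              push_cast at h ⊢
              simpa [one_div] using h
            have h9 : Real.log ((U * U : ℕ) : ℝ) ≤ Real.log N :=
              Real.log_le_log (by exact_mod_cast Nat.mul_pos hU1 hU1) (by exact_mod_cast hUy.trans hy)
            rw [h7]
            apply mul_le_mul_of_nonneg_left _ hN0.le
            linarith
          · apply mul_le_mul_of_nonneg_right _ hs0
            linarith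
        · rw [sum_const, Nat.card_Icc, nsmul_eq_mul]
          simp
      rw [← sum_mul]
      have h10 : 1 + 7 * Real.log N ^ C ≤ 8 * Real.log N ^ C := by
        have := one_le_pow₀ hL1 (n := C)
        linarith
      have h11 : (0 : ℝ) ≤ 7 * Real.log N ^ C := by positivity
      have h12 : 0 ≤ ∑ c ∈ Icc 1 (U * U), ((N : ℝ) / c * ((1 + Real.log q) * s) + q) :=
        sum_nonneg fun c _ => by positivity
      refine le_trans ?_ (fin_numk (κ := κ) (U := U) (q := q) (s := s) (B := B) (C := C) (K2 := K2) hκ hκ1 hL1 hLb hN1 (Nat.cast_nonneg _) hUle (Nat.cast_nonneg _) hq'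
        hK2 hs0 hs1 rfl hbig)
      apply add_le_add h1
      apply mul_le_mul _ _ (by positivity) (by positivity)
      · apply mul_le_mul_of_nonneg_left _ (by norm_num)
        linarith
      · exact mul_le_mul h6 h10 (by linarith) (le_trans h12 h6)
    rw [hsplit]
    set Sm := ∑ n ∈ Icc 1 y, (ArithmeticFunction.vonMangoldt n) • E n with hSm
    set Bm := ∑ m ∈ Icc 1 y, ∑ k ∈ Icc 1 (y / m), ((bt U m : ℝ) : ℂ) * ((lv U k : ℝ) : ℂ) *
          (ff χ α ((m * k : ℕ) : ZMod q) * ee ((m * k : ℕ) * η)) with hBm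
    have h13 : ‖Sm‖ ≤ N / (2 * Real.log N ^ (B + 1)) + N / Real.log N ^ (B + 1) := by
      calc ‖Sm‖ = ‖(Sm - Bm) + Bm‖ := by rw [sub_add_cancel]
        _ ≤ ‖Sm - Bm‖ + ‖Bm‖ := norm_add_le _ _
        _ ≤ _ := add_le_add (hVa.trans hY) hB2
    have h14 : 6 * Real.log N ^ 3 ≤ N / Real.log N ^ (B + 1) := by
      rw [le_div_iff₀ (by positivity)]
      have f1 : 6 * Real.log N ^ 3 * Real.log N ^ (B + 1) = 6 * Real.log N ^ (B + 4) := by ring
      have f2 : Real.log N ^ (B + 4) ≤ Real.log N ^ (B + C + 4) := pow_le_pow_right₀ hL1 (by omega)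
      have f3 : (N : ℝ) ^ (2 * κ) ≤ N := by
        calc (N : ℝ) ^ (2 * κ) ≤ (N : ℝ) ^ (1 : ℝ) := Real.rpow_le_rpow_of_exponent_le hN1 (by linarith)
          _ = N := Real.rpow_one _
      have f4 : 0 < Real.log N ^ (B + C + 4) := by positivity
      rw [f1]
      linarith
    have h15 : N / (2 * Real.log N ^ (B + 1)) + N / Real.log N ^ (B + 1) + N / Real.log N ^ (B + 1) ≤ N / Real.log N ^ B := by
      have f1 : Real.log N ^ (B + 1) = Real.log N ^ B * Real.log N := by ring
      have f2 : N / (2 * Real.log N ^ (B + 1)) + N / Real.log N ^ (B + 1) + N / Real.log N ^ (B + 1) =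
          N / Real.log N ^ B * (5 / (2 * Real.log N)) := by
        rw [f1]
        field_simp
        ring
      rw [f2]
      have f3 : 5 / (2 * Real.log N) ≤ 1 := by
        rw [div_le_one (by positivity)]
        linarith
      have f4 : 0 ≤ N / Real.log N ^ B := by positivity
      nlinarith
    refine (norm_add_le _ _).trans ?_
    linarith

end Pool.Agent.H579.E
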