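import Pool.Agent.H579.E.Apc
import Pool.Agent.H579.E.ShlB
import Pool.Agent.H579.D.Core4P
import Pool.Graph.R_pool_sql_team_seeded_47a924f7.T6.H3.FF.Core4
import Pool.Graph.R_seed8.R460.GS.ErrAll

set_option autoImplicit false

/-! Products of two primes, the first of which is small: the error terms. -/

namespace Pool.Agent.H579.E

open Finset
open Pool.Agent.Y883.GJ Pool.Agent.R460.GS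
open Pool.Agent.R460.GP (cvd)
open Pool.Agent.T6.H3.FF (Core4Stm)
open Pool.Agent.H579.Dk (Core4PStm)
open Pool.Agent.H373R2.T7 (lamz Vz lam_ap lamz_ap)
open Pool.Agent.Y883.T3 (lsh)
open Pool.Agent.Y614.GJ.Core (ev_log)
open Pool.Agent.R460.GH (nc_LS)
open ArithmeticFunction (vonMangoldt)

/-- GOOD: all properties of the difference of `e2` and the model -/
theorem goodE (hTM : TiMaj2Stm) (hTm : TiMinStm) (hLsh : LshStm)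
    {κ κ₁ κ₂ : ℝ} (h0 : 0 < κ₁) (h01 : κ₁ ≤ κ₂) (h1 : κ₂ < 4 * κ) (hκ : 0 < κ) (h2 : κ₂ ≤ 1 / 2) (A₁ : ℕ) :
    ∃ C : ℕ, ∀ A₂ : ℕ, ∃ C₃ : ℕ, ∀ K U U₀ : ℕ, ∃ B : ℕ, ∀ E : ℕ, ∃ N₀ : ℕ, ∀ N : ℕ, N₀ ≤ N → ∀ z : ℕ,
    Real.log N ^ B ≤ z → (z : ℝ) ≤ Real.log N ^ E → ∃ r : ℕ, Par U₀ N z r ∧
    ∑ n ∈ Icc 1 N, |lamz z n - lsh z r n| ≤ N / Real.log N ^ U₀ ∧
    ∀ α : ℕ → ℝ, Al N κ₁ κ₂ α → BdAt N (G2 N α z r) ∧ MinAt N (-(3 / 10) + 4 * κ) A₁ C (G2 N α z r) ∧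
      MajAt N (-(3 / 10) + 4 * κ) A₂ C C₃ (G2 N α z r) ∧ ApAt N K U (G2 N α z r) ∧ NcAt N U (G2 N α z r) := by
  obtain ⟨M₀, hM100, hMκ⟩ : ∃ M₀ : ℕ, 100 ≤ M₀ ∧ 1 / (M₀ : ℝ) ≤ κ := by
    obtain ⟨n, hn⟩ := exists_nat_ge (1 / κ)
    refine ⟨n + 100, by omega, ?_⟩
    rw [div_le_iff₀ (by positivity)]
    rw [div_le_iff₀ hκ] at hn
    push_cast
    nlinarith
  have hM1 : 1 ≤ M₀ := by omega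
  obtain ⟨Cg, Ng, hg⟩ := minE (A₁ + 2) (κ := κ) h0 h1 (by linarith)
  obtain ⟨Ch, Nh, hh⟩ := nHk hTm hLsh (A₁ + 2 + 2) hκ hM1 hMκ
  refine ⟨max Cg Ch, fun A₂ => ?_⟩
  obtain ⟨C, hC⟩ : ∃ C, C = max Cg Ch := ⟨_, rfl⟩
  rw [← hC]
  obtain ⟨C₃, Nm1, hm1⟩ := majE (A₂ + 2) C hκ h0 h1.le h2
  obtain ⟨Nm2, hm2⟩ := mHk hTM hLsh (A₂ + 2 + 2) C hκ hM1 hMκ
  refine ⟨C₃, fun K U U₀ => ?_⟩
  obtain ⟨U₁, hU₁⟩ : ∃ U₁, U₁ = max U₀ (U + 3) := ⟨_, rfl⟩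
  obtain ⟨Bm, hBm⟩ := modelM M₀ hM100 U₁
  refine ⟨max Bm K, fun E => ?_⟩
  obtain ⟨Nmo, hmo⟩ := hBm E
  obtain ⟨Nl, hl⟩ := lamz_ap E (U + 3)
  obtain ⟨Na, ha⟩ := apE h0 h01 h2 K (U + 3)
  obtain ⟨Nc, hc⟩ := ncE (κ₁ := κ₁) (κ₂ := κ₂) h0 h2 (U + 1)
  obtain ⟨b, Nb, hb0, hb⟩ := sup_W (κ₁ := κ₁) (κ₂ := κ₂) h0 h01
  obtain ⟨Ne, hNe⟩ := Filter.eventually_atTop.1 (ev_log 1 (s := 1) (by norm_num) (3 * b + 3))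
  refine ⟨Ng + Nh + Nm1 + Nm2 + Nc + Nb + Nmo + Nl + Na + Ne + 1, fun N hN z hz1 hz2 => ?_⟩
  obtain ⟨hLe, -⟩ := hNe N (by omega)
  have hL1 : 1 ≤ Real.log N := by linarith
  have hL2' : 2 ≤ Real.log N := by linarith
  have hzB : Real.log N ^ Bm ≤ z := (pow_le_pow_right₀ hL1 (le_max_left _ _)).trans hz1
  have hzK : Real.log N ^ K ≤ z := (pow_le_pow_right₀ hL1 (le_max_right _ _)).trans hz1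
  have hz1' : 1 ≤ z := by
    have : (1 : ℝ) ≤ z := (one_le_pow₀ hL1).trans hz1
    exact_mod_cast this
  obtain ⟨r, hPar, hD, hsum⟩ := hmo N (by omega) z hzB hz2
  have hdiv : ∀ V : ℕ, V ≤ U₁ → (N : ℝ) / Real.log N ^ U₁ ≤ N / Real.log N ^ V := fun V hV =>
    div_le_div_of_nonneg_left (Nat.cast_nonneg _) (by positivity) (pow_le_pow_right₀ hL1 hV)
  have hU0 : U₀ ≤ U₁ := by rw [hU₁]; exact le_max_left _ _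
  have hU2 : U + 3 ≤ U₁ := by rw [hU₁]; exact le_max_right _ _
  have hP0 := par_mono hL1 hU0 hPar
  have hP2 := par_mono hL1 (show U + 2 ≤ U₁ by omega) hPar
  refine ⟨r, hP0, hsum.trans (hdiv _ hU0), fun α hα => ?_⟩
  obtain ⟨-, hw⟩ := hb N (by omega) α hα
  refine ⟨bdG hα hw hPar (by linarith), ?_, ?_, ?_, ?_⟩
  · rw [hC]
    exact minG hL2' hw (by linarith) (hg N (by omega) α hα) (hh N (by omega) z r hD hPar.hV)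
  · exact majG hL2' hw (by linarith) (hm1 N (by omega) α hα) (fun q _ hq => hm2 N (by omega) q hq z r hD hPar.hV)
  · refine apG (by linarith) hb0 hw ?_ (hsum.trans (hdiv _ hU2)) (ha N (by omega) α hα)
    intro q hq hqK c y hy
    refine hl N (by omega) z hz1' hz2 q hq ?_ c y hy
    exact_mod_cast hqK.trans hzK
  · exact ncG (by linarith) hb0 hw (hc N (by omega) α hα) (nc_LS hP2 hL2')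

/-- ERRS: the error term in the problem of sums -/
def ErrS (κ₁ κ₂ ρ : ℝ) : Prop := ∀ (A T U₀ : ℕ), ∃ B : ℕ, ∀ E : ℕ, ∃ N₀ : ℕ, ∀ N : ℕ, N₀ ≤ N → ∀ z : ℕ,
  Real.log N ^ B ≤ z → (z : ℝ) ≤ Real.log N ^ E → ∃ r : ℕ, Par U₀ N z r ∧
    ∑ n ∈ Icc 1 N, |lamz z n - lsh z r n| ≤ N / Real.log N ^ U₀ ∧
    ∀ α : ℕ → ℝ, Al N κ₁ κ₂ α → ∀ (q : ℕ) [NeZero q], (q : ℝ) ≤ (N : ℝ) ^ (1 - ρ) → ∀ a : ZMod q,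
    (Nat.gcd a.val q : ℝ) ≤ Real.log N ^ T → ∀ y₁ y₂ : ℕ, y₁ ≤ N → y₂ ≤ N →
      ∑ n ∈ (Icc 1 (2 * N)).filter (fun n : ℕ => (n : ZMod q) = a),
        ‖cv LA (G2 N α z r) y₁ y₂ n‖ ^ 2 ≤ (N : ℝ) ^ 3 / (q * Real.log N ^ A)

/-- ERRD: the error term in the problem of differences -/
def ErrD (κ₁ κ₂ ρ : ℝ) : Prop := ∀ (A T U₀ : ℕ), ∃ B : ℕ, ∀ E : ℕ, ∃ N₀ : ℕ, ∀ N : ℕ, N₀ ≤ N → ∀ z : ℕ,
  Real.log N ^ B ≤ z → (z : ℝ) ≤ Real.log N ^ E → ∃ r : ℕ, Par U₀ N z r ∧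
    ∑ n ∈ Icc 1 N, |lamz z n - lsh z r n| ≤ N / Real.log N ^ U₀ ∧
    ∀ α : ℕ → ℝ, Al N κ₁ κ₂ α → ∀ (q : ℕ) [NeZero q], (q : ℝ) ≤ (N : ℝ) ^ (1 - ρ) → ∀ a : ZMod q,
    (Nat.gcd a.val q : ℝ) ≤ Real.log N ^ T → ∀ y₁ y₂ : ℕ, y₁ ≤ N → y₂ ≤ N →
      ∑ n ∈ (Icc (-(N : ℤ)) N).filter (fun n : ℤ => (n : ZMod q) = a),
        ‖cvd LA (G2 N α z r) y₁ y₂ n‖ ^ 2 ≤ (N : ℝ) ^ 3 / (q * Real.log N ^ A)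

lemma e711 {ρ : ℝ} : (7 / 10 - (-(3 / 10) + ρ) : ℝ) = 1 - ρ := by ring

/-- the parameter between `κ₂` and `ρ` -/
lemma mid {κ₂ ρ : ℝ} (h0 : 0 < κ₂) (h1 : κ₂ < ρ) (h2 : ρ ≤ 1 / 5) :
    ∃ κ : ℝ, 0 < κ ∧ κ ≤ 1 / 20 ∧ κ₂ < 4 * κ ∧ 4 * κ < ρ :=
  ⟨(κ₂ + ρ) / 8, by linarith, by linarith, by linarith, by linarith⟩

theorem errS (hCore : Core4Stm) (hV : VauStm) (hJ : JacStm) (hL2 : L2Stm) (hTM : TiMaj2Stm) (hTm : TiMinStm)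
    (hLsh : LshStm) {κ₁ κ₂ ρ : ℝ} (h0 : 0 < κ₁) (h01 : κ₁ ≤ κ₂) (h1 : κ₂ < ρ) (h2 : ρ ≤ 1 / 5) : ErrS κ₁ κ₂ ρ := by
  intro A T U₀
  obtain ⟨κ, hκ, hκ1, k1, k2⟩ := mid (lt_of_lt_of_le h0 h01) h1 h2
  obtain ⟨A₁, hC1⟩ := hCore A T (-(3 / 10) + ρ) (-(3 / 10) + 4 * κ) (by linarith) (by linarith)
  obtain ⟨C, hE1⟩ := goodE hTM hTm hLsh h0 h01 k1 hκ (by linarith) A₁
  obtain ⟨A₂, hC2⟩ := hC1 C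
  obtain ⟨C₃, hE2⟩ := hE1 A₂
  obtain ⟨B₂, hC3⟩ := hC2 C₃
  obtain ⟨K, Ns, hs⟩ := shlk hV hJ hL2 B₂ C (T + C) hκ hκ1
  obtain ⟨U, Nc, hC4⟩ := hC3 K
  obtain ⟨B, hE3⟩ := hE2 K U U₀
  refine ⟨B, fun E => ?_⟩
  obtain ⟨Ne, hE4⟩ := hE3 E
  obtain ⟨Nf, hNf⟩ := Filter.eventually_atTop.1 (ev_log 1 (s := 1) (by norm_num) 3)
  refine ⟨Ns + Nc + Ne + Nf + 1, fun N hN z hz1 hz2 => ?_⟩
  obtain ⟨r, hP, hsum, hr⟩ := hE4 N (by omega) z hz1 hz2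
  obtain ⟨hL3, -⟩ := hNf N (by omega)
  refine ⟨r, hP, hsum, fun α hα q _ hq a ha y₁ y₂ hy₁ hy₂ => ?_⟩
  obtain ⟨g1, g2, g3, g4, g5⟩ := hr α hα
  exact hC4 N (by omega) LA (G2 N α z r) (bd_LA (by linarith)) g1 g2 g3 g4 g5 (hs N (by omega)) q
    (by rw [e711]; exact hq) a ha y₁ y₂ hy₁ hy₂

theorem errD (hCore : Core4PStm) (hV : VauStm) (hJ : JacStm) (hL2 : L2Stm) (hTM : TiMaj2Stm) (hTm : TiMinStm)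
    (hLsh : LshStm) {κ₁ κ₂ ρ : ℝ} (h0 : 0 < κ₁) (h01 : κ₁ ≤ κ₂) (h1 : κ₂ < ρ) (h2 : ρ ≤ 1 / 5) : ErrD κ₁ κ₂ ρ := by
  intro A T U₀
  obtain ⟨κ, hκ, hκ1, k1, k2⟩ := mid (lt_of_lt_of_le h0 h01) h1 h2
  obtain ⟨A₁, hC1⟩ := hCore A T (-(3 / 10) + ρ) (-(3 / 10) + 4 * κ) (by linarith) (by linarith)
  obtain ⟨C, hE1⟩ := goodE hTM hTm hLsh h0 h01 k1 hκ (by linarith) A₁
  obtain ⟨A₂, hC2⟩ := hC1 C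
  obtain ⟨C₃, hE2⟩ := hE1 A₂
  obtain ⟨B₂, hC3⟩ := hC2 C₃
  obtain ⟨K, Ns, hs⟩ := shlk hV hJ hL2 B₂ C (T + C) hκ hκ1
  obtain ⟨U, Nc, hC4⟩ := hC3 K
  obtain ⟨B, hE3⟩ := hE2 K U U₀
  refine ⟨B, fun E => ?_⟩
  obtain ⟨Ne, hE4⟩ := hE3 E
  obtain ⟨Nf, hNf⟩ := Filter.eventually_atTop.1 (ev_log 1 (s := 1) (by norm_num) 3)
  refine ⟨Ns + Nc + Ne + Nf + 1, fun N hN z hz1 hz2 => ?_⟩
  obtain ⟨r, hP, hsum, hr⟩ := hE4 N (by omega) z hz1 hz2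
  obtain ⟨hL3, -⟩ := hNf N (by omega)
  refine ⟨r, hP, hsum, fun α hα q _ hq a ha y₁ y₂ hy₁ hy₂ => ?_⟩
  obtain ⟨g1, g2, g3, g4, g5⟩ := hr α hα
  exact hC4 N (by omega) LA (G2 N α z r) (bd_LA (by linarith)) g1 g2 g3 g4 g5 (hs N (by omega)) q
    (by rw [e711]; exact hq) a ha y₁ y₂ hy₁ hy₂

end Pool.Agent.H579.E
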