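import Pool.Agent.H579.E.MainD

set_option autoImplicit false

/-! Differences of a prime and of a product of two primes: final forms. -/

namespace Pool.Agent.H579.E

open Finset
open Pool.Agent.Y883.GJ Pool.Agent.R460.GS
open Pool.Agent.H560R3.GB (sing)
open Pool.Agent.Y883.T4 (class_le)
open Pool.Agent.Y614.GJ.Core (ev_log)

lemma log_two_mul {x N : ℕ} (hN : N = 2 * x) (hx : 1 ≤ x) :
    Real.log x ≤ Real.log N ∧ Real.log N ≤ Real.log x + 1 := by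
  have hx0 : (0 : ℝ) < x := by exact_mod_cast hx
  have e : Real.log N = Real.log 2 + Real.log x := by
    rw [hN, Nat.cast_mul, Real.log_mul (by norm_num) hx0.ne']
    norm_num
  have h1 := Real.log_two_gt_d9
  have h2 := Real.log_two_lt_d9
  constructor <;> linarith

lemma al_two {x N : ℕ} {κ₁ κ₂ : ℝ} (h0 : 0 < κ₁) (h2 : 0 ≤ κ₂) (hN : N = 2 * x) (hx : 2 ≤ x) {α : ℕ → ℝ} (h : ∀ p, |α p| ≤ 1) :
    Al N (κ₁ / 2) κ₂ (res x κ₁ κ₂ α) := by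
  have h1 := al_res (N := x) (κ₁ := κ₁) (κ₂ := κ₂) h
  refine ⟨fun p hp => ?_, h1.bd⟩
  obtain ⟨e1, e2, e3⟩ := h1.pr p hp
  have hx0 : (0 : ℝ) < x := by exact_mod_cast (by omega : 0 < x)
  have hN0 : (0 : ℝ) < N := by exact_mod_cast (by omega : 0 < N)
  refine ⟨e1, lt_of_le_of_lt ?_ e2, e3.trans ?_⟩
  · have e4 : (N : ℝ) ≤ (x : ℝ) ^ (2 : ℝ) := by
      have : N ≤ x ^ 2 := by rw [hN]; nlinarith
      rw [show (2 : ℝ) = ((2 : ℕ) : ℝ) by norm_num, Real.rpow_natCast]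
      exact_mod_cast this
    calc (N : ℝ) ^ (κ₁ / 2) ≤ ((x : ℝ) ^ (2 : ℝ)) ^ (κ₁ / 2) := Real.rpow_le_rpow hN0.le e4 (by linarith)
      _ = (x : ℝ) ^ κ₁ := by
          rw [← Real.rpow_mul hx0.le]
          congr 1
          ring
  · apply Real.rpow_le_rpow hx0.le _ h2
    exact_mod_cast (by omega : x ≤ N)

lemma WA_two {x N : ℕ} {κ₁ κ₂ : ℝ} (hN : N = 2 * x) (h2 : κ₂ ≤ 1) (hx : 1 ≤ x) (α : ℕ → ℝ) :
    WA N (res x κ₁ κ₂ α) = ∑ p ∈ prs x κ₁ κ₂, α p / p := by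
  rw [← WA_res]
  unfold WA
  symm
  refine sum_subset (Icc_subset_Icc le_rfl (by omega)) (fun p hp hp' => ?_)
  rw [mem_Icc] at hp hp'
  unfold res
  rw [if_neg, zero_div]
  rintro ⟨-, -, h3⟩
  have h4 : (p : ℝ) ≤ x := by
    refine h3.trans ?_
    calc (x : ℝ) ^ κ₂ ≤ (x : ℝ) ^ (1 : ℝ) := Real.rpow_le_rpow_of_exponent_le (by exact_mod_cast hx) h2
      _ = x := Real.rpow_one _
  have h5 : p ≤ x := by exact_mod_cast h4
  omega

theorem diffs {κ₁ κ₂ ρ : ℝ} (h0 : 0 < κ₁) (h01 : κ₁ ≤ κ₂) (h1 : κ₂ < ρ) (h2 : ρ ≤ 1 / 5) (A B T : ℕ) :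
    ∃ x₀ : ℕ, ∀ x : ℕ, x₀ ≤ x → ∀ α : ℕ → ℝ, (∀ p, |α p| ≤ 1) → ∀ q : ℕ, 1 ≤ q →
    (q : ℝ) ≤ (x : ℝ) ^ (1 - ρ) → ∀ a : ℤ, (Int.gcd a q : ℝ) ≤ Real.log x ^ T →
    (((Icc (-(x : ℤ)) x).filter (fun h : ℤ => h ≠ 0 ∧ 2 ∣ h ∧ h ≡ a [ZMOD q] ∧
      x / Real.log x ^ B < |repD x (res x κ₁ κ₂ α) h - sing h.natAbs * len x h * ∑ p ∈ prs x κ₁ κ₂, α p / p|)).card
        : ℝ) ≤ x / (q * Real.log x ^ A) := by
  obtain ⟨N₁, h3⟩ := mainD (κ₁ := κ₁ / 2) (κ₂ := κ₂) (ρ := ρ) (by linarith) (by linarith) (by linarith)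
    (errD_all (by linarith) (by linarith) h1 h2) (A + 1) (B + 1) T
  obtain ⟨N₂, h4⟩ := Filter.eventually_atTop.1 (ev_log 1 (s := 1) (by norm_num) 4)
  refine ⟨N₁ + N₂ + 2, fun x hx α hα q hq1 hq a ha => ?_⟩
  obtain ⟨hL, -⟩ := h4 x (by omega)
  obtain ⟨N, hN⟩ : ∃ N, N = 2 * x := ⟨_, rfl⟩
  obtain ⟨l1, l2⟩ := log_two_mul hN (by omega)
  have hx0 : (0 : ℝ) < x := by exact_mod_cast (by omega : 0 < x)
  have hq0 : (0 : ℝ) < q := by exact_mod_cast hq1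
  have hNx : (N : ℝ) = 2 * x := by rw [hN]; push_cast; ring
  have hl0 : 0 < Real.log x := by linarith
  have c1 := h3 x (by omega) N hN (res x κ₁ κ₂ α) (al_two h0 (by linarith) hN (by omega) hα) q hq1
    (hq.trans (Real.rpow_le_rpow hx0.le (by rw [hNx]; linarith) (by linarith))) a
    (ha.trans (pow_le_pow_left₀ hl0.le l1 T))
  rw [WA_two hN (by linarith) (by omega)] at c1
  have h5 : ∀ V : ℕ, (N : ℝ) / Real.log N ^ (V + 1) ≤ x / Real.log x ^ V := by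
    intro V
    have hlN : 0 < Real.log N := by linarith
    rw [div_le_div_iff₀ (by positivity) (by positivity)]
    calc (N : ℝ) * Real.log x ^ V ≤ N * Real.log N ^ V := by gcongr
      _ = x * (2 * Real.log N ^ V) := by rw [hNx]; ring
      _ ≤ x * (Real.log N * Real.log N ^ V) := by
          gcongr
          linarith
      _ = x * Real.log N ^ (V + 1) := by ring
  refine le_trans ?_ (c1.trans ?_)
  · have h6 : ∀ (S₁ S₂ : Finset ℤ), S₁ ⊆ S₂ → (S₁.card : ℝ) ≤ S₂.card := fun S₁ S₂ h => by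
      exact_mod_cast card_le_card h
    apply h6
    intro h hh
    rw [mem_filter] at hh ⊢
    refine ⟨hh.1, hh.2.1, hh.2.2.1, hh.2.2.2.1, lt_of_le_of_lt (h5 B) hh.2.2.2.2⟩
  · have h6 := h5 A
    calc (N : ℝ) / (q * Real.log N ^ (A + 1)) = N / Real.log N ^ (A + 1) / q := by rw [div_div, mul_comm]
      _ ≤ x / Real.log x ^ A / q := by gcongr
      _ = _ := by rw [div_div, mul_comm]

/-- the integers without a representation -/
theorem repr_fewD {κ₁ κ₂ ρ : ℝ} (h0 : 0 < κ₁) (h01 : κ₁ ≤ κ₂) (h1 : κ₂ < ρ) (h2 : ρ ≤ 1 / 5) (A B T : ℕ) :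
    ∃ x₀ : ℕ, ∀ x : ℕ, x₀ ≤ x → ∀ S : Finset ℕ, S ⊆ prs x κ₁ κ₂ →
    1 / Real.log x ^ B ≤ ∑ p ∈ S, 1 / (p : ℝ) →
    ∀ q : ℕ, 1 ≤ q → (q : ℝ) ≤ (x : ℝ) ^ (1 - ρ) → ∀ a : ℤ, (Int.gcd a q : ℝ) ≤ Real.log x ^ T →
    ∀ D : Finset ℤ, (∀ h ∈ D, h ≠ 0 ∧ 2 * |h| ≤ x ∧ 2 ∣ h ∧ h ≡ a [ZMOD q] ∧
      ¬ ∃ p₀ p₁ p₂ : ℕ, p₀.Prime ∧ p₁ ∈ S ∧ p₂.Prime ∧ p₁ * p₂ ≤ x ∧ (p₀ : ℤ) - p₁ * p₂ = h) →
    (D.card : ℝ) ≤ x / (q * Real.log x ^ A) := by
  classical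
  obtain ⟨N₁, h3⟩ := diffs h0 h01 h1 h2 A (B + 1) T
  obtain ⟨N₂, h4⟩ := Filter.eventually_atTop.1 (ev_log 1 (s := 1) (by linarith) 8)
  refine ⟨N₁ + N₂ + 1, fun x hx S hS hm q hq1 hq a ha D hD => ?_⟩
  obtain ⟨hL, -⟩ := h4 x (by omega)
  have hx1 : 1 ≤ x := by omega
  have hx0 : (0 : ℝ) < x := by exact_mod_cast hx1
  obtain ⟨α, hα⟩ : ∃ α : ℕ → ℝ, α = fun p => if p ∈ S then (1 : ℝ) else 0 := ⟨_, rfl⟩
  have hα1 : ∀ p, |α p| ≤ 1 := by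
    intro p
    rw [hα]
    dsimp only
    split_ifs <;> simp
  have hαS : ∀ p, p ∉ S → α p = 0 := by
    intro p hp
    rw [hα]
    dsimp only
    rw [if_neg hp]
  have hWS : ∑ p ∈ prs x κ₁ κ₂, α p / p = ∑ p ∈ S, 1 / (p : ℝ) := by
    rw [← sum_subset hS (fun p _ hp => by rw [hαS p hp, zero_div])]
    refine sum_congr rfl fun p hp => ?_
    rw [hα]
    dsimp only
    rw [if_pos hp]
  have c1 := h3 x (by omega) α hα1 q hq1 hq a ha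
  rw [hWS] at c1
  refine le_trans ?_ c1
  have h6 : ∀ (S₁ S₂ : Finset ℤ), S₁ ⊆ S₂ → (S₁.card : ℝ) ≤ S₂.card := fun S₁ S₂ h => by
    exact_mod_cast card_le_card h
  apply h6
  intro h hh
  obtain ⟨d1, d2, d3, d4, d5⟩ := hD h hh
  rw [mem_filter, mem_Icc]
  refine ⟨⟨by have := neg_abs_le h; have := abs_nonneg h; omega, by have := le_abs_self h; have := abs_nonneg h; omega⟩,
    d1, d3, d4, ?_⟩
  have e1 : repD x (res x κ₁ κ₂ α) h = 0 := by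
    unfold repD
    refine sum_eq_zero fun p _ => ?_
    by_cases hpS : p ∈ S
    · have e2 : (Icc 1 x).filter (fun m => m.Prime ∧ p * m ≤ x ∧ (((p * m : ℕ) : ℤ) + h).toNat.Prime) = ∅ := by
        rw [filter_eq_empty_iff]
        intro m _ hm'
        refine d5 ⟨(((p * m : ℕ) : ℤ) + h).toNat, p, m, hm'.2.2, hpS, hm'.1, hm'.2.1, ?_⟩
        have h7 := hm'.2.2.two_le
        have h8 : ((((p * m : ℕ) : ℤ) + h).toNat : ℤ) = ((p * m : ℕ) : ℤ) + h := by omega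
        rw [h8]
        push_cast
        ring
      rw [e2, sum_empty, mul_zero]
    · have e3 : res x κ₁ κ₂ α p = 0 := by
        unfold res
        rw [hαS p hpS, ite_self]
      rw [e3, zero_mul]
  rw [e1, zero_sub, abs_neg]
  have hs1 := one_le_sing h.natAbs
  obtain ⟨W, hW⟩ : ∃ W, W = ∑ p ∈ S, 1 / (p : ℝ) := ⟨_, rfl⟩
  rw [← hW] at hm ⊢
  have hlen : (x : ℝ) / 2 ≤ len x h := by
    unfold len
    have e4 : 2 * max 0 (-h) ≤ (x : ℤ) := by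
      have := neg_abs_le h
      omega
    have e5 : 2 * ((max 0 (-h) : ℤ) : ℝ) ≤ (x : ℝ) := by exact_mod_cast e4
    linarith
  have hl0 : 0 < Real.log x := by linarith
  have hW0 : 0 < W := lt_of_lt_of_le (by positivity) hm
  have hln0 : 0 < len x h := by linarith
  rw [abs_of_nonneg (by positivity)]
  calc (x : ℝ) / Real.log x ^ (B + 1) = 1 * x * (1 / Real.log x ^ B) * (1 / Real.log x) := by
        rw [pow_succ]
        field_simp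
    _ < 1 * x * (1 / Real.log x ^ B) * (1 / 2) := by
        gcongr
        linarith
    _ = 1 * (x / 2) * (1 / Real.log x ^ B) := by ring
    _ ≤ sing h.natAbs * len x h * W := by gcongr

end Pool.Agent.H579.E

namespace Pool.Agent.H579.E

open Finset

lemma repD_res {x : ℕ} {κ₁ κ₂ : ℝ} (α : ℕ → ℝ) (h : ℤ) :
    repD x (res x κ₁ κ₂ α) h = ∑ p ∈ prs x κ₁ κ₂, α p *
      ∑ m ∈ (Icc 1 x).filter (fun m => m.Prime ∧ p * m ≤ x ∧ (((p * m : ℕ) : ℤ) + h).toNat.Prime),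
        Real.log m * Real.log (((p * m : ℕ) : ℤ) + h).toNat :=
  sum_res α _

end Pool.Agent.H579.E
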