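import Pool.Agent.H579.E.AsmE

set_option autoImplicit false

/-! Sums of a prime and of a product of two primes: final forms. -/

namespace Pool.Agent.H579.E

open Finset
open Pool.Agent.Y883.GJ Pool.Agent.R460.GS
open Pool.Agent.H560R3.GB (sing)
open Pool.Agent.Y883.T4 (class_le)
open Pool.Agent.Y614.GJ.Core (ev_log)

/-- the primes between two powers of `x` -/
noncomputable def prs (x : ℕ) (κ₁ κ₂ : ℝ) : Finset ℕ :=
  (Icc 1 x).filter (fun p => p.Prime ∧ (x : ℝ) ^ κ₁ < p ∧ (p : ℝ) ≤ (x : ℝ) ^ κ₂)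

lemma sum_res {x : ℕ} {κ₁ κ₂ : ℝ} (α f : ℕ → ℝ) :
    ∑ p ∈ Icc 1 x, res x κ₁ κ₂ α p * f p = ∑ p ∈ prs x κ₁ κ₂, α p * f p := by
  unfold prs
  rw [sum_filter]
  refine sum_congr rfl fun p _ => ?_
  unfold res
  split_ifs
  · rfl
  · simp

lemma WA_res {x : ℕ} {κ₁ κ₂ : ℝ} (α : ℕ → ℝ) :
    WA x (res x κ₁ κ₂ α) = ∑ p ∈ prs x κ₁ κ₂, α p / p := by
  have h := sum_res (x := x) (κ₁ := κ₁) (κ₂ := κ₂) α (fun p => 1 / (p : ℝ))
  unfold WA
  rw [sum_congr rfl (fun p _ => by rw [div_eq_mul_one_div]), h]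
  exact sum_congr rfl fun p _ => by rw [← div_eq_mul_one_div]

lemma rep_res {x : ℕ} {κ₁ κ₂ : ℝ} (α : ℕ → ℝ) (n : ℕ) :
    rep x (res x κ₁ κ₂ α) n = ∑ p ∈ prs x κ₁ κ₂, α p *
      ∑ m ∈ (Icc 1 n).filter (fun m => m.Prime ∧ p * m < n ∧ (n - p * m).Prime), Real.log m * Real.log (n - p * m : ℕ) :=
  sum_res α _

/-- the integers without a representation -/
theorem repr_few {κ₁ κ₂ ρ : ℝ} (h0 : 0 < κ₁) (h01 : κ₁ ≤ κ₂) (h1 : κ₂ < ρ) (h2 : ρ ≤ 1 / 5) (A B T : ℕ) :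
    ∃ x₀ : ℕ, ∀ x : ℕ, x₀ ≤ x → ∀ S : Finset ℕ, S ⊆ prs x κ₁ κ₂ →
    1 / Real.log x ^ B ≤ ∑ p ∈ S, 1 / (p : ℝ) →
    ∀ q : ℕ, 1 ≤ q → (q : ℝ) ≤ (x : ℝ) ^ (1 - ρ) → ∀ a : ℤ, (Int.gcd a q : ℝ) ≤ Real.log x ^ T →
    ∀ D : Finset ℕ, (∀ n ∈ D, 1 ≤ n ∧ n ≤ x ∧ 2 ∣ n ∧ (n : ℤ) ≡ a [ZMOD q] ∧
      ¬ ∃ p₀ p₁ p₂ : ℕ, p₀.Prime ∧ p₁ ∈ S ∧ p₂.Prime ∧ p₀ + p₁ * p₂ = n) →
    (D.card : ℝ) ≤ x / (q * Real.log x ^ A) := by
  classical
  obtain ⟨N₁, h3⟩ := sums h0 h01 h1 h2 (A + 1) (A + B + 3) T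
  obtain ⟨N₂, h4⟩ := Filter.eventually_atTop.1 (ev_log (A + 1) (s := ρ) (by linarith) 8)
  refine ⟨N₁ + N₂ + 1, fun x hx S hS hm q hq1 hq a ha D hD => ?_⟩
  obtain ⟨hL, hLp⟩ := h4 x (by omega)
  have hx1 : 1 ≤ x := by omega
  have hx0 : (0 : ℝ) < x := by exact_mod_cast hx1
  have hq0 : (0 : ℝ) < q := by exact_mod_cast hq1
  obtain ⟨α, hα⟩ : ∃ α : ℕ → ℝ, α = fun p => if p ∈ S then (1 : ℝ) else 0 := ⟨_, rfl⟩
  have hα1 : ∀ p, |α p| ≤ 1 := by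
    intro p
    rw [hα]
    dsimp only
    split_ifs <;> simp
  have hαS : ∀ p, p ∉ S → α p = 0 := by
    intro p hp
    rw [hα]
    dsimp only
    rw [if_neg hp]
  have hWS : ∑ p ∈ prs x κ₁ κ₂, α p / p = ∑ p ∈ S, 1 / (p : ℝ) := by
    rw [← sum_subset hS (fun p _ hp => by rw [hαS p hp, zero_div])]
    refine sum_congr rfl fun p hp => ?_
    rw [hα]
    dsimp only
    rw [if_pos hp]
  rw [← hWS] at hm
  have c1 := h3 x (by omega) (res x κ₁ κ₂ α) (al_res hα1) q hq1 hq a ha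
  obtain ⟨L, hLd⟩ : ∃ L, L = Real.log (x : ℝ) := ⟨_, rfl⟩
  rw [← hLd] at hL hLp c1 ha hm ⊢
  have hL0 : 0 < L := by linarith
  have hL1 : 1 ≤ L := by linarith
  rw [WA_res] at c1
  obtain ⟨W, hW⟩ : ∃ W, W = ∑ p ∈ prs x κ₁ κ₂, α p / p := ⟨_, rfl⟩
  rw [← hW] at hm c1
  -- small integers
  have hsmall : ((D.filter (fun n : ℕ => (n : ℝ) < x / L ^ (A + 1))).card : ℝ) ≤ x / L ^ (A + 1) / q + 1 := by
    obtain ⟨a', ha'⟩ : ∃ a', a' = (a % (q : ℤ)).toNat := ⟨_, rfl⟩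
    refine class_le x q a' hq1 _ (x / L ^ (A + 1)) (by positivity) ?_
    intro n hn
    rw [mem_filter] at hn
    refine ⟨?_, hn.2.le⟩
    rw [ha']
    exact mod_iff' n q a hq1 (hD n hn.1).2.2.2.1
  have hlarge : D.filter (fun n : ℕ => ¬ (n : ℝ) < x / L ^ (A + 1)) ⊆
      (Icc 1 x).filter (fun n : ℕ => 2 ∣ n ∧ (n : ℤ) ≡ a [ZMOD q] ∧
        x / L ^ (A + B + 3) < |rep x (res x κ₁ κ₂ α) n - sing n * n * W|) := by
    intro n hn
    rw [mem_filter, not_lt] at hn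
    obtain ⟨d1, d2, d3, d4, d5⟩ := hD n hn.1
    rw [mem_filter, mem_Icc]
    refine ⟨⟨d1, d2⟩, d3, d4, ?_⟩
    have e1 : rep x (res x κ₁ κ₂ α) n = 0 := by
      rw [rep_res]
      refine sum_eq_zero fun p hp => ?_
      by_cases hpS : p ∈ S
      · have e2 : (Icc 1 n).filter (fun m => m.Prime ∧ p * m < n ∧ (n - p * m).Prime) = ∅ := by
          rw [filter_eq_empty_iff]
          intro m _ hm'
          exact d5 ⟨n - p * m, p, m, hm'.2.2, hpS, hm'.1, by omega⟩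
        rw [e2, sum_empty, mul_zero]
      · rw [hαS p hpS, zero_mul]
    rw [e1, zero_sub, abs_neg]
    have hs1 := one_le_sing n
    have hW0 : 0 < W := lt_of_lt_of_le (by positivity) hm
    have hn0 : (0 : ℝ) < n := lt_of_lt_of_le (by positivity) hn.2
    rw [abs_of_nonneg (by positivity)]
    calc x / L ^ (A + B + 3) < x / L ^ (A + B + 3) * L := by
          have : 0 < x / L ^ (A + B + 3) := by positivity
          nlinarith
      _ ≤ x / L ^ (A + B + 3) * L ^ 2 := by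
          gcongr
          nlinarith
      _ = 1 * (x / L ^ (A + 1)) * (1 / L ^ B) := by
          have : L ^ (A + B + 3) = L ^ (A + 1) * L ^ B * L ^ 2 := by ring
          rw [this]
          field_simp
      _ ≤ sing n * n * W := by
          gcongr
          exact hn.2
  have h5 : (D.card : ℝ) = ((D.filter (fun n : ℕ => (n : ℝ) < x / L ^ (A + 1))).card : ℝ) +
      ((D.filter (fun n : ℕ => ¬ (n : ℝ) < x / L ^ (A + 1))).card : ℝ) := by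
    exact_mod_cast (card_filter_add_card_filter_not (s := D) _).symm
  have h6 : ((D.filter (fun n : ℕ => ¬ (n : ℝ) < x / L ^ (A + 1))).card : ℝ) ≤ x / (q * L ^ (A + 1)) :=
    le_trans (by exact_mod_cast card_le_card hlarge) c1
  have h7 : (1 : ℝ) ≤ x / (q * L ^ (A + 1)) := by
    rw [_root_.one_le_div (by positivity)]
    calc (q : ℝ) * L ^ (A + 1) ≤ (x : ℝ) ^ (1 - ρ) * (x : ℝ) ^ ρ := by gcongr
      _ = x := by
          rw [← Real.rpow_add hx0]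
          norm_num
  have h8 : x / L ^ (A + 1) / q = x / (q * L ^ (A + 1)) := by
    rw [div_div, mul_comm]
  have h9 : x / (q * L ^ A) = L * (x / (q * L ^ (A + 1))) := by
    rw [pow_succ]
    field_simp
  rw [h8] at hsmall
  rw [h5, h9]
  nlinarith

end Pool.Agent.H579.E
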