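import Pool.Graph.R_seed8.Y918.GJ.Model

set_option autoImplicit false

/-! The parameters of the sieve model, with an arbitrarily small level (adapted from `Y918/GJ/Model`). -/

namespace Pool.Agent.H579.E

open Finset
open Pool.Agent.H807R2.Dav (ee norm_ee)
open Pool.Agent.H373R2.T7
open Pool.Agent.Y883.T3
open Pool.Agent.Y883.GJ
open Pool.Agent.Y918.GJ

/-- the parameters of the sieve model, with a small level -/
theorem modelM (M₀ : ℕ) (hM100 : 100 ≤ M₀) (U : ℕ) : ∃ B : ℕ, ∀ E : ℕ, ∃ N₀ : ℕ, ∀ N : ℕ, N₀ ≤ N → ∀ z : ℕ,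
    Real.log N ^ B ≤ z → (z : ℝ) ≤ Real.log N ^ E → ∃ r : ℕ, Par U N z r ∧
    ((((z + 1) ^ r) ^ M₀ : ℕ) : ℝ) ≤ N ∧
    ∑ n ∈ Icc 1 N, |lamz z n - lsh z r n| ≤ N / Real.log N ^ U := by
  classical
  obtain ⟨B0, hB⟩ := sup_diff (U + 1)
  refine ⟨B0 + U + 5, fun E => ?_⟩
  obtain ⟨n1, h1⟩ := hB E
  obtain ⟨n2, h2⟩ := choice 1 E (U + 3) M₀
  obtain ⟨n3, h3⟩ := Vz_inv_small E
  obtain ⟨n5, h5⟩ := ev_log_rpow (U + 5) 6 1 (by norm_num)
  obtain ⟨n6, h6⟩ := ev_L' 100
  refine ⟨n1 + n2 + n3 + n5 + n6 + 16, fun N hN z hz1 hz2 => ?_⟩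
  have hL := h6 N (by omega)
  have hzB : Real.log N ^ B0 ≤ z := by
    refine le_trans (pow_le_pow_right₀ (by linarith) (by omega)) hz1
  have hzU : Real.log N ^ (U + 5) ≤ z := by
    refine le_trans (pow_le_pow_right₀ (by linarith) (by omega)) hz1
  have a1 := h1 N (by omega) z hzB hz2
  obtain ⟨r, hr1, hr2, -⟩ := h2 N (by omega) z hz2
  have hz1' : 1 ≤ z := by
    have : (1 : ℝ) ≤ z := (one_le_pow₀ (by linarith)).trans hz1
    exact_mod_cast this
  have a3 := h3 N (by omega) z hz1' hz2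
  have a5 := h5 N (by omega)
  rw [Real.rpow_one] at a5
  have hN16 : (16 : ℝ) ≤ N := by exact_mod_cast (by omega : 16 ≤ N)
  have hN0 : (0 : ℝ) < N := by linarith
  have hlog2 : (Nat.log 2 N : ℝ) ≤ 2 * Real.log N := by
    have h4 : (2 : ℝ) ^ Nat.log 2 N ≤ N := by
      exact_mod_cast Nat.pow_log_le_self 2 (by omega : N ≠ 0)
    have h6 := Real.log_le_log (by positivity) h4
    rw [Real.log_pow] at h6
    have := Real.log_two_gt_d9
    have h7 : (0 : ℝ) ≤ Nat.log 2 N := Nat.cast_nonneg _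
    nlinarith
  have hLam : ∀ n ∈ Icc 1 N, ArithmeticFunction.vonMangoldt n ≤ Real.log N := by
    intro n hn
    rw [mem_Icc] at hn
    refine ArithmeticFunction.vonMangoldt_le_log.trans ?_
    exact Real.log_le_log (by exact_mod_cast hn.1) (by exact_mod_cast hn.2)
  have hlm := fun q hq hqN => lam_noncop q N hq hqN
  have hlz := fun q hq hqN => lamz_noncop q N z hq hqN hz1'
  obtain ⟨L, hLd⟩ : ∃ L, L = Real.log (N : ℝ) := ⟨_, rfl⟩
  rw [← hLd] at a1 hr1 hL a3 a5 hlog2 hLam hzU hlm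
  have hL0 : 0 < L := by linarith
  have hL1 : 1 ≤ L := by linarith
  have hV0 : 0 < (Vz z)⁻¹ := inv_pos.2 (Vz_pos z)
  have hz0 : (0 : ℝ) < z := by exact_mod_cast hz1'
  have hlog20 : (0 : ℝ) ≤ Nat.log 2 N := Nat.cast_nonneg _
  -- the three basic quantities in terms of `M = N / L ^ U`
  obtain ⟨M, hM⟩ : ∃ M, M = (N : ℝ) / L ^ U := ⟨_, rfl⟩
  have hM0 : 0 ≤ M := by rw [hM]; positivity
  have hM1 : (N : ℝ) / L ^ (U + 1) ≤ M / 100 := by
    rw [hM, pow_succ, ← div_div]
    exact div_le_div_of_nonneg_left (by positivity) (by norm_num) hL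
  have hM2 : (N : ℝ) / L ^ (U + 2) ≤ M / 100 := by
    refine le_trans ?_ hM1
    exact div_le_div_of_nonneg_left hN0.le (by positivity) (pow_le_pow_right₀ hL1 (by omega))
  have hpart : ∑ n ∈ Icc 1 N, |lamz z n - lsh z r n| ≤ N / L ^ (U + 2) := by
    refine (lsh_l1 z r N).trans ?_
    have e1 : Real.exp (3 * (1 + Real.log z) - r) ≤ 1 / L ^ (U + 3) := by
      refine le_trans (le_of_eq ?_) hr1
      push_cast
      ring_nf
    calc (Vz z)⁻¹ * (N * Real.exp (3 * (1 + Real.log z) - r)) ≤ L * (N * (1 / L ^ (U + 3))) := by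
          gcongr
      _ = N / L ^ (U + 2) := by rw [pow_succ L (U + 2)]; field_simp
  -- bound for the von Mangoldt function
  have hvm : ∀ q : ℕ, 1 ≤ q → q ≤ N → ∑ n ∈ (Icc 1 N).filter (fun n => ¬ n.Coprime q),
      ArithmeticFunction.vonMangoldt n ≤ M / 100 := by
    intro q hq hqN
    refine (hlm q hq hqN).trans ?_
    have e1 : (Nat.log 2 N : ℝ) * ((Nat.log 2 N + 1 : ℝ) * L) ≤ 6 * L ^ 3 := by
      calc (Nat.log 2 N : ℝ) * ((Nat.log 2 N + 1 : ℝ) * L) ≤ (2 * L) * ((2 * L + 1) * L) := by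
            gcongr
        _ ≤ 6 * L ^ 3 := by nlinarith [mul_pos hL0 hL0]
    refine e1.trans ?_
    rw [hM, le_div_iff₀ (by norm_num), le_div_iff₀ (by positivity)]
    calc 6 * L ^ 3 * 100 * L ^ U ≤ 6 * L ^ 3 * L * L ^ U := by gcongr
      _ ≤ 6 * L ^ 3 * L * L ^ U * L := le_mul_of_one_le_right (by positivity) hL1
      _ = 6 * L ^ (U + 5) := by ring
      _ ≤ N := a5
  have hr3 : ((((z + 1) ^ r) ^ M₀ : ℕ) : ℝ) ≤ N := by
    push_cast
    exact hr2
  refine ⟨r, ⟨?_, ?_, ?_, ?_, ?_, ?_⟩, hr3, ?_⟩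
  · refine le_trans ?_ hr3
    exact_mod_cast Nat.pow_le_pow_right (Nat.one_le_pow _ _ (by omega)) hM100
  · rw [← hLd]; exact a3
  · intro n hn
    have hn' := mem_Icc.1 hn
    have e2 := lsh_le z r n hn'.1
    have hd : (1 : ℝ) ≤ (n.divisors.card : ℝ) := by
      have : 0 < n.divisors.card := card_pos.2 ⟨1, Nat.mem_divisors.2 ⟨one_dvd _, by omega⟩⟩
      exact_mod_cast this
    have e3 : |lsh z r n| ≤ L * n.divisors.card :=
      e2.trans (mul_le_mul_of_nonneg_right a3 (Nat.cast_nonneg _))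
    have e4 := hLam n hn
    have e5 : (0 : ℝ) ≤ ArithmeticFunction.vonMangoldt n := ArithmeticFunction.vonMangoldt_nonneg
    rw [← hLd]
    refine (abs_sub _ _).trans ?_
    rw [abs_of_nonneg e5]
    nlinarith
  · intro α
    rw [← hLd, ← hM]
    have e1 : ∑ n ∈ Icc 1 N, ((ArithmeticFunction.vonMangoldt n - lsh z r n : ℝ) : ℂ) *
        ee ((n : ℝ) * α) =
        ∑ n ∈ Icc 1 N, ((ArithmeticFunction.vonMangoldt n - lamz z n : ℝ) : ℂ) *
          ee ((n : ℝ) * α) +
        ∑ n ∈ Icc 1 N, ((lamz z n - lsh z r n : ℝ) : ℂ) * ee ((n : ℝ) * α) := by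
      rw [← sum_add_distrib]
      apply sum_congr rfl
      intro n _
      push_cast
      ring
    rw [e1]
    refine (norm_add_le _ _).trans ?_
    have e2 : ‖∑ n ∈ Icc 1 N, ((lamz z n - lsh z r n : ℝ) : ℂ) * ee ((n : ℝ) * α)‖ ≤
        N / L ^ (U + 2) := by
      refine le_trans ?_ hpart
      refine (norm_sum_le _ _).trans (sum_le_sum fun n _ => ?_)
      rw [norm_mul, norm_ee, mul_one, Complex.norm_real, Real.norm_eq_abs]
    linarith [a1 α]
  · intro q hq hqN
    rw [← hLd, ← hM]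
    have e1 : ∀ n ∈ (Icc 1 N).filter (fun n => ¬ n.Coprime q),
        |ArithmeticFunction.vonMangoldt n - lsh z r n| ≤ ArithmeticFunction.vonMangoldt n +
          lamz z n + |lamz z n - lsh z r n| := by
      intro n _
      have e5 : (0 : ℝ) ≤ ArithmeticFunction.vonMangoldt n := ArithmeticFunction.vonMangoldt_nonneg
      have e6 : 0 ≤ lamz z n := by
        unfold lamz
        split_ifs
        · exact hV0.le
        · exact le_rfl
      have e7 : ArithmeticFunction.vonMangoldt n - lsh z r n =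
          ArithmeticFunction.vonMangoldt n - lamz z n + (lamz z n - lsh z r n) := by ring
      rw [e7]
      refine (abs_add_le _ _).trans ?_
      have e8 : |ArithmeticFunction.vonMangoldt n - lamz z n| ≤
          ArithmeticFunction.vonMangoldt n + lamz z n := by
        refine (abs_sub _ _).trans ?_
        rw [abs_of_nonneg e5, abs_of_nonneg e6]
      linarith
    refine (sum_le_sum e1).trans ?_
    rw [sum_add_distrib, sum_add_distrib]
    have e2 : ∑ n ∈ (Icc 1 N).filter (fun n => ¬ n.Coprime q), |lamz z n - lsh z r n| ≤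
        N / L ^ (U + 2) :=
      (sum_le_sum_of_subset_of_nonneg (filter_subset _ _) fun n _ _ => abs_nonneg _).trans hpart
    have e3 : ∑ n ∈ (Icc 1 N).filter (fun n => ¬ n.Coprime q), lamz z n ≤ M / 100 := by
      refine (hlz q hq hqN).trans ?_
      calc (Nat.log 2 N : ℝ) * ((Vz z)⁻¹ * ((N : ℝ) / z)) ≤ (2 * L) * (L * (N / L ^ (U + 5))) := by
            gcongr
        _ = 2 * (N / L ^ (U + 3)) := by
            rw [show U + 5 = (U + 3) + 2 by ring, pow_add L (U + 3) 2]
            field_simp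
        _ ≤ M / 100 := by
            have e4 : (N : ℝ) / L ^ (U + 3) ≤ M / (100 * 100) := by
              rw [hM, div_div]
              apply div_le_div_of_nonneg_left hN0.le (by positivity)
              calc L ^ U * (100 * 100) ≤ L ^ U * (L * L) := by gcongr
                _ ≤ L ^ U * (L * L) * L := le_mul_of_one_le_right (by positivity) hL1
                _ = L ^ (U + 3) := by ring
            linarith
    have e4 := hvm q hq hqN
    linarith
  · intro q hq hqN
    rw [← hLd, ← hM]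
    have := hvm q hq hqN
    linarith
  · rw [← hLd, ← hM]
    linarith

end Pool.Agent.H579.E
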