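import Pool.Agent.H579.L.Uni
import Pool.Agent.H579.E.Mod
import Pool.Agent.H579.E.Model
import Pool.Graph.R_seed8.R460.GH.Err
import Pool.Graph.R_seed8.R453.GS.Wt0

set_option autoImplicit false

/-! Products of two primes, the first of which is small: characters on the major and on the minor arcs. -/

namespace Pool.Agent.H579.E

open Finset
open Pool.Agent.Y883.GJ Pool.Agent.R460.GS
open Pool.Agent.H807R2.Dav (ee)
open Pool.Agent.H373R2.T7 (lamz Vz lam_ap)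
open Pool.Agent.Y883.T3 (lsh)
open Pool.Agent.Y614.GJ.Core (ev_log)
open Pool.Agent.H579.L (cnv cnv_sum Cf minU majU)
open ArithmeticFunction (vonMangoldt)

/-- coefficients on the primes between two powers of `N` -/
structure Al (N : ℕ) (κ₁ κ₂ : ℝ) (α : ℕ → ℝ) : Prop where
  pr : ∀ p, α p ≠ 0 → p.Prime ∧ (N : ℝ) ^ κ₁ < p ∧ (p : ℝ) ≤ (N : ℝ) ^ κ₂
  bd : ∀ p, |α p| ≤ 1

/-- the convolution of `α` and the von Mangoldt function -/
noncomputable def e2 (α : ℕ → ℝ) (n : ℕ) : ℝ := ∑ d ∈ n.divisors, α d * vonMangoldt (n / d)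

/-- the mean value of `e2` -/
noncomputable def WA (N : ℕ) (α : ℕ → ℝ) : ℝ := ∑ p ∈ Icc 1 N, α p / p

noncomputable def E2 (α : ℕ → ℝ) (n : ℕ) : ℂ := ((e2 α n : ℝ) : ℂ)

/-- the difference of `e2` and the sieve model -/
noncomputable def g2 (N : ℕ) (α : ℕ → ℝ) (z r n : ℕ) : ℝ := e2 α n - WA N α * lsh z r n

noncomputable def G2 (N : ℕ) (α : ℕ → ℝ) (z r n : ℕ) : ℂ := ((g2 N α z r n : ℝ) : ℂ)

lemma lam_le_log {N n : ℕ} (hn : n ≤ N) (hN : 1 ≤ N) : vonMangoldt n ≤ Real.log N := by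
  rcases Nat.eq_zero_or_pos n with h | h
  · rw [h, ArithmeticFunction.map_zero]
    exact Real.log_natCast_nonneg N
  · exact ArithmeticFunction.vonMangoldt_le_log.trans (Real.log_le_log (by exact_mod_cast h) (by exact_mod_cast hn))

lemma e2_abs {N n : ℕ} {κ₁ κ₂ : ℝ} {α : ℕ → ℝ} (hα : Al N κ₁ κ₂ α) (hn : n ∈ Icc 1 N) :
    |e2 α n| ≤ Real.log N * (n.divisors.card : ℝ) := by
  rw [mem_Icc] at hn
  unfold e2
  calc |∑ d ∈ n.divisors, α d * vonMangoldt (n / d)| ≤ ∑ d ∈ n.divisors, Real.log N := by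
        refine (abs_sum_le_sum_abs _ _).trans (sum_le_sum fun d _ => ?_)
        rw [abs_mul, abs_of_nonneg ArithmeticFunction.vonMangoldt_nonneg]
        calc |α d| * vonMangoldt (n / d) ≤ 1 * Real.log N :=
              mul_le_mul (hα.bd d) (lam_le_log ((Nat.div_le_self n d).trans hn.2) (by omega))
                ArithmeticFunction.vonMangoldt_nonneg zero_le_one
          _ = _ := one_mul _
    _ = _ := by rw [sum_const, nsmul_eq_mul, mul_comm]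

/-- the second coefficient, normalised -/
noncomputable def lb (N m : ℕ) : ℂ := if m ≤ N then ((vonMangoldt m / Real.log N : ℝ) : ℂ) else 0

lemma cf_al {N : ℕ} {κ₁ κ₂ : ℝ} {α : ℕ → ℝ} (hα : Al N κ₁ κ₂ α) (hL : 1 ≤ Real.log N) (hN : 1 ≤ N) :
    Cf N κ₁ κ₂ (fun d => ((α d : ℝ) : ℂ)) (lb N) := by
  refine ⟨fun m hm => ?_, fun m => ?_, fun m => ?_⟩
  · have h1 : α m ≠ 0 := fun h => hm (by simp only [h, Complex.ofReal_zero])
    exact (hα.pr m h1).2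
  · rw [Complex.norm_real, Real.norm_eq_abs]
    exact hα.bd m
  · unfold lb
    split_ifs with h
    · rw [Complex.norm_real, Real.norm_eq_abs, abs_of_nonneg (div_nonneg ArithmeticFunction.vonMangoldt_nonneg (by linarith)),
        div_le_one (by linarith)]
      exact lam_le_log h hN
    · simp

lemma E2_eq {N n : ℕ} {α : ℕ → ℝ} (hL : 1 ≤ Real.log N) (hn : n ≤ N) :
    E2 α n = (Real.log N : ℂ) * cnv (fun d => ((α d : ℝ) : ℂ)) (lb N) n := by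
  have hL0 : (Real.log N : ℂ) ≠ 0 := by
    have : Real.log N ≠ 0 := by linarith
    exact_mod_cast this
  unfold E2 e2 cnv
  rw [mul_sum, Complex.ofReal_sum]
  refine sum_congr rfl fun d _ => ?_
  unfold lb
  rw [if_pos ((Nat.div_le_self n d).trans hn), Complex.ofReal_mul, Complex.ofReal_div]
  field_simp

lemma cs_E2 {q N y : ℕ} {α : ℕ → ℝ} (hL : 1 ≤ Real.log N) (hy : y ≤ N) (β : ℝ) (χ : DirichletCharacter ℂ q) :
    cs q y (E2 α) β χ = (Real.log N : ℂ) * cs q y (cnv (fun d => ((α d : ℝ) : ℂ)) (lb N)) β χ := by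
  unfold cs
  rw [mul_sum]
  refine sum_congr rfl fun n hn => ?_
  rw [mem_Icc] at hn
  rw [E2_eq hL (hn.2.trans hy)]
  ring

lemma sum_E2 {q N y A : ℕ} {α : ℕ → ℝ} (hL : 1 ≤ Real.log N) (hy : y ≤ N) (β : ℝ)
    (S : Finset (DirichletCharacter ℂ q))
    (h : ∑ χ ∈ S, ‖cs q y (cnv (fun d => ((α d : ℝ) : ℂ)) (lb N)) β χ‖ ^ 2 ≤ (N : ℝ) ^ 2 / Real.log N ^ (A + 2)) :
    ∑ χ ∈ S, ‖cs q y (E2 α) β χ‖ ^ 2 ≤ (N : ℝ) ^ 2 / Real.log N ^ A := by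
  have hL0 : 0 < Real.log N := by linarith
  calc ∑ χ ∈ S, ‖cs q y (E2 α) β χ‖ ^ 2 =
      Real.log N ^ 2 * ∑ χ ∈ S, ‖cs q y (cnv (fun d => ((α d : ℝ) : ℂ)) (lb N)) β χ‖ ^ 2 := by
        rw [mul_sum]
        refine sum_congr rfl fun χ _ => ?_
        rw [cs_E2 hL hy, norm_mul, mul_pow, Complex.norm_real, Real.norm_of_nonneg hL0.le]
    _ ≤ Real.log N ^ 2 * ((N : ℝ) ^ 2 / Real.log N ^ (A + 2)) := by gcongr
    _ = _ := by
        rw [pow_add]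
        field_simp

lemma e710 (κ : ℝ) : (7 / 10 - (-(3 / 10) + 4 * κ) : ℝ) = 1 - 4 * κ := by ring

/-- major arcs -/
theorem majE (A C : ℕ) {κ κ₁ κ₂ : ℝ} (hκ : 0 < κ) (h1 : 0 < κ₁) (h2 : κ₂ ≤ 4 * κ) (h3 : κ₂ ≤ 1 / 2) :
    ∃ C₃ N₀ : ℕ, ∀ N : ℕ, N₀ ≤ N → ∀ α : ℕ → ℝ, Al N κ₁ κ₂ α → MajAt N (-(3 / 10) + 4 * κ) A C C₃ (E2 α) := by
  classical
  obtain ⟨C₃, N₁, hB⟩ := majU (A + 2) C (κ₁ := κ₁) (κ₂ := κ₂) (θ := 1 - 4 * κ) h1 (by linarith) h3 (by linarith)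
  obtain ⟨N₂, hN₂⟩ := Filter.eventually_atTop.1 (ev_log 1 (s := 1) (by norm_num) 2)
  refine ⟨C₃ + 1, N₁ + N₂ + 1, fun N hN α hα q _ hq => ?_⟩
  obtain ⟨hL, -⟩ := hN₂ N (by omega)
  have hL1 : 1 ≤ Real.log N := by linarith
  rw [e710] at hq
  obtain ⟨B, hB1, hB2⟩ := hB N (by omega) q hq _ _ (cf_al hα hL1 (by omega))
  refine ⟨insert 1 B, mem_insert_self _ _, ?_, fun η hη y hy S hS => ?_⟩
  · have h4 : ((insert 1 B).card : ℝ) ≤ B.card + 1 := by exact_mod_cast card_insert_le _ _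
    have h5 : 1 ≤ Real.log N ^ C₃ := one_le_pow₀ hL1
    calc ((insert 1 B).card : ℝ) ≤ 2 * Real.log N ^ C₃ := by linarith
      _ ≤ Real.log N * Real.log N ^ C₃ := by gcongr
      _ = Real.log N ^ (C₃ + 1) := by ring
  · refine sum_E2 hL1 hy η S (hB2 η hη y hy S ?_)
    exact disjoint_of_subset_right (subset_insert _ _) hS

/-- minor arcs -/
theorem minE (A : ℕ) {κ κ₁ κ₂ : ℝ} (h1 : 0 < κ₁) (h2 : κ₂ < 4 * κ) (h3 : κ₂ ≤ 1) :
    ∃ C N₀ : ℕ, ∀ N : ℕ, N₀ ≤ N → ∀ α : ℕ → ℝ, Al N κ₁ κ₂ α → MinAt N (-(3 / 10) + 4 * κ) A C (E2 α) := by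
  obtain ⟨C, N₁, hB⟩ := minU (A + 2) (κ₁ := κ₁) (κ₂ := κ₂) (θ := 1 - 4 * κ) h1 h3 (by linarith)
  obtain ⟨N₂, hN₂⟩ := Filter.eventually_atTop.1 (ev_log 1 (s := 1) (by norm_num) 2)
  refine ⟨C, N₁ + N₂ + 1, fun N hN α hα q _ hq k h β k1 k2 k3 k4 y hy => ?_⟩
  obtain ⟨hL, -⟩ := hN₂ N (by omega)
  have hL1 : 1 ≤ Real.log N := by linarith
  rw [e710] at hq
  exact sum_E2 hL1 hy β univ (hB N (by omega) q hq _ _ (cf_al hα hL1 (by omega)) k h β k1 k2 k3 k4 y hy)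

/-- `Σ 1 / p` is bounded -/
lemma sup_W {κ₁ κ₂ : ℝ} (h1 : 0 < κ₁) (h2 : κ₁ ≤ κ₂) : ∃ (c : ℝ) (N₀ : ℕ), 0 ≤ c ∧ ∀ N : ℕ, N₀ ≤ N →
    ∀ α : ℕ → ℝ, Al N κ₁ κ₂ α → ∑ p ∈ Icc 1 N, |α p| / p ≤ c ∧ |WA N α| ≤ c := by
  obtain ⟨N₀, h⟩ := Filter.eventually_atTop.1 (Pool.Agent.R453.GS.sum_pow h1 h2 (ε := 1) one_pos)
  have hc : 0 ≤ Real.log (κ₂ / κ₁) := Real.log_nonneg (by rwa [_root_.one_le_div h1])
  refine ⟨Real.log (κ₂ / κ₁) + 1, N₀, by linarith, fun N hN α hα => ?_⟩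
  have h3 : ∑ p ∈ Icc 1 N, |α p| / p ≤ Real.log (κ₂ / κ₁) + 1 := by
    refine le_trans ?_ (h N hN)
    calc ∑ p ∈ Icc 1 N, |α p| / p = ∑ p ∈ (Icc 1 N).filter (fun p => α p ≠ 0), |α p| / p := by
          rw [sum_filter]
          refine sum_congr rfl fun p _ => ?_
          split_ifs with h4
          · rfl
          · rw [not_not] at h4
            rw [h4]
            simp
      _ ≤ ∑ p ∈ (Icc 1 N).filter (fun p => α p ≠ 0), 1 / (p : ℝ) := by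
          refine sum_le_sum fun p _ => ?_
          exact div_le_div_of_nonneg_right (hα.bd p) (Nat.cast_nonneg _)
      _ ≤ _ := by
          refine sum_le_sum_of_subset_of_nonneg (fun p hp => ?_) fun _ _ _ => by positivity
          rw [mem_filter] at hp ⊢
          obtain ⟨e1, e2, e3⟩ := hα.pr p hp.2
          refine ⟨?_, e1⟩
          rw [mem_Ioc]
          exact ⟨(Nat.floor_lt (by positivity)).2 e2, Nat.le_floor e3⟩
  refine ⟨h3, ?_⟩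
  refine le_trans ?_ h3
  unfold WA
  refine (abs_sum_le_sum_abs _ _).trans (sum_le_sum fun p _ => ?_)
  rw [abs_div, Nat.abs_cast]

lemma G2_eq (N : ℕ) (α : ℕ → ℝ) (z r : ℕ) :
    G2 N α z r = fun n => E2 α n - ((WA N α : ℝ) : ℂ) * LS z r n := by
  funext n
  unfold G2 g2 E2 LS
  push_cast
  ring

lemma sum_wLS {q N y A : ℕ} {w c : ℝ} (hw : |w| ≤ c) (hc : c ≤ Real.log N) (hL : 1 ≤ Real.log N) (z r : ℕ) (β : ℝ)
    (S : Finset (DirichletCharacter ℂ q))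
    (h : ∑ χ ∈ S, ‖cs q y (LS z r) β χ‖ ^ 2 ≤ (N : ℝ) ^ 2 / Real.log N ^ (A + 2)) :
    ∑ χ ∈ S, ‖cs q y (fun n => ((w : ℝ) : ℂ) * LS z r n) β χ‖ ^ 2 ≤ (N : ℝ) ^ 2 / Real.log N ^ A := by
  have hL0 : 0 < Real.log N := by linarith
  calc ∑ χ ∈ S, ‖cs q y (fun n => ((w : ℝ) : ℂ) * LS z r n) β χ‖ ^ 2 =
      |w| ^ 2 * ∑ χ ∈ S, ‖cs q y (LS z r) β χ‖ ^ 2 := by
        rw [mul_sum]
        refine sum_congr rfl fun χ _ => ?_
        have e : cs q y (fun n => ((w : ℝ) : ℂ) * LS z r n) β χ = ((w : ℝ) : ℂ) * cs q y (LS z r) β χ := by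
          unfold cs
          rw [mul_sum]
          refine sum_congr rfl fun n _ => ?_
          ring
        rw [e, norm_mul, mul_pow, Complex.norm_real, Real.norm_eq_abs]
    _ ≤ Real.log N ^ 2 * ((N : ℝ) ^ 2 / Real.log N ^ (A + 2)) := by
        gcongr
        exact hw.trans hc
    _ = _ := by
        rw [pow_add]
        field_simp

lemma majG {N A C C₃ z r : ℕ} {κ c : ℝ} {α : ℕ → ℝ} (hL : 2 ≤ Real.log N) (hw : |WA N α| ≤ c) (hc : c ≤ Real.log N)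
    (hG : MajAt N (-(3 / 10) + 4 * κ) (A + 2) C C₃ (E2 α))
    (hH : ∀ (q : ℕ) [NeZero q], (q : ℝ) ≤ (N : ℝ) ^ (7 / 10 - (-(3 / 10) + 4 * κ)) →
      ∀ η : ℝ, |η| ≤ Real.log N ^ C / N → ∀ y : ℕ, y ≤ N →
      ∀ S : Finset (DirichletCharacter ℂ q), 1 ∉ S →
        ∑ χ ∈ S, ‖cs q y (LS z r) η χ‖ ^ 2 ≤ (N : ℝ) ^ 2 / Real.log N ^ (A + 2 + 2)) :
    MajAt N (-(3 / 10) + 4 * κ) A C C₃ (G2 N α z r) := by
  intro q _ hq
  obtain ⟨B, hB1, hBc, hB⟩ := hG q hq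
  refine ⟨B, hB1, hBc, fun η hη y hy S hS => ?_⟩
  have h1 := hB η hη y hy S hS
  have h2 := sum_wLS hw hc (by linarith) z r η S (hH q hq η hη y hy S (fun h => disjoint_left.1 hS h hB1))
  rw [G2_eq]
  exact (sq_sub_sum (E2 α) (fun n => ((WA N α : ℝ) : ℂ) * LS z r n) η S h1 h2).trans (four_le hL)

lemma minG {N A C C' z r : ℕ} {κ c : ℝ} {α : ℕ → ℝ} (hL : 2 ≤ Real.log N) (hw : |WA N α| ≤ c) (hc : c ≤ Real.log N)
    (hG : MinAt N (-(3 / 10) + 4 * κ) (A + 2) C (E2 α))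
    (hH : MinAt N (-(3 / 10) + 4 * κ) (A + 2 + 2) C' (LS z r)) :
    MinAt N (-(3 / 10) + 4 * κ) A (max C C') (G2 N α z r) := by
  have h1 := min_mono (by linarith) (le_max_left C C') hG
  have h2 := min_mono (by linarith) (le_max_right C C') hH
  intro q _ hq k hh β k1 k2 k3 k4 y hy
  rw [G2_eq]
  exact (sq_sub_sum (E2 α) (fun n => ((WA N α : ℝ) : ℂ) * LS z r n) β univ (h1 q hq k hh β k1 k2 k3 k4 y hy)
    (sum_wLS hw hc (by linarith) z r β univ (h2 q hq k hh β k1 k2 k3 k4 y hy))).trans (four_le hL)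

lemma bdG {U N z r : ℕ} {κ₁ κ₂ c : ℝ} {α : ℕ → ℝ} (hα : Al N κ₁ κ₂ α) (hw : |WA N α| ≤ c) (hP : Par U N z r)
    (hL : 1 + 3 * c ≤ Real.log N) : BdAt N (G2 N α z r) := by
  intro n hn
  have h1 := e2_abs hα hn
  have h2 := lsh_abs hP hn
  have h3 := one_le_div hn
  have hc : 0 ≤ c := (abs_nonneg _).trans hw
  have hL1 : 1 ≤ Real.log N := by linarith
  unfold G2 g2
  rw [Complex.norm_real, Real.norm_eq_abs]
  calc |e2 α n - WA N α * lsh z r n| ≤ |e2 α n| + |WA N α| * |lsh z r n| := by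
        refine (abs_sub _ _).trans ?_
        rw [abs_mul]
    _ ≤ Real.log N * (n.divisors.card : ℝ) + c * (3 * Real.log N * (n.divisors.card : ℝ)) := by
        gcongr
    _ = (1 + 3 * c) * (Real.log N * (n.divisors.card : ℝ)) := by ring
    _ ≤ Real.log N * (Real.log N * (n.divisors.card : ℝ)) := by gcongr
    _ = _ := by ring

end Pool.Agent.H579.E
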