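import Pool.Agent.H579.E.FinS
import Pool.Graph.R_seed8.R460.GP.Win

set_option autoImplicit false

/-! Differences of a prime and of a product of two primes: the asymptotic formula in the residue classes. -/

namespace Pool.Agent.H579.E

open Finset
open Pool.Agent.Y883.GJ Pool.Agent.R460.GS
open Pool.Agent.R460.GP (cvd winP_main)
open Pool.Agent.H373R2.T7 (lamz Vz lam_ap lamz_ap)
open Pool.Agent.Y883.T3 (lsh)
open Pool.Agent.Y614.GJ.Core (ev_log)
open Pool.Agent.H560R3.GB (sing)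
open ArithmeticFunction (vonMangoldt)

/-- the correlation -/
noncomputable def cR (x : ℕ) (g : ℕ → ℝ) (h : ℤ) : ℝ :=
  ∑ c ∈ Icc 1 x, vonMangoldt ((c : ℤ) + h).toNat * g c

lemma cR_add (x : ℕ) (g k : ℕ → ℝ) (h : ℤ) : cR x (fun c => g c + k c) h = cR x g h + cR x k h := by
  unfold cR
  rw [← sum_add_distrib]
  exact sum_congr rfl fun c _ => by ring

lemma cR_smul (x : ℕ) (w : ℝ) (g : ℕ → ℝ) (h : ℤ) : cR x (fun c => w * g c) h = w * cR x g h := by
  unfold cR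
  rw [mul_sum]
  exact sum_congr rfl fun c _ => by ring

lemma norm_cvd {x : ℕ} {h : ℤ} (hh : h ≤ x) (N : ℕ) (hN : N = 2 * x) (α : ℕ → ℝ) (z r : ℕ) :
    ‖cvd LA (G2 N α z r) N x h‖ = |cR x (g2 N α z r) h| := by
  have h3 : ((cR x (g2 N α z r) h : ℝ) : ℂ) = cvd LA (G2 N α z r) N x h := by
    unfold cvd LA G2 cR
    rw [sum_comm, Complex.ofReal_sum]
    refine sum_congr rfl fun c hc => ?_
    rw [mem_Icc] at hc
    by_cases h1 : 1 ≤ (c : ℤ) + h
    · rw [sum_eq_single ((c : ℤ) + h).toNat]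
      · rw [if_pos (by omega), Complex.ofReal_mul, Complex.conj_ofReal]
      · intro b _ hb
        rw [if_neg (by omega)]
      · intro hn
        exact absurd (mem_Icc.2 ⟨by omega, by omega⟩) hn
    · have e0 : ((c : ℤ) + h).toNat = 0 := by omega
      rw [e0, ArithmeticFunction.map_zero, zero_mul, Complex.ofReal_zero]
      symm
      refine sum_eq_zero fun b hb => ?_
      rw [mem_Icc] at hb
      rw [if_neg (by omega)]
  rw [← h3, Complex.norm_real, Real.norm_eq_abs]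

/-- the number of representations with weights -/
noncomputable def repD (x : ℕ) (α : ℕ → ℝ) (h : ℤ) : ℝ :=
  ∑ p ∈ Icc 1 x, α p * ∑ m ∈ (Icc 1 x).filter (fun m => m.Prime ∧ p * m ≤ x ∧ (((p * m : ℕ) : ℤ) + h).toNat.Prime),
    Real.log m * Real.log (((p * m : ℕ) : ℤ) + h).toNat

lemma rl_swapD (x : ℕ) (α : ℕ → ℝ) (h : ℤ) : cR x (e2 α) h =
    ∑ p ∈ Icc 1 x, α p * ∑ m ∈ Icc 1 (x / p), vonMangoldt m * vonMangoldt (((p * m : ℕ) : ℤ) + h).toNat := by
  have h1 := Pool.Agent.R460.GS.dirV (V := ℝ) x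
    (fun d m => α d * (vonMangoldt m * vonMangoldt (((d * m : ℕ) : ℤ) + h).toNat))
  have e : cR x (e2 α) h = ∑ c ∈ Icc 1 x, ∑ d ∈ c.divisors,
      α d * (vonMangoldt (c / d) * vonMangoldt (((d * (c / d) : ℕ) : ℤ) + h).toNat) := by
    unfold cR
    refine sum_congr rfl fun c _ => ?_
    unfold e2
    rw [mul_sum]
    refine sum_congr rfl fun d hd => ?_
    rw [Nat.mem_divisors] at hd
    rw [Nat.mul_div_cancel' hd.1]
    ring
  rw [e, h1]
  refine sum_congr rfl fun d _ => ?_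
  rw [mul_sum]

/-- from the von Mangoldt function to primes -/
lemma pp_diffD {x N p : ℕ} {h : ℤ} (hh : h ≤ x) (hN : N = 2 * x) (hx : 1 ≤ x) (hp : 1 ≤ p) :
    |∑ m ∈ Icc 1 (x / p), vonMangoldt m * vonMangoldt (((p * m : ℕ) : ℤ) + h).toNat -
      ∑ m ∈ (Icc 1 x).filter (fun m => m.Prime ∧ p * m ≤ x ∧ (((p * m : ℕ) : ℤ) + h).toNat.Prime),
        Real.log m * Real.log (((p * m : ℕ) : ℤ) + h).toNat| ≤ 4 * Real.log N * (Real.sqrt N * Real.log N) := by
  classical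
  have hN1 : 1 ≤ N := by omega
  have hlog : 0 ≤ Real.log N := Real.log_natCast_nonneg _
  obtain ⟨M, hM⟩ : ∃ M, M = x / p := ⟨_, rfl⟩
  rw [← hM]
  have hlt : ∀ m, m ∈ Icc 1 M → p * m ≤ x := by
    intro m hm
    rw [mem_Icc] at hm
    have h1 : p * m ≤ p * (x / p) := by rw [← hM]; exact Nat.mul_le_mul_left _ hm.2
    have h2 := Nat.mul_div_le x p
    omega
  have hset : (Icc 1 x).filter (fun m => m.Prime ∧ p * m ≤ x ∧ (((p * m : ℕ) : ℤ) + h).toNat.Prime) =
      (Icc 1 M).filter (fun m => m.Prime ∧ (((p * m : ℕ) : ℤ) + h).toNat.Prime) := by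
    ext m
    rw [mem_filter, mem_filter]
    constructor
    · rintro ⟨h1, h2, h3, h4⟩
      rw [mem_Icc] at h1
      refine ⟨mem_Icc.2 ⟨h1.1, ?_⟩, h2, h4⟩
      rw [hM, Nat.le_div_iff_mul_le hp, mul_comm]
      omega
    · rintro ⟨h1, h2, h3⟩
      have h4 := hlt m h1
      rw [mem_Icc] at h1
      refine ⟨mem_Icc.2 ⟨h1.1, ?_⟩, h2, h4, h3⟩
      nlinarith
  rw [hset, sum_filter, ← sum_sub_distrib]
  have hL : ∀ m, m ≤ N → vonMangoldt m ≤ Real.log N := fun m hm => lam_le_log hm hN1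
  calc |∑ m ∈ Icc 1 M, (vonMangoldt m * vonMangoldt (((p * m : ℕ) : ℤ) + h).toNat -
        if m.Prime ∧ (((p * m : ℕ) : ℤ) + h).toNat.Prime then
          Real.log m * Real.log (((p * m : ℕ) : ℤ) + h).toNat else 0)| ≤
      ∑ m ∈ Icc 1 M, ((if ¬ m.Prime then vonMangoldt m * Real.log N else 0) +
        (if ¬ (((p * m : ℕ) : ℤ) + h).toNat.Prime then
          Real.log N * vonMangoldt (((p * m : ℕ) : ℤ) + h).toNat else 0)) := by
        refine (abs_sum_le_sum_abs _ _).trans (sum_le_sum fun m hm => ?_)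
        have h1 := hlt m hm
        rw [mem_Icc] at hm
        have hmN : m ≤ N := by nlinarith
        have hbN : (((p * m : ℕ) : ℤ) + h).toNat ≤ N := by omega
        obtain ⟨b, hb⟩ : ∃ b, b = (((p * m : ℕ) : ℤ) + h).toNat := ⟨_, rfl⟩
        rw [← hb] at hbN ⊢
        have hnn1 : 0 ≤ vonMangoldt m := ArithmeticFunction.vonMangoldt_nonneg
        have hnn2 : 0 ≤ vonMangoldt b := ArithmeticFunction.vonMangoldt_nonneg
        by_cases h2 : m.Prime
        · by_cases h3 : b.Prime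
          · rw [if_pos ⟨h2, h3⟩, if_neg (not_not.2 h2), if_neg (not_not.2 h3),
              ArithmeticFunction.vonMangoldt_apply_prime h2, ArithmeticFunction.vonMangoldt_apply_prime h3]
            simp
          · rw [if_neg (fun h => h3 h.2), if_neg (not_not.2 h2), if_pos h3, sub_zero, zero_add,
              abs_of_nonneg (mul_nonneg hnn1 hnn2)]
            gcongr
            exact hL m hmN
        · rw [if_neg (fun h => h2 h.1), if_pos h2, sub_zero, abs_of_nonneg (mul_nonneg hnn1 hnn2)]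
          have h4 : vonMangoldt m * vonMangoldt b ≤ vonMangoldt m * Real.log N :=
            mul_le_mul_of_nonneg_left (hL _ hbN) hnn1
          have h5 : 0 ≤ (if ¬ b.Prime then Real.log N * vonMangoldt b else 0) := by
            split_ifs
            · exact le_rfl
            · positivity
          linarith
    _ = Real.log N * ∑ m ∈ (Icc 1 M).filter (fun m => ¬ m.Prime), vonMangoldt m +
        Real.log N * ∑ m ∈ (Icc 1 M).filter (fun m => ¬ (((p * m : ℕ) : ℤ) + h).toNat.Prime),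
          vonMangoldt (((p * m : ℕ) : ℤ) + h).toNat := by
        rw [sum_add_distrib, ← sum_filter, ← sum_filter, mul_sum, mul_sum]
        congr 1
        refine sum_congr rfl fun m _ => ?_
        ring
    _ ≤ Real.log N * ∑ m ∈ (Icc 1 N).filter (fun m => ¬ m.Prime), vonMangoldt m +
        Real.log N * ∑ m ∈ (Icc 1 N).filter (fun m => ¬ m.Prime), vonMangoldt m := by
        have hMN : M ≤ N := by
          rw [hM]
          exact (Nat.div_le_self _ _).trans (by omega)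
        gcongr ?_ + ?_
        · exact mul_le_mul_of_nonneg_left (sum_le_sum_of_subset_of_nonneg (filter_subset_filter _
            (Icc_subset_Icc le_rfl hMN)) fun _ _ _ => ArithmeticFunction.vonMangoldt_nonneg) hlog
        · refine mul_le_mul_of_nonneg_left ?_ hlog
          have hsplit : ∑ m ∈ (Icc 1 M).filter (fun m => ¬ (((p * m : ℕ) : ℤ) + h).toNat.Prime),
              vonMangoldt (((p * m : ℕ) : ℤ) + h).toNat =
              ∑ m ∈ (Icc 1 M).filter (fun m => ¬ (((p * m : ℕ) : ℤ) + h).toNat.Prime ∧ 1 ≤ ((p * m : ℕ) : ℤ) + h),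
              vonMangoldt (((p * m : ℕ) : ℤ) + h).toNat := by
            symm
            refine sum_subset (fun m hm => ?_) (fun m hm hm' => ?_)
            · rw [mem_filter] at hm ⊢
              exact ⟨hm.1, hm.2.1⟩
            · rw [mem_filter] at hm hm'
              have h6 : ¬ 1 ≤ ((p * m : ℕ) : ℤ) + h := fun h7 => hm' ⟨hm.1, hm.2, h7⟩
              have h7 : (((p * m : ℕ) : ℤ) + h).toNat = 0 := by omega
              rw [h7, ArithmeticFunction.map_zero]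
          rw [hsplit]
          have hinj : Set.InjOn (fun m => (((p * m : ℕ) : ℤ) + h).toNat)
              ((Icc 1 M).filter (fun m => ¬ (((p * m : ℕ) : ℤ) + h).toNat.Prime ∧ 1 ≤ ((p * m : ℕ) : ℤ) + h) :
                Finset ℕ) := by
            intro m hm m' hm' h0
            rw [mem_coe, mem_filter] at hm hm'
            have h3 : (((p * m : ℕ) : ℤ) + h).toNat = (((p * m' : ℕ) : ℤ) + h).toNat := h0
            have h4 : p * m = p * m' := by omega
            exact Nat.eq_of_mul_eq_mul_left (by omega) h4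
          rw [← sum_image (f := fun k => vonMangoldt k) hinj]
          refine sum_le_sum_of_subset_of_nonneg (fun k hk => ?_) fun _ _ _ => ArithmeticFunction.vonMangoldt_nonneg
          rw [mem_image] at hk
          obtain ⟨m, hm, rfl⟩ := hk
          rw [mem_filter] at hm ⊢
          have h1 := hlt m hm.1
          exact ⟨mem_Icc.2 ⟨by omega, by omega⟩, hm.2.1⟩
    _ ≤ Real.log N * (2 * Real.sqrt N * Real.log N) + Real.log N * (2 * Real.sqrt N * Real.log N) := by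
        have := psi_bd hN1
        gcongr
    _ = _ := by ring

/-- prime powers are negligible -/
lemma rep_nearD {x N : ℕ} {h : ℤ} {κ₁ κ₂ : ℝ} {α : ℕ → ℝ} (hh : h ≤ x) (hN : N = 2 * x) (hx : 1 ≤ x)
    (hα : Al N κ₁ κ₂ α) :
    |cR x (e2 α) h - repD x α h| ≤ (N : ℝ) ^ κ₂ * (4 * Real.log N * (Real.sqrt N * Real.log N)) := by
  rw [rl_swapD]
  unfold repD
  rw [← sum_sub_distrib]
  calc _ ≤ ∑ p ∈ Icc 1 x, |α p| * (4 * Real.log N * (Real.sqrt N * Real.log N)) := by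
        refine (abs_sum_le_sum_abs _ _).trans (sum_le_sum fun p hp => ?_)
        rw [mem_Icc] at hp
        rw [← mul_sub, abs_mul]
        exact mul_le_mul_of_nonneg_left (pp_diffD hh hN hx hp.1) (abs_nonneg _)
    _ = (∑ p ∈ Icc 1 x, |α p|) * (4 * Real.log N * (Real.sqrt N * Real.log N)) := by rw [sum_mul]
    _ ≤ (∑ p ∈ Icc 1 N, |α p|) * (4 * Real.log N * (Real.sqrt N * Real.log N)) := by
        have hlog : 0 ≤ Real.log N := Real.log_natCast_nonneg _
        refine mul_le_mul_of_nonneg_right ?_ (by positivity)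
        exact sum_le_sum_of_subset_of_nonneg (Icc_subset_Icc le_rfl (by omega)) fun _ _ _ => abs_nonneg _
    _ ≤ _ := by
        have hlog : 0 ≤ Real.log N := Real.log_natCast_nonneg _
        exact mul_le_mul_of_nonneg_right (sum_alpha hα) (by positivity)

lemma cR_small {x N : ℕ} {h : ℤ} (hh : h ≤ x) (hN : N = 2 * x) (hx : 1 ≤ x) (g : ℕ → ℝ) :
    |cR x g h| ≤ Real.log N * ∑ c ∈ Icc 1 N, |g c| := by
  unfold cR
  rw [mul_sum]
  calc _ ≤ ∑ c ∈ Icc 1 x, Real.log N * |g c| := by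
        refine (abs_sum_le_sum_abs _ _).trans (sum_le_sum fun c hc => ?_)
        rw [mem_Icc] at hc
        rw [abs_mul, abs_of_nonneg ArithmeticFunction.vonMangoldt_nonneg]
        exact mul_le_mul_of_nonneg_right (lam_le_log (by omega) (by omega)) (abs_nonneg _)
    _ ≤ _ := by
        have hlog : 0 ≤ Real.log N := Real.log_natCast_nonneg _
        exact sum_le_sum_of_subset_of_nonneg (Icc_subset_Icc le_rfl (by omega)) fun _ _ _ => by positivity

/-- the number of `c ≤ x` with `c + h > 0` -/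
noncomputable def len (x : ℕ) (h : ℤ) : ℝ := (x : ℝ) - (max 0 (-h) : ℤ)

lemma main_cR (V E1 : ℕ) (hE1 : V + 6 ≤ E1) : ∃ N₀ : ℕ, ∀ x : ℕ, N₀ ≤ x → ∀ N : ℕ, N = 2 * x → ∀ h : ℤ,
    h ≠ 0 → |h| ≤ x → 2 ∣ h → ∀ z : ℕ, Real.log N ^ E1 ≤ z → (z : ℝ) ≤ Real.log N ^ (E1 + 1) →
    |cR x (lamz z) h - sing h.natAbs * len x h| ≤ 4 * (N / Real.log N ^ (V + 2)) ∧ 0 ≤ sing h.natAbs ∧
    sing h.natAbs ≤ 2 * Real.log N := by
  obtain ⟨N₁, h1⟩ := winP_main V E1 hE1
  refine ⟨N₁ + 1, fun x hx N hN h h0 hh h2 z hz1 hz2 => ?_⟩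
  have hd2 : 2 ∣ h.natAbs := by omega
  have habs : (h.natAbs : ℤ) = |h| := Int.natCast_natAbs h
  obtain ⟨hwin, hs0, hs2⟩ := h1 N (by omega) h.natAbs (by omega) hd2 (by omega) z hz1 hz2
  refine ⟨?_, hs0, hs2⟩
  rcases lt_or_ge h 0 with hneg | hpos
  · have e1 : h.natAbs ≤ x := by omega
    have e2 := (hwin (x - h.natAbs) (by omega)).1
    have e3 : len x h = ((x - h.natAbs : ℕ) : ℝ) := by
      unfold len
      rw [Nat.cast_sub e1]
      congr 1
      have : max 0 (-h) = (h.natAbs : ℤ) := by omega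
      rw [this, Int.cast_natCast]
    rw [e3]
    have e4 : cR x (lamz z) h = ∑ n ∈ Icc 1 (x - h.natAbs), vonMangoldt n * lamz z (n + h.natAbs) := by
      unfold cR
      have e5 : ∑ c ∈ Icc 1 x, vonMangoldt ((c : ℤ) + h).toNat * lamz z c =
          ∑ c ∈ (Icc 1 x).filter (fun c => h.natAbs < c), vonMangoldt ((c : ℤ) + h).toNat * lamz z c := by
        symm
        refine sum_subset (filter_subset _ _) (fun c hc hc' => ?_)
        rw [mem_filter] at hc'
        have h6 : ¬ h.natAbs < c := fun h7 => hc' ⟨hc, h7⟩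
        have h7 : ((c : ℤ) + h).toNat = 0 := by omega
        rw [h7, ArithmeticFunction.map_zero, zero_mul]
      rw [e5]
      symm
      refine sum_bij (fun n _ => n + h.natAbs) ?_ ?_ ?_ ?_
      · intro n hn
        rw [mem_Icc] at hn
        rw [mem_filter, mem_Icc]
        omega
      · intro n _ n' _ h8
        omega
      · intro c hc
        rw [mem_filter, mem_Icc] at hc
        exact ⟨c - h.natAbs, mem_Icc.2 ⟨by omega, by omega⟩, by omega⟩
      · intro n hn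
        have h8 : (((n + h.natAbs : ℕ) : ℤ) + h).toNat = n := by omega
        rw [h8]
    rw [e4]
    exact e2
  · have e2 := (hwin x (by omega)).2.1
    have e3 : len x h = (x : ℝ) := by
      unfold len
      have : max 0 (-h) = 0 := by omega
      rw [this]
      simp
    rw [e3]
    have e4 : cR x (lamz z) h = ∑ n ∈ Icc 1 x, lamz z n * vonMangoldt (n + h.natAbs) := by
      unfold cR
      refine sum_congr rfl fun n _ => ?_
      have h8 : ((n : ℤ) + h).toNat = n + h.natAbs := by omega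
      rw [h8, mul_comm]
    rw [e4]
    exact e2

/-- the formula for one even integer -/
theorem form_nearD (V E1 : ℕ) (hE1 : V + 6 ≤ E1) {κ₁ κ₂ : ℝ} (h0 : 0 < κ₁) (h01 : κ₁ ≤ κ₂) (h2 : κ₂ ≤ 1 / 5) :
    ∃ N₀ : ℕ, ∀ x : ℕ, N₀ ≤ x → ∀ N : ℕ, N = 2 * x → ∀ z r : ℕ, Real.log N ^ E1 ≤ z →
    (z : ℝ) ≤ Real.log N ^ (E1 + 1) →
    ∑ n ∈ Icc 1 N, |lamz z n - lsh z r n| ≤ N / Real.log N ^ (V + 3) →
    ∀ α : ℕ → ℝ, Al N κ₁ κ₂ α → ∀ h : ℤ, h ≠ 0 → |h| ≤ x → 2 ∣ h →
    |repD x α h - sing h.natAbs * len x h * WA N α| ≤ ‖cvd LA (G2 N α z r) N x h‖ + N / Real.log N ^ V := by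
  obtain ⟨N₁, h1⟩ := main_cR V E1 hE1
  obtain ⟨b, N₂, hb0, hb⟩ := sup_W (κ₁ := κ₁) (κ₂ := κ₂) h0 h01
  obtain ⟨N₃, hN₃⟩ := Filter.eventually_atTop.1 (ev_log (V + 3) (s := 1 / 5) (by norm_num) (8 * b + 16))
  refine ⟨N₁ + N₂ + N₃ + 1, fun x hx N hN z r hz1 hz2 hsum α hα h hh0 hh hh2 => ?_⟩
  obtain ⟨hL, hLp⟩ := hN₃ N (by omega)
  obtain ⟨-, hw⟩ := hb N (by omega) α hα
  obtain ⟨hmain, hs0, hs2⟩ := h1 x (by omega) N hN h hh0 hh hh2 z hz1 hz2
  have hx1 : 1 ≤ x := by omega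
  have hhx : h ≤ x := (le_abs_self h).trans hh
  have hN1 : 1 ≤ N := by omega
  have hNr1 : (1 : ℝ) ≤ N := by exact_mod_cast hN1
  have hN0 : (0 : ℝ) < N := by linarith
  have k1 := rep_nearD (κ₁ := κ₁) (κ₂ := κ₂) hhx hN hx1 hα
  have k2 : cR x (e2 α) h = cR x (g2 N α z r) h +
      WA N α * (cR x (lamz z) h + cR x (fun c => lsh z r c - lamz z c) h) := by
    rw [← cR_add, ← cR_smul, ← cR_add]
    congr 1
    funext c
    unfold g2
    ring
  have k4 : |cR x (fun c => lsh z r c - lamz z c) h| ≤ N / Real.log N ^ (V + 2) := by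
    refine (cR_small hhx hN hx1 _).trans ?_
    calc Real.log N * ∑ c ∈ Icc 1 N, |lsh z r c - lamz z c| = Real.log N * ∑ c ∈ Icc 1 N, |lamz z c - lsh z r c| := by
          congr 1
          exact sum_congr rfl fun c _ => abs_sub_comm _ _
      _ ≤ Real.log N * (N / Real.log N ^ (V + 3)) := by gcongr
      _ = _ := by
          have hl0 : Real.log N ≠ 0 := by linarith
          rw [pow_succ]
          field_simp
  obtain ⟨L, hLd⟩ : ∃ L, L = Real.log (N : ℝ) := ⟨_, rfl⟩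
  rw [← hLd] at hL hLp hs2 hmain k1 k4 ⊢
  have hL0 : 0 < L := by linarith
  have hL1 : 1 ≤ L := by linarith
  rw [norm_cvd hhx N hN]
  obtain ⟨c1, hc1⟩ : ∃ c, c = cR x (g2 N α z r) h := ⟨_, rfl⟩
  obtain ⟨c2, hc2⟩ : ∃ c, c = cR x (lamz z) h := ⟨_, rfl⟩
  obtain ⟨c3, hc3⟩ : ∃ c, c = cR x (fun c => lsh z r c - lamz z c) h := ⟨_, rfl⟩
  rw [← hc1, ← hc2, ← hc3] at k2
  rw [← hc2] at hmain
  rw [← hc3] at k4
  rw [← hc1]
  obtain ⟨w, hwd⟩ : ∃ w, w = WA N α := ⟨_, rfl⟩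
  rw [← hwd] at k2 hw ⊢
  rw [k2] at k1
  have e1 : repD x α h - sing h.natAbs * len x h * w = c1 - (c1 + w * (c2 + c3) - repD x α h) +
      w * (c2 - sing h.natAbs * len x h) + w * c3 := by ring
  have hX : (0 : ℝ) < N / L ^ (V + 2) := by positivity
  have f1 : |w * (c2 - sing h.natAbs * len x h)| ≤ b * (4 * (N / L ^ (V + 2))) := by
    rw [abs_mul]
    gcongr
  have f2 : |w * c3| ≤ b * (N / L ^ (V + 2)) := by
    rw [abs_mul]
    gcongr
  have hsqrt : Real.sqrt N = (N : ℝ) ^ (1 / 2 : ℝ) := Real.sqrt_eq_rpow _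
  have f4 : (N : ℝ) ^ κ₂ * (4 * L * (Real.sqrt N * L)) ≤ N / L ^ (V + 1) / 4 := by
    rw [div_div, le_div_iff₀ (by positivity), hsqrt]
    have g1 : (N : ℝ) ^ κ₂ ≤ (N : ℝ) ^ (1 / 5 : ℝ) := Real.rpow_le_rpow_of_exponent_le hNr1 h2
    have g4 : 4 * L * L * (L ^ (V + 1) * 4) ≤ (N : ℝ) ^ (3 / 10 : ℝ) := by
      have g5 : L ^ (V + 3) ≤ (N : ℝ) ^ (1 / 5 : ℝ) := hLp
      have g6 : 4 * L * L * (L ^ (V + 1) * 4) = 16 * L ^ (V + 3) := by ring
      have g7 : 16 ≤ (N : ℝ) ^ (1 / 10 : ℝ) := by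
        have h16 : (256 : ℝ) ≤ (N : ℝ) ^ (1 / 5 : ℝ) := by
          refine le_trans ?_ hLp
          calc (256 : ℝ) ≤ L ^ 2 := by nlinarith
            _ ≤ L ^ (V + 3) := pow_le_pow_right₀ hL1 (by omega)
        have e : ((N : ℝ) ^ (1 / 10 : ℝ)) ^ 2 = (N : ℝ) ^ (1 / 5 : ℝ) := by
          rw [← Real.rpow_natCast, ← Real.rpow_mul hN0.le]
          norm_num
        have h3 : (16 : ℝ) ^ 2 ≤ ((N : ℝ) ^ (1 / 10 : ℝ)) ^ 2 := by rw [e]; linarith
        exact le_of_sq_le_sq h3 (by positivity)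
      rw [g6]
      calc 16 * L ^ (V + 3) ≤ (N : ℝ) ^ (1 / 10 : ℝ) * (N : ℝ) ^ (1 / 5 : ℝ) := by gcongr
        _ = _ := by rw [← Real.rpow_add hN0]; norm_num
    calc (N : ℝ) ^ κ₂ * (4 * L * ((N : ℝ) ^ (1 / 2 : ℝ) * L)) * (L ^ (V + 1) * 4) =
        (N : ℝ) ^ κ₂ * (N : ℝ) ^ (1 / 2 : ℝ) * (4 * L * L * (L ^ (V + 1) * 4)) := by ring
      _ ≤ (N : ℝ) ^ (1 / 5 : ℝ) * (N : ℝ) ^ (1 / 2 : ℝ) * (N : ℝ) ^ (3 / 10 : ℝ) := by gcongr
      _ = N := by
          rw [← Real.rpow_add hN0, ← Real.rpow_add hN0]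
          norm_num
  have f6 : N / L ^ (V + 1) = L * (N / L ^ (V + 2)) := by
    rw [pow_succ L (V + 1)]
    field_simp
  have f7 : N / L ^ (V + 1) ≤ N / L ^ V / 2 := by
    rw [pow_succ, ← div_div]
    apply div_le_div_of_nonneg_left (by positivity) (by norm_num)
    linarith
  have f8 : (5 * b) * (N / L ^ (V + 2)) ≤ N / L ^ (V + 1) := by
    rw [f6]
    gcongr
    linarith
  have hfin : |repD x α h - sing h.natAbs * len x h * w| ≤ |c1| + |c1 + w * (c2 + c3) - repD x α h| +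
      |w * (c2 - sing h.natAbs * len x h)| + |w * c3| := by
    rw [e1]
    refine (abs_add_le _ _).trans ?_
    gcongr
    refine (abs_add_le _ _).trans ?_
    gcongr
    exact abs_sub _ _
  have hV1 : 0 < N / L ^ (V + 1) := by positivity
  linarith

/-- DIFFERENCES: the asymptotic formula for all but few even integers in the residue classes -/
theorem mainD {κ₁ κ₂ ρ : ℝ} (h0 : 0 < κ₁) (h01 : κ₁ ≤ κ₂) (h2 : κ₂ ≤ 1 / 5) (hE : ErrD κ₁ κ₂ ρ)
    (A B T : ℕ) : ∃ N₀ : ℕ, ∀ x : ℕ, N₀ ≤ x → ∀ N : ℕ, N = 2 * x → ∀ α : ℕ → ℝ, Al N κ₁ κ₂ α → ∀ q : ℕ, 1 ≤ q →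
    (q : ℝ) ≤ (N : ℝ) ^ (1 - ρ) → ∀ a : ℤ, (Int.gcd a q : ℝ) ≤ Real.log N ^ T →
    (((Icc (-(x : ℤ)) x).filter (fun h : ℤ => h ≠ 0 ∧ 2 ∣ h ∧ h ≡ a [ZMOD q] ∧
      N / Real.log N ^ B < |repD x α h - sing h.natAbs * len x h * WA N α|)).card : ℝ) ≤
      N / (q * Real.log N ^ A) := by
  classical
  obtain ⟨B₀, h3⟩ := hE (A + 2 * (B + 1) + 2) T (B + 1 + 3)
  obtain ⟨E1, hE1⟩ : ∃ E1, E1 = max B₀ (B + 1 + 6) := ⟨_, rfl⟩
  obtain ⟨N₁, h4⟩ := h3 (E1 + 1)
  obtain ⟨N₂, h5⟩ := form_nearD (B + 1) E1 (by rw [hE1]; exact le_max_right _ _) h0 h01 h2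
  obtain ⟨N₃, h6⟩ := Filter.eventually_atTop.1 (ev_log 1 (s := 1) (by norm_num) 4)
  refine ⟨N₁ + N₂ + N₃ + 1, fun x hx N hN α hα q hq1 hq a ha => ?_⟩
  have : NeZero q := ⟨by omega⟩
  obtain ⟨hL, -⟩ := h6 N (by omega)
  have c1 := h4 N (by omega)
  have c2 := h5 x (by omega) N hN
  have hN1 : 1 ≤ N := by omega
  have hN0 : (0 : ℝ) < N := by exact_mod_cast hN1
  have hq0 : (0 : ℝ) < q := by exact_mod_cast hq1
  obtain ⟨L, hLd⟩ : ∃ L, L = Real.log (N : ℝ) := ⟨_, rfl⟩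
  rw [← hLd] at hL c1 c2 ha ⊢
  have hL0 : 0 < L := by linarith
  have hL1 : 1 ≤ L := by linarith
  obtain ⟨z, hz⟩ : ∃ z, z = ⌈L ^ E1⌉₊ := ⟨_, rfl⟩
  have hzlo : L ^ E1 ≤ z := by rw [hz]; exact Nat.le_ceil _
  have hL1B : 1 ≤ L ^ E1 := one_le_pow₀ hL1
  have hzhi : (z : ℝ) ≤ L ^ (E1 + 1) := by
    have := Nat.ceil_lt_add_one (show 0 ≤ L ^ E1 by positivity)
    rw [← hz] at this
    calc (z : ℝ) ≤ L ^ E1 + 1 := this.le
      _ ≤ L ^ E1 + L ^ E1 := by linarith
      _ = 2 * L ^ E1 := by ring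
      _ ≤ L * L ^ E1 := mul_le_mul_of_nonneg_right (by linarith) (by positivity)
      _ = L ^ (E1 + 1) := by ring
  have hzB : L ^ B₀ ≤ z := (pow_le_pow_right₀ hL1 (by rw [hE1]; exact le_max_left _ _)).trans hzlo
  obtain ⟨r, hPar, hsum, hms⟩ := c1 z hzB hzhi
  have hnear := c2 z r hzlo hzhi hsum α hα
  have hgcd : ((Nat.gcd (ZMod.val (a : ZMod q)) q : ℕ) : ℝ) ≤ L ^ T := by
    have e1 : Nat.gcd (ZMod.val (a : ZMod q)) q = Int.gcd a q := by
      have e2 : ((ZMod.val (a : ZMod q) : ℕ) : ℤ) = a % q := by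
        rw [ZMod.val_intCast]
      have e3 : Int.gcd a q = Int.gcd (a % q) q := (Int.gcd_emod _ _).symm
      rw [e3, ← e2]
      rfl
    rw [e1]
    exact ha
  have hm := hms α hα q hq (a : ZMod q) hgcd N x le_rfl (by omega)
  have ht : 0 < N / L ^ (B + 1) := by positivity
  refine cnt_ms _ _ (fun n => ‖cvd LA (G2 N α z r) N x n‖) ht ?_ ?_ hm ?_
  · intro h hh
    rw [mem_filter, mem_Icc] at hh
    rw [mem_filter, mem_Icc]
    refine ⟨⟨by omega, by omega⟩, ?_⟩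
    exact (ZMod.intCast_eq_intCast_iff h a q).2 hh.2.2.2.1
  · intro h hh
    rw [mem_filter, mem_Icc] at hh
    have h7 := hnear h hh.2.1 (abs_le.2 ⟨by omega, by omega⟩) hh.2.2.1
    have h8 : N / L ^ B = L * (N / L ^ (B + 1)) := by
      rw [pow_succ]
      field_simp
    have h9 : 2 * (N / L ^ (B + 1)) ≤ N / L ^ B := by
      rw [h8]
      gcongr
      linarith
    have h10 := hh.2.2.2.2
    linarith
  · have e1 : (N : ℝ) ^ 3 / (q * L ^ (A + 2 * (B + 1) + 2)) = N / (q * L ^ A) * (N / L ^ (B + 1)) ^ 2 / L ^ 2 := by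
      have e2 : L ^ (A + 2 * (B + 1) + 2) = L ^ A * (L ^ (B + 1)) ^ 2 * L ^ 2 := by
        rw [← pow_mul, ← pow_add, ← pow_add]
        congr 1
        ring
      rw [e2]
      field_simp
    rw [e1]
    apply div_le_self (by positivity)
    exact one_le_pow₀ hL1

end Pool.Agent.H579.E
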