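import Pool.Agent.H579.E.Err
import Pool.Graph.R_seed8.R460.GS.Grid
import Pool.Graph.R_seed8.R460.GS.Fin

set_option autoImplicit false

/-! Sums of a prime and of a product of two primes: the asymptotic formula in the residue classes. -/

namespace Pool.Agent.H579.E

open Finset
open Pool.Agent.Y883.GJ Pool.Agent.R460.GS
open Pool.Agent.H373R2.T7 (lamz Vz lam_ap lamz_ap)
open Pool.Agent.Y883.T3 (lsh)
open Pool.Agent.Y614.GJ.Core (ev_log)
open Pool.Agent.H560R3.GB (sing)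
open ArithmeticFunction (vonMangoldt)

/-- the coefficients on the primes between two powers of `N` -/
noncomputable def res (N : ℕ) (κ₁ κ₂ : ℝ) (α : ℕ → ℝ) (p : ℕ) : ℝ :=
  if p.Prime ∧ (N : ℝ) ^ κ₁ < p ∧ (p : ℝ) ≤ (N : ℝ) ^ κ₂ then α p else 0

lemma al_res {N : ℕ} {κ₁ κ₂ : ℝ} {α : ℕ → ℝ} (h : ∀ p, |α p| ≤ 1) : Al N κ₁ κ₂ (res N κ₁ κ₂ α) := by
  refine ⟨fun p hp => ?_, fun p => ?_⟩
  · unfold res at hp
    split_ifs at hp with h1
    · exact h1
    · exact absurd rfl hp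
  · unfold res
    split_ifs
    · exact h p
    · simp

/-- the number of representations with weights -/
noncomputable def rep (N : ℕ) (α : ℕ → ℝ) (n : ℕ) : ℝ :=
  ∑ p ∈ Icc 1 N, α p * ∑ m ∈ (Icc 1 n).filter (fun m => m.Prime ∧ p * m < n ∧ (n - p * m).Prime),
    Real.log m * Real.log (n - p * m : ℕ)

/-- the convolution -/
noncomputable def cvR (N : ℕ) (f g : ℕ → ℝ) (n : ℕ) : ℝ :=
  ∑ b ∈ Icc 1 N, ∑ c ∈ Icc 1 N, if b + c = n then f b * g c else 0

lemma cvR_left {N n : ℕ} (hn : n ≤ N) (f g : ℕ → ℝ) : cvR N f g n = ∑ b ∈ Icc 1 (n - 1), f b * g (n - b) := by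
  unfold cvR
  have h : ∀ b ∈ Icc 1 N, (∑ c ∈ Icc 1 N, if b + c = n then f b * g c else 0) =
      if b ∈ Icc 1 (n - 1) then f b * g (n - b) else 0 := by
    intro b hb
    rw [mem_Icc] at hb
    split_ifs with h1
    · rw [mem_Icc] at h1
      rw [sum_eq_single (n - b)]
      · rw [if_pos (by omega)]
      · intro c _ hc
        rw [if_neg (by omega)]
      · intro hc
        exact absurd (mem_Icc.2 ⟨by omega, by omega⟩) hc
    · rw [mem_Icc] at h1
      refine sum_eq_zero fun c hc => ?_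
      rw [mem_Icc] at hc
      rw [if_neg (by omega)]
  rw [sum_congr rfl h, ← sum_filter]
  congr 1
  ext b
  rw [mem_filter, mem_Icc, mem_Icc]
  omega

lemma cvR_right {N n : ℕ} (hn : n ≤ N) (f g : ℕ → ℝ) : cvR N f g n = ∑ c ∈ Icc 1 (n - 1), f (n - c) * g c := by
  have h : cvR N f g n = cvR N g f n := by
    unfold cvR
    rw [sum_comm]
    refine sum_congr rfl fun c _ => sum_congr rfl fun b _ => ?_
    rw [add_comm, mul_comm]
  rw [h, cvR_left hn]
  refine sum_congr rfl fun c _ => ?_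
  rw [mul_comm]

lemma cvR_add (N : ℕ) (f g h : ℕ → ℝ) (n : ℕ) : cvR N f (fun c => g c + h c) n = cvR N f g n + cvR N f h n := by
  unfold cvR
  rw [← sum_add_distrib]
  refine sum_congr rfl fun b _ => ?_
  rw [← sum_add_distrib]
  refine sum_congr rfl fun c _ => ?_
  split_ifs
  · ring
  · ring

lemma cvR_smul (N : ℕ) (w : ℝ) (f g : ℕ → ℝ) (n : ℕ) : cvR N f (fun c => w * g c) n = w * cvR N f g n := by
  unfold cvR
  rw [mul_sum]
  refine sum_congr rfl fun b _ => ?_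
  rw [mul_sum]
  refine sum_congr rfl fun c _ => ?_
  split_ifs
  · ring
  · ring

/-- prime powers -/
lemma psi_bd {N : ℕ} (hN : 1 ≤ N) : ∑ m ∈ (Icc 1 N).filter (fun m => ¬ m.Prime), vonMangoldt m ≤
    2 * Real.sqrt N * Real.log N := by
  have h1 := Chebyshev.psi_sub_theta_eq_sum_not_prime (N : ℝ)
  have h2 := Chebyshev.psi_sub_theta_le (x := (N : ℝ)) (by exact_mod_cast hN)
  rw [h1, Nat.floor_natCast] at h2
  have e : Ioc 0 N = Icc 1 N := by
    ext m
    rw [mem_Ioc, mem_Icc]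
    omega
  rw [e] at h2
  exact h2

/-- from the von Mangoldt function to primes -/
lemma pp_diff {N n p : ℕ} (hn1 : 1 ≤ n) (hn : n ≤ N) (hp : 1 ≤ p) :
    |∑ m ∈ Icc 1 ((n - 1) / p), vonMangoldt m * vonMangoldt (n - p * m) -
      ∑ m ∈ (Icc 1 n).filter (fun m => m.Prime ∧ p * m < n ∧ (n - p * m).Prime),
        Real.log m * Real.log (n - p * m : ℕ)| ≤ 4 * Real.log N * (Real.sqrt N * Real.log N) := by
  classical
  have hN1 : 1 ≤ N := by omega
  have hlog : 0 ≤ Real.log N := Real.log_natCast_nonneg _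
  obtain ⟨M, hM⟩ : ∃ M, M = (n - 1) / p := ⟨_, rfl⟩
  rw [← hM]
  have hlt : ∀ m, m ∈ Icc 1 M → p * m < n := by
    intro m hm
    rw [mem_Icc] at hm
    have h1 : p * m ≤ p * ((n - 1) / p) := by rw [← hM]; exact Nat.mul_le_mul_left _ hm.2
    have h2 := Nat.mul_div_le (n - 1) p
    omega
  have hset : (Icc 1 n).filter (fun m => m.Prime ∧ p * m < n ∧ (n - p * m).Prime) =
      (Icc 1 M).filter (fun m => m.Prime ∧ (n - p * m).Prime) := by
    ext m
    rw [mem_filter, mem_filter]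
    constructor
    · rintro ⟨h1, h2, h3, h4⟩
      rw [mem_Icc] at h1
      refine ⟨mem_Icc.2 ⟨h1.1, ?_⟩, h2, h4⟩
      rw [hM, Nat.le_div_iff_mul_le hp, mul_comm]
      omega
    · rintro ⟨h1, h2, h3⟩
      have h4 := hlt m h1
      rw [mem_Icc] at h1
      refine ⟨mem_Icc.2 ⟨h1.1, ?_⟩, h2, h4, h3⟩
      nlinarith
  rw [hset, sum_filter, ← sum_sub_distrib]
  have hL : ∀ m, m ≤ N → vonMangoldt m ≤ Real.log N := fun m hm => lam_le_log hm hN1
  calc |∑ m ∈ Icc 1 M, (vonMangoldt m * vonMangoldt (n - p * m) -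
        if m.Prime ∧ (n - p * m).Prime then Real.log m * Real.log (n - p * m : ℕ) else 0)| ≤
      ∑ m ∈ Icc 1 M, ((if ¬ m.Prime then vonMangoldt m * Real.log N else 0) +
        (if ¬ (n - p * m).Prime then Real.log N * vonMangoldt (n - p * m) else 0)) := by
        refine (abs_sum_le_sum_abs _ _).trans (sum_le_sum fun m hm => ?_)
        have h1 := hlt m hm
        rw [mem_Icc] at hm
        have hmN : m ≤ N := by nlinarith
        have hnn1 : 0 ≤ vonMangoldt m := ArithmeticFunction.vonMangoldt_nonneg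
        have hnn2 : 0 ≤ vonMangoldt (n - p * m) := ArithmeticFunction.vonMangoldt_nonneg
        by_cases h2 : m.Prime
        · by_cases h3 : (n - p * m).Prime
          · rw [if_pos ⟨h2, h3⟩, if_neg (not_not.2 h2), if_neg (not_not.2 h3),
              ArithmeticFunction.vonMangoldt_apply_prime h2, ArithmeticFunction.vonMangoldt_apply_prime h3]
            simp
          · rw [if_neg (fun h => h3 h.2), if_neg (not_not.2 h2), if_pos h3, sub_zero, zero_add,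
              abs_of_nonneg (mul_nonneg hnn1 hnn2)]
            gcongr
            exact hL m hmN
        · rw [if_neg (fun h => h2 h.1), if_pos h2, sub_zero, abs_of_nonneg (mul_nonneg hnn1 hnn2)]
          have h4 : vonMangoldt m * vonMangoldt (n - p * m) ≤ vonMangoldt m * Real.log N :=
            mul_le_mul_of_nonneg_left (hL _ (by omega)) hnn1
          have h5 : 0 ≤ (if ¬ (n - p * m).Prime then Real.log N * vonMangoldt (n - p * m) else 0) := by
            split_ifs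
            · exact le_rfl
            · positivity
          linarith
    _ = Real.log N * ∑ m ∈ (Icc 1 M).filter (fun m => ¬ m.Prime), vonMangoldt m +
        Real.log N * ∑ m ∈ (Icc 1 M).filter (fun m => ¬ (n - p * m).Prime), vonMangoldt (n - p * m) := by
        rw [sum_add_distrib, ← sum_filter, ← sum_filter, mul_sum, mul_sum]
        congr 1
        refine sum_congr rfl fun m _ => ?_
        ring
    _ ≤ Real.log N * ∑ m ∈ (Icc 1 N).filter (fun m => ¬ m.Prime), vonMangoldt m +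
        Real.log N * ∑ m ∈ (Icc 1 N).filter (fun m => ¬ m.Prime), vonMangoldt m := by
        have hMN : M ≤ N := by
          rw [hM]
          exact (Nat.div_le_self _ _).trans (by omega)
        gcongr ?_ + ?_
        · exact mul_le_mul_of_nonneg_left (sum_le_sum_of_subset_of_nonneg (filter_subset_filter _
            (Icc_subset_Icc le_rfl hMN)) fun _ _ _ => ArithmeticFunction.vonMangoldt_nonneg) hlog
        · refine mul_le_mul_of_nonneg_left ?_ hlog
          have hinj : Set.InjOn (fun m => n - p * m) ((Icc 1 M).filter (fun m => ¬ (n - p * m).Prime) : Finset ℕ) := by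
            intro m hm m' hm' h
            rw [mem_coe, mem_filter] at hm hm'
            have h1 := hlt m hm.1
            have h2 := hlt m' hm'.1
            have h3 : n - p * m = n - p * m' := h
            have h4 : p * m = p * m' := by omega
            exact Nat.eq_of_mul_eq_mul_left (by omega) h4
          rw [← sum_image (f := fun k => vonMangoldt k) hinj]
          refine sum_le_sum_of_subset_of_nonneg (fun k hk => ?_) fun _ _ _ => ArithmeticFunction.vonMangoldt_nonneg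
          rw [mem_image] at hk
          obtain ⟨m, hm, rfl⟩ := hk
          rw [mem_filter] at hm ⊢
          have h1 := hlt m hm.1
          exact ⟨mem_Icc.2 ⟨by omega, by omega⟩, hm.2⟩
    _ ≤ Real.log N * (2 * Real.sqrt N * Real.log N) + Real.log N * (2 * Real.sqrt N * Real.log N) := by
        have := psi_bd hN1
        gcongr
    _ = _ := by ring

lemma rl_swap {N n : ℕ} (hn : n ≤ N) (α : ℕ → ℝ) : cvR N (fun b => vonMangoldt b) (e2 α) n =
    ∑ p ∈ Icc 1 N, α p * ∑ m ∈ Icc 1 ((n - 1) / p), vonMangoldt m * vonMangoldt (n - p * m) := by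
  rw [cvR_right hn]
  have h := Pool.Agent.R460.GS.dirV (V := ℝ) (n - 1) (fun d m => α d * (vonMangoldt m * vonMangoldt (n - d * m)))
  have e : ∑ c ∈ Icc 1 (n - 1), vonMangoldt (n - c) * e2 α c =
      ∑ c ∈ Icc 1 (n - 1), ∑ d ∈ c.divisors, α d * (vonMangoldt (c / d) * vonMangoldt (n - d * (c / d))) := by
    refine sum_congr rfl fun c _ => ?_
    unfold e2
    rw [mul_sum]
    refine sum_congr rfl fun d hd => ?_
    rw [Nat.mem_divisors] at hd
    rw [Nat.mul_div_cancel' hd.1]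
    ring
  rw [e, h]
  have h2 : ∀ d ∈ Icc 1 N, d ∉ Icc 1 (n - 1) →
      α d * ∑ m ∈ Icc 1 ((n - 1) / d), vonMangoldt m * vonMangoldt (n - d * m) = 0 := by
    intro d hd hd'
    rw [mem_Icc] at hd hd'
    have : (n - 1) / d = 0 := Nat.div_eq_of_lt (by omega)
    rw [this]
    simp
  rw [← sum_subset (Icc_subset_Icc le_rfl (by omega)) h2]
  refine sum_congr rfl fun d _ => ?_
  rw [mul_sum]

/-- the number of primes with nonzero coefficients -/
lemma sum_alpha {N : ℕ} {κ₁ κ₂ : ℝ} {α : ℕ → ℝ} (hα : Al N κ₁ κ₂ α) :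
    ∑ p ∈ Icc 1 N, |α p| ≤ (N : ℝ) ^ κ₂ := by
  calc ∑ p ∈ Icc 1 N, |α p| ≤ ∑ p ∈ Icc 1 N, (if p ∈ Icc 1 ⌊(N : ℝ) ^ κ₂⌋₊ then (1 : ℝ) else 0) := by
        refine sum_le_sum fun p _ => ?_
        by_cases h : α p = 0
        · rw [h, abs_zero]
          split_ifs <;> norm_num
        · obtain ⟨e1, e2, e3⟩ := hα.pr p h
          rw [if_pos (mem_Icc.2 ⟨e1.one_le, Nat.le_floor e3⟩)]
          exact hα.bd p
    _ = (((Icc 1 N).filter (fun p => p ∈ Icc 1 ⌊(N : ℝ) ^ κ₂⌋₊)).card : ℝ) := by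
        rw [← sum_filter, sum_const, nsmul_eq_mul, mul_one]
    _ ≤ ((Icc 1 ⌊(N : ℝ) ^ κ₂⌋₊).card : ℝ) := by
        exact_mod_cast card_le_card fun d hd => (mem_filter.1 hd).2
    _ = (⌊(N : ℝ) ^ κ₂⌋₊ : ℝ) := by rw [Nat.card_Icc, Nat.add_sub_cancel]
    _ ≤ _ := Nat.floor_le (by positivity)

/-- prime powers are negligible -/
lemma rep_near {N n : ℕ} {κ₁ κ₂ : ℝ} {α : ℕ → ℝ} (hα : Al N κ₁ κ₂ α) (hn1 : 1 ≤ n) (hn : n ≤ N) :
    |cvR N (fun b => vonMangoldt b) (e2 α) n - rep N α n| ≤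
      (N : ℝ) ^ κ₂ * (4 * Real.log N * (Real.sqrt N * Real.log N)) := by
  rw [rl_swap hn]
  unfold rep
  rw [← sum_sub_distrib]
  calc _ ≤ ∑ p ∈ Icc 1 N, |α p| * (4 * Real.log N * (Real.sqrt N * Real.log N)) := by
        refine (abs_sum_le_sum_abs _ _).trans (sum_le_sum fun p hp => ?_)
        rw [mem_Icc] at hp
        rw [← mul_sub, abs_mul]
        exact mul_le_mul_of_nonneg_left (pp_diff hn1 hn hp.1) (abs_nonneg _)
    _ = (∑ p ∈ Icc 1 N, |α p|) * (4 * Real.log N * (Real.sqrt N * Real.log N)) := by rw [sum_mul]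
    _ ≤ _ := by
        have hlog : 0 ≤ Real.log N := Real.log_natCast_nonneg _
        exact mul_le_mul_of_nonneg_right (sum_alpha hα) (by positivity)

lemma norm_cv {N n : ℕ} (α : ℕ → ℝ) (z r : ℕ) : ‖cv LA (G2 N α z r) N N n‖ =
    |cvR N (fun b => vonMangoldt b) (g2 N α z r) n| := by
  have h3 : ((cvR N (fun b => vonMangoldt b) (g2 N α z r) n : ℝ) : ℂ) = cv LA (G2 N α z r) N N n := by
    unfold cv LA G2 cvR
    rw [Complex.ofReal_sum]
    refine sum_congr rfl fun b _ => ?_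
    rw [Complex.ofReal_sum]
    refine sum_congr rfl fun c _ => ?_
    split_ifs
    · rw [Complex.ofReal_mul]
    · simp
  rw [← h3, Complex.norm_real, Real.norm_eq_abs]

lemma cvR_small {N n : ℕ} (hn : n ≤ N) (hN : 1 ≤ N) (h : ℕ → ℝ) :
    |cvR N (fun b => vonMangoldt b) h n| ≤ Real.log N * ∑ c ∈ Icc 1 N, |h c| := by
  rw [cvR_right hn, mul_sum]
  calc _ ≤ ∑ c ∈ Icc 1 (n - 1), Real.log N * |h c| := by
        refine (abs_sum_le_sum_abs _ _).trans (sum_le_sum fun c _ => ?_)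
        rw [abs_mul, abs_of_nonneg ArithmeticFunction.vonMangoldt_nonneg]
        exact mul_le_mul_of_nonneg_right (lam_le_log (by omega) hN) (abs_nonneg _)
    _ ≤ _ := by
        have hlog : 0 ≤ Real.log N := Real.log_natCast_nonneg _
        exact sum_le_sum_of_subset_of_nonneg (Icc_subset_Icc le_rfl (by omega)) fun _ _ _ => by positivity

/-- the formula for one even integer -/
theorem form_near (V E1 : ℕ) (hE1 : V + 6 ≤ E1) {κ₁ κ₂ : ℝ} (h0 : 0 < κ₁) (h01 : κ₁ ≤ κ₂) (h2 : κ₂ ≤ 1 / 5) :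
    ∃ N₀ : ℕ, ∀ N : ℕ, N₀ ≤ N → ∀ z r : ℕ, Real.log N ^ E1 ≤ z → (z : ℝ) ≤ Real.log N ^ (E1 + 1) →
    ∑ n ∈ Icc 1 N, |lamz z n - lsh z r n| ≤ N / Real.log N ^ (V + 3) →
    ∀ α : ℕ → ℝ, Al N κ₁ κ₂ α → ∀ n : ℕ, 1 ≤ n → n ≤ N → 2 ∣ n →
    |rep N α n - sing n * n * WA N α| ≤ ‖cv LA (G2 N α z r) N N n‖ + N / Real.log N ^ V := by
  obtain ⟨N₁, h1⟩ := win_main' V E1 hE1
  obtain ⟨b, N₂, hb0, hb⟩ := sup_W (κ₁ := κ₁) (κ₂ := κ₂) h0 h01
  obtain ⟨N₃, hN₃⟩ := Filter.eventually_atTop.1 (ev_log (V + 3) (s := 1 / 5) (by norm_num) (5 * b + 16))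
  refine ⟨N₁ + N₂ + N₃ + 1, fun N hN z r hz1 hz2 hsum α hα n hn1 hn h2n => ?_⟩
  obtain ⟨hL, hLp⟩ := hN₃ N (by omega)
  obtain ⟨-, hw⟩ := hb N (by omega) α hα
  obtain ⟨hwin, hs0, hs2⟩ := h1 N (by omega) n hn h2n (by omega) z hz1 hz2
  have hN1 : 1 ≤ N := by omega
  have hNr1 : (1 : ℝ) ≤ N := by exact_mod_cast hN1
  have hN0 : (0 : ℝ) < N := by linarith
  have hmain := (hwin (n - 1) (by omega)).1
  have k1 := rep_near hα hn1 hn
  have k2 : cvR N (fun b => vonMangoldt b) (e2 α) n = cvR N (fun b => vonMangoldt b) (g2 N α z r) n +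
      WA N α * (cvR N (fun b => vonMangoldt b) (lamz z) n +
        cvR N (fun b => vonMangoldt b) (fun c => lsh z r c - lamz z c) n) := by
    rw [← cvR_add, ← cvR_smul, ← cvR_add]
    congr 1
    funext c
    unfold g2
    ring
  have k3 : cvR N (fun b => vonMangoldt b) (lamz z) n = ∑ b ∈ Icc 1 (n - 1), la b * lamz z (n - b) := by
    rw [cvR_left hn]
    rfl
  have k4 : |cvR N (fun b => vonMangoldt b) (fun c => lsh z r c - lamz z c) n| ≤ N / Real.log N ^ (V + 2) := by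
    refine (cvR_small hn hN1 _).trans ?_
    calc Real.log N * ∑ c ∈ Icc 1 N, |lsh z r c - lamz z c| = Real.log N * ∑ c ∈ Icc 1 N, |lamz z c - lsh z r c| := by
          congr 1
          exact sum_congr rfl fun c _ => abs_sub_comm _ _
      _ ≤ Real.log N * (N / Real.log N ^ (V + 3)) := by gcongr
      _ = _ := by
          have hl0 : Real.log N ≠ 0 := by linarith
          rw [pow_succ]
          field_simp
  rw [← k3] at hmain
  obtain ⟨L, hLd⟩ : ∃ L, L = Real.log (N : ℝ) := ⟨_, rfl⟩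
  rw [← hLd] at hL hLp hs2 hmain k1 k4 ⊢
  have hL0 : 0 < L := by linarith
  have hL1 : 1 ≤ L := by linarith
  rw [norm_cv]
  obtain ⟨c1, hc1⟩ : ∃ c, c = cvR N (fun b => vonMangoldt b) (g2 N α z r) n := ⟨_, rfl⟩
  obtain ⟨c2, hc2⟩ : ∃ c, c = cvR N (fun b => vonMangoldt b) (lamz z) n := ⟨_, rfl⟩
  obtain ⟨c3, hc3⟩ : ∃ c, c = cvR N (fun b => vonMangoldt b) (fun c => lsh z r c - lamz z c) n := ⟨_, rfl⟩
  rw [← hc1, ← hc2, ← hc3] at k2
  rw [← hc2] at hmain
  rw [← hc3] at k4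
  rw [← hc1]
  obtain ⟨w, hwd⟩ : ∃ w, w = WA N α := ⟨_, rfl⟩
  rw [← hwd] at k2 hw ⊢
  rw [k2] at k1
  have hcast : ((n - 1 : ℕ) : ℝ) = n - 1 := by
    rw [Nat.cast_sub hn1, Nat.cast_one]
  rw [hcast] at hmain
  have e1 : rep N α n - sing n * n * w = c1 - (c1 + w * (c2 + c3) - rep N α n) +
      w * (c2 - sing n * (n - 1)) + w * c3 - w * sing n := by ring
  have hX : (0 : ℝ) < N / L ^ (V + 2) := by positivity
  have f1 : |w * (c2 - sing n * (n - 1))| ≤ b * (2 * (N / L ^ (V + 2))) := by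
    rw [abs_mul]
    gcongr
  have f2 : |w * c3| ≤ b * (N / L ^ (V + 2)) := by
    rw [abs_mul]
    gcongr
  have f3 : |w * sing n| ≤ b * (2 * L) := by
    rw [abs_mul, abs_of_nonneg hs0]
    gcongr
  have hsqrt : Real.sqrt N = (N : ℝ) ^ (1 / 2 : ℝ) := Real.sqrt_eq_rpow _
  have hVL : L ^ (V + 2) ≤ (N : ℝ) ^ (1 / 5 : ℝ) := (pow_le_pow_right₀ hL1 (by omega)).trans hLp
  have hpow2 : 4 * L * L ≤ L ^ (V + 3) := by
    calc 4 * L * L ≤ L * L * L := by gcongr; linarith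
      _ = L ^ 3 := by ring
      _ ≤ L ^ (V + 3) := pow_le_pow_right₀ hL1 (by omega)
  have f4 : (N : ℝ) ^ κ₂ * (4 * L * (Real.sqrt N * L)) ≤ N / L ^ (V + 1) / 4 := by
    rw [div_div, le_div_iff₀ (by positivity), hsqrt]
    have g1 : (N : ℝ) ^ κ₂ ≤ (N : ℝ) ^ (1 / 5 : ℝ) := Real.rpow_le_rpow_of_exponent_le hNr1 h2
    have g4 : 4 * L * L * (L ^ (V + 1) * 4) ≤ (N : ℝ) ^ (3 / 10 : ℝ) := by
      have g5 : L ^ (V + 3) ≤ (N : ℝ) ^ (1 / 5 : ℝ) := hLp
      have g6 : 4 * L * L * (L ^ (V + 1) * 4) = 16 * L ^ (V + 3) := by ring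
      have g7 : 16 ≤ (N : ℝ) ^ (1 / 10 : ℝ) := by
        have h16 : (256 : ℝ) ≤ (N : ℝ) ^ (1 / 5 : ℝ) := by
          refine le_trans ?_ hLp
          calc (256 : ℝ) ≤ L ^ 2 := by nlinarith
            _ ≤ L ^ (V + 3) := pow_le_pow_right₀ hL1 (by omega)
        have e : ((N : ℝ) ^ (1 / 10 : ℝ)) ^ 2 = (N : ℝ) ^ (1 / 5 : ℝ) := by
          rw [← Real.rpow_natCast, ← Real.rpow_mul hN0.le]
          norm_num
        have h3 : (16 : ℝ) ^ 2 ≤ ((N : ℝ) ^ (1 / 10 : ℝ)) ^ 2 := by rw [e]; linarith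
        exact le_of_sq_le_sq h3 (by positivity)
      rw [g6]
      calc 16 * L ^ (V + 3) ≤ (N : ℝ) ^ (1 / 10 : ℝ) * (N : ℝ) ^ (1 / 5 : ℝ) := by gcongr
        _ = _ := by rw [← Real.rpow_add hN0]; norm_num
    calc (N : ℝ) ^ κ₂ * (4 * L * ((N : ℝ) ^ (1 / 2 : ℝ) * L)) * (L ^ (V + 1) * 4) =
        (N : ℝ) ^ κ₂ * (N : ℝ) ^ (1 / 2 : ℝ) * (4 * L * L * (L ^ (V + 1) * 4)) := by ring
      _ ≤ (N : ℝ) ^ (1 / 5 : ℝ) * (N : ℝ) ^ (1 / 2 : ℝ) * (N : ℝ) ^ (3 / 10 : ℝ) := by gcongr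
      _ = N := by
          rw [← Real.rpow_add hN0, ← Real.rpow_add hN0]
          norm_num
  have f5 : b * (2 * L) ≤ b * (N / L ^ (V + 2)) := by
    gcongr
    rw [le_div_iff₀ (by positivity)]
    calc 2 * L * L ^ (V + 2) ≤ L * L * L ^ (V + 2) := by gcongr; linarith
      _ ≤ L ^ (V + 3) * L ^ (V + 2) := by
          gcongr
          calc L * L = L ^ 2 := by ring
            _ ≤ _ := pow_le_pow_right₀ hL1 (by omega)
      _ ≤ (N : ℝ) ^ (1 / 5 : ℝ) * (N : ℝ) ^ (1 / 5 : ℝ) := by gcongr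
      _ = (N : ℝ) ^ (2 / 5 : ℝ) := by
          rw [← Real.rpow_add hN0]
          norm_num
      _ ≤ (N : ℝ) ^ (1 : ℝ) := Real.rpow_le_rpow_of_exponent_le hNr1 (by norm_num)
      _ = N := Real.rpow_one _
  have f6 : N / L ^ (V + 1) = L * (N / L ^ (V + 2)) := by
    rw [pow_succ L (V + 1)]
    field_simp
  have f7 : N / L ^ (V + 1) ≤ N / L ^ V / 2 := by
    rw [pow_succ, ← div_div]
    apply div_le_div_of_nonneg_left (by positivity) (by norm_num)
    linarith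
  have f8 : (5 * b) * (N / L ^ (V + 2)) ≤ N / L ^ (V + 1) := by
    rw [f6]
    gcongr
    linarith
  have hfin : |rep N α n - sing n * n * w| ≤ |c1| + |c1 + w * (c2 + c3) - rep N α n| +
      |w * (c2 - sing n * (n - 1))| + |w * c3| + |w * sing n| := by
    rw [e1]
    refine (abs_sub _ _).trans ?_
    gcongr
    refine (abs_add_le _ _).trans ?_
    gcongr
    refine (abs_add_le _ _).trans ?_
    gcongr
    exact abs_sub _ _
  have hV1 : 0 < N / L ^ (V + 1) := by positivity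
  linarith

/-- the number of exceptions from a mean square -/
lemma cnt_ms {ι : Type*} (S D : Finset ι) (f : ι → ℝ) {t R M : ℝ} (ht : 0 < t) (hSD : S ⊆ D)
    (h1 : ∀ i ∈ S, t ≤ f i) (h2 : ∑ i ∈ D, f i ^ 2 ≤ R) (h3 : R ≤ M * t ^ 2) : (S.card : ℝ) ≤ M := by
  have h4 : (S.card : ℝ) * t ^ 2 ≤ R := by
    calc (S.card : ℝ) * t ^ 2 = ∑ _i ∈ S, t ^ 2 := by rw [sum_const, nsmul_eq_mul]
      _ ≤ ∑ i ∈ S, f i ^ 2 := sum_le_sum fun i hi => pow_le_pow_left₀ ht.le (h1 i hi) 2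
      _ ≤ ∑ i ∈ D, f i ^ 2 := sum_le_sum_of_subset_of_nonneg hSD fun _ _ _ => sq_nonneg _
      _ ≤ R := h2
  exact le_of_mul_le_mul_right (h4.trans h3) (by positivity)

/-- SUMS: the asymptotic formula for all but few even integers in the residue classes -/
theorem mainS {κ₁ κ₂ ρ : ℝ} (h0 : 0 < κ₁) (h01 : κ₁ ≤ κ₂) (h2 : κ₂ ≤ 1 / 5) (hE : ErrS κ₁ κ₂ ρ)
    (A B T : ℕ) : ∃ N₀ : ℕ, ∀ N : ℕ, N₀ ≤ N → ∀ α : ℕ → ℝ, Al N κ₁ κ₂ α → ∀ q : ℕ, 1 ≤ q →
    (q : ℝ) ≤ (N : ℝ) ^ (1 - ρ) → ∀ a : ℤ, (Int.gcd a q : ℝ) ≤ Real.log N ^ T →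
    (((Icc 1 N).filter (fun n : ℕ => 2 ∣ n ∧ (n : ℤ) ≡ a [ZMOD q] ∧
      N / Real.log N ^ B < |rep N α n - sing n * n * WA N α|)).card : ℝ) ≤ N / (q * Real.log N ^ A) := by
  classical
  obtain ⟨B₀, h3⟩ := hE (A + 2 * (B + 1) + 2) T (B + 1 + 3)
  obtain ⟨E1, hE1⟩ : ∃ E1, E1 = max B₀ (B + 1 + 6) := ⟨_, rfl⟩
  obtain ⟨N₁, h4⟩ := h3 (E1 + 1)
  obtain ⟨N₂, h5⟩ := form_near (B + 1) E1 (by rw [hE1]; exact le_max_right _ _) h0 h01 h2
  obtain ⟨N₃, h6⟩ := Filter.eventually_atTop.1 (ev_log 1 (s := 1) (by norm_num) 4)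
  refine ⟨N₁ + N₂ + N₃ + 1, fun N hN α hα q hq1 hq a ha => ?_⟩
  have : NeZero q := ⟨by omega⟩
  obtain ⟨hL, -⟩ := h6 N (by omega)
  have c1 := h4 N (by omega)
  have c2 := h5 N (by omega)
  have hN1 : 1 ≤ N := by omega
  have hN0 : (0 : ℝ) < N := by exact_mod_cast hN1
  have hq0 : (0 : ℝ) < q := by exact_mod_cast hq1
  obtain ⟨L, hLd⟩ : ∃ L, L = Real.log (N : ℝ) := ⟨_, rfl⟩
  rw [← hLd] at hL c1 c2 ha ⊢
  have hL0 : 0 < L := by linarith
  have hL1 : 1 ≤ L := by linarith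
  obtain ⟨z, hz⟩ : ∃ z, z = ⌈L ^ E1⌉₊ := ⟨_, rfl⟩
  have hzlo : L ^ E1 ≤ z := by rw [hz]; exact Nat.le_ceil _
  have hL1B : 1 ≤ L ^ E1 := one_le_pow₀ hL1
  have hzhi : (z : ℝ) ≤ L ^ (E1 + 1) := by
    have := Nat.ceil_lt_add_one (show 0 ≤ L ^ E1 by positivity)
    rw [← hz] at this
    calc (z : ℝ) ≤ L ^ E1 + 1 := this.le
      _ ≤ L ^ E1 + L ^ E1 := by linarith
      _ = 2 * L ^ E1 := by ring
      _ ≤ L * L ^ E1 := mul_le_mul_of_nonneg_right (by linarith) (by positivity)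
      _ = L ^ (E1 + 1) := by ring
  have hzB : L ^ B₀ ≤ z := (pow_le_pow_right₀ hL1 (by rw [hE1]; exact le_max_left _ _)).trans hzlo
  obtain ⟨r, hPar, hsum, hms⟩ := c1 z hzB hzhi
  have hnear := c2 z r hzlo hzhi hsum α hα
  have hgcd : ((Nat.gcd (ZMod.val (a : ZMod q)) q : ℕ) : ℝ) ≤ L ^ T := by
    have e1 : Nat.gcd (ZMod.val (a : ZMod q)) q = Int.gcd a q := by
      have e2 : ((ZMod.val (a : ZMod q) : ℕ) : ℤ) = a % q := by
        rw [ZMod.val_intCast]
      have e3 : Int.gcd a q = Int.gcd (a % q) q := (Int.gcd_emod _ _).symm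
      rw [e3, ← e2]
      rfl
    rw [e1]
    exact ha
  have hm := hms α hα q hq (a : ZMod q) hgcd N N le_rfl le_rfl
  have ht : 0 < N / L ^ (B + 1) := by positivity
  refine cnt_ms _ _ (fun n => ‖cv LA (G2 N α z r) N N n‖) ht ?_ ?_ hm ?_
  · intro n hn
    rw [mem_filter, mem_Icc] at hn
    rw [mem_filter, mem_Icc]
    refine ⟨⟨hn.1.1, by omega⟩, ?_⟩
    have := (ZMod.intCast_eq_intCast_iff (n : ℤ) a q).2 hn.2.2.1
    rw [← this]
    push_cast
    rfl
  · intro n hn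
    rw [mem_filter, mem_Icc] at hn
    have h7 := hnear n hn.1.1 hn.1.2 hn.2.1
    have h8 : N / L ^ B = L * (N / L ^ (B + 1)) := by
      rw [pow_succ]
      field_simp
    have h9 : 2 * (N / L ^ (B + 1)) ≤ N / L ^ B := by
      rw [h8]
      gcongr
      linarith
    have h10 := hn.2.2.2
    linarith
  · have e1 : (N : ℝ) ^ 3 / (q * L ^ (A + 2 * (B + 1) + 2)) = N / (q * L ^ A) * (N / L ^ (B + 1)) ^ 2 / L ^ 2 := by
      have e2 : L ^ (A + 2 * (B + 1) + 2) = L ^ A * (L ^ (B + 1)) ^ 2 * L ^ 2 := by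
        rw [← pow_mul, ← pow_add, ← pow_add]
        congr 1
        ring
      rw [e2]
      field_simp
    rw [e1]
    apply div_le_self (by positivity)
    exact one_le_pow₀ hL1

end Pool.Agent.H579.E
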